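import Pool.Agent.H589.Five.Core
import Pool.Agent.H589.Pent.Class

/-!
# All coprime `quint`s
-/

set_option autoImplicit false

open Polynomial Pool.Agent.H589.Pent

namespace Pool.Agent.H589.Five

lemma quint_monic_deg (b a : ℕ) (c e s : ℤ) (ha : 1 ≤ a) (hab : a < b) :
    (quint b a c e s).natDegree = 2 * b ∧ (quint b a c e s).leadingCoeff = 1 ∧
      (quint b a c e s).coeff 0 = s := by
  have hc : (quint b a c e s).coeff (2 * b) = 1 := by
    unfold quint
    simp only [coeff_add, coeff_C_mul, coeff_X_pow, coeff_C]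
    rw [if_pos trivial, if_neg (by omega), if_neg (by omega), if_neg (by omega), if_neg (by omega)]
    ring
  have hd : (quint b a c e s).natDegree ≤ 2 * b := by
    unfold quint
    refine natDegree_add_le_of_degree_le (natDegree_add_le_of_degree_le
      (natDegree_add_le_of_degree_le (natDegree_add_le_of_degree_le ?_ ?_) ?_) ?_) ?_
    · exact natDegree_X_pow_le _
    · exact (natDegree_C_mul_X_pow_le _ _).trans (by omega)
    · exact (natDegree_C_mul_X_pow_le _ _).trans (by omega)
    · exact (natDegree_C_mul_X_pow_le _ _).trans (by omega)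
    · rw [natDegree_C]; omega
  have hd2 : (quint b a c e s).natDegree = 2 * b := by
    apply le_antisymm hd
    apply le_natDegree_of_ne_zero
    rw [hc]; norm_num
  refine ⟨hd2, ?_, ?_⟩
  · rw [leadingCoeff, hd2, hc]
  · unfold quint
    simp only [coeff_add, coeff_C_mul, coeff_X_pow, coeff_C]
    rw [if_neg (by omega), if_neg (by omega), if_neg (by omega), if_neg (by omega),
      if_pos trivial]
    ring

lemma use_aux (b a : ℕ) (c e s : ℤ) (hH : Hyp b a c e s) (K : ℝ) (n : ℕ) (hK : 1 ≤ K)
    (hn : 1 ≤ n) (hA : Aux b a c e s K n) (N b0 : ℕ) (r : ℝ) (hN : bad (quint b a c e s) ≤ N)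
    (hr1 : 1 ≤ r) (hr : (36 / 25) ^ n * r ≤ K ^ 2) (hb0 : K ^ N ≤ r ^ b0) (hbb : b0 ≤ b) :
    6 / 5 ≤ MM (quint b a c e s) := by
  obtain ⟨ha, hab, _, _, hs⟩ := hH
  obtain ⟨Q, hQ⟩ := hA
  obtain ⟨h1, h2, h3⟩ := quint_monic_deg b a c e s ha hab
  have hs1 : |s| = 1 := by rcases hs with h | ⟨h, _⟩ <;> rw [h] <;> norm_num
  have hF : quint b a c e s ≠ 0 := by
    intro h; rw [h] at h2; simp at h2
  have hcore := core (quint b a c e s) hF (by rw [h2]; norm_num) (by rw [h3, hs1]) b a s K n hK Q hQ
  exact final (quint b a c e s) b n N b0 K r hK (by omega) hn h1 hcore hN hr1 hr hb0 hbb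

lemma quint_binom (b a : ℕ) (c s : ℤ) (ha : 1 ≤ a) (hab : a < b) (hc : |c| = 1)
    (hs : s = 1 ∨ s = -1) : MM (quint b a c 0 s) = 1 := by
  have hc1 : c = 1 ∨ c = -1 := (abs_eq (by norm_num : (0:ℤ) ≤ 1)).mp hc
  have hcc : c * c = 1 := by rcases hc1 with h | h <;> rw [h] <;> norm_num
  have hsc : s * c = 1 ∨ s * c = -1 := by
    rcases hs with h | h <;> rcases hc1 with h' | h' <;> rw [h, h'] <;> norm_num
  have h1 : quint b a c 0 s = (X ^ (b + a) + C (s * c)) * (X ^ (b - a) + C c) := by
    unfold quint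
    have e1 : (X : ℤ[X]) ^ (2 * b) = X ^ (b + a) * X ^ (b - a) := by
      rw [← pow_add]; congr 1; omega
    have e2 : (C s : ℤ[X]) = C (s * c) * C c := by
      rw [← C_mul, mul_assoc, hcc, mul_one]
    have e3 : ((X ^ (b + a) + C (s * c)) * (X ^ (b - a) + C c) : ℤ[X]) =
        X ^ (b + a) * X ^ (b - a) + C c * X ^ (b + a) + C (s * c) * X ^ (b - a) +
          C (s * c) * C c := by ring
    rw [e3, e1, C_0, ← e2]
    ring
  rw [h1, MM_mul, MM_X_pow_add_sign _ (by omega) _ hsc, MM_X_pow_add_sign _ (by omega) _ hc1,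
    one_mul]

theorem quint_good (hA : S_AuxA) (hB : S_AuxB) (hC : S_Cnt) (hF : S_Fin)
    (b a : ℕ) (c e s : ℤ) (hH : Hyp b a c e s) : MM (quint b a c e s) = 1 ∨
      MM (quint b a c e s) = MM lehmer ∨ 6 / 5 ≤ MM (quint b a c e s) := by
  have hH' := hH
  obtain ⟨ha, hab, hco, hc0, hs⟩ := hH
  obtain ⟨C1, C2, C3, C4, C5, C6, C7, C8, C9, C10, C11, C12⟩ := hC b a c e s hH'
  obtain ⟨A1, A2, A3, A4⟩ := hA b a c e s hH'
  have hfin := hF b a c e s hH'
  have hc1 : 1 ≤ |c| := Int.one_le_abs hc0
  have he0 := abs_nonneg e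
  have wrap : 6 / 5 ≤ MM (quint b a c e s) → MM (quint b a c e s) = 1 ∨
      MM (quint b a c e s) = MM lehmer ∨ 6 / 5 ≤ MM (quint b a c e s) :=
    fun h => Or.inr (Or.inr h)
  have wrap2 : (MM (quint b a c e s) = 1 ∨ 6 / 5 ≤ MM (quint b a c e s)) →
      MM (quint b a c e s) = 1 ∨
      MM (quint b a c e s) = MM lehmer ∨ 6 / 5 ≤ MM (quint b a c e s) := by
    rintro (h | h)
    · exact Or.inl h
    · exact Or.inr (Or.inr h)
  have hbig : 4 ≤ |c| → ∀ N b0 : ℕ, bad (quint b a c e s) ≤ N → b0 ≤ b →
      (16 / 5 : ℝ) ^ N ≤ (493 / 100) ^ b0 → 6 / 5 ≤ MM (quint b a c e s) := by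
    intro h N b0 hN hb hnum
    exact use_aux b a c e s hH' (16 / 5) 2 (by norm_num) (by norm_num) (A1 h) N b0 (493 / 100)
      hN (by norm_num) (by norm_num) hnum hb
  have h3 : |c| = 3 → ∀ N b0 : ℕ, bad (quint b a c e s) ≤ N → b0 ≤ b →
      (9 / 4 : ℝ) ^ N ≤ (244 / 100) ^ b0 → 6 / 5 ≤ MM (quint b a c e s) := by
    intro h N b0 hN hb hnum
    exact use_aux b a c e s hH' (9 / 4) 2 (by norm_num) (by norm_num) (A2 h) N b0 (244 / 100)
      hN (by norm_num) (by norm_num) hnum hb
  have h2e : |c| = 2 → Even e → ∀ N b0 : ℕ, bad (quint b a c e s) ≤ N → b0 ≤ b →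
      (4 : ℝ) ^ N ≤ (372 / 100) ^ b0 → 6 / 5 ≤ MM (quint b a c e s) := by
    intro h he N b0 hN hb hnum
    exact use_aux b a c e s hH' 4 4 (by norm_num) (by norm_num) (A3 h he) N b0 (372 / 100)
      hN (by norm_num) (by norm_num) hnum hb
  have h2o : |c| = 2 → ¬ Even e → ∀ N b0 : ℕ, bad (quint b a c e s) ≤ N → b0 ≤ b →
      (27 / 4 : ℝ) ^ N ≤ (51 / 10) ^ b0 → 6 / 5 ≤ MM (quint b a c e s) := by
    intro h he N b0 hN hb hnum
    exact use_aux b a c e s hH' (27 / 4) 6 (by norm_num) (by norm_num) (A4 h he) N b0 (51 / 10)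
      hN (by norm_num) (by norm_num) hnum hb
  rcases lt_or_ge (2 * |c| + 2) |e| with hlarge | hsmall
  · -- no zero on the circle
    have hb0 : bad (quint b a c e s) ≤ 0 := (C12 hlarge).le
    apply wrap
    rcases (by omega : |c| = 1 ∨ |c| = 2 ∨ |c| = 3 ∨ 4 ≤ |c|) with h | h | h | h
    · have hs1 : s = 1 := by
        rcases hs with h' | ⟨_, h'⟩
        · exact h'
        · rw [h'] at hlarge; simp at hlarge; omega
      subst hs1
      obtain ⟨B1, B2, B3⟩ := hB b a c e hH' h
      exact use_aux b a c e 1 hH' 2 1 (by norm_num) (by norm_num) (B3 (by omega)) 0 2 (27 / 10)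
        hb0 (by norm_num) (by norm_num) (by norm_num) (by omega)
    · by_cases he : Even e
      · exact h2e h he 0 2 hb0 (by omega) (by norm_num)
      · exact h2o h he 0 2 hb0 (by omega) (by norm_num)
    · exact h3 h 0 2 hb0 (by omega) (by norm_num)
    · exact hbig h 0 2 hb0 (by omega) (by norm_num)
  · have hfin' := hfin hsmall
    rcases hs with hs | ⟨hs, he00⟩
    · -- reciprocal
      rcases (by omega : |c| = 1 ∨ |c| = 2 ∨ |c| = 3 ∨ |c| = 4 ∨ 5 ≤ |c|) with h | h | h | h | h
      · subst hs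
        obtain ⟨B1, B2, B3⟩ := hB b a c e hH' h
        rcases (by omega : |e| = 0 ∨ |e| = 1 ∨ |e| = 2 ∨ (|e| = 3 ∨ |e| = 4)) with
          h' | h' | h' | h'
        · have : e = 0 := abs_eq_zero.mp h'
          subst this
          left
          exact quint_binom b a c 1 ha hab h (Or.inl rfl)
        · have hc1' : c = 1 ∨ c = -1 := (abs_eq (by norm_num : (0:ℤ) ≤ 1)).mp h
          have he1' : e = 1 ∨ e = -1 := (abs_eq (by norm_num : (0:ℤ) ≤ 1)).mp h'
          have hg := good_pent b a ha hab c e hc1' he1'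
          have hq : quint b a c e 1 = pent b a c e := by
            unfold quint pent
            rw [one_mul, map_one]
          rw [hq]
          exact hg
        · by_cases hb5 : b ≤ 5
          · exact wrap2 (hfin' (Or.inl ⟨rfl, h, h', hb5⟩))
          · apply wrap
            exact use_aux b a c e 1 hH' 4 5 (by norm_num) (by norm_num) (B1 h') 4 6 (258 / 100)
              (C1 rfl h h') (by norm_num) (by norm_num) (by norm_num) (by omega)
        · apply wrap
          exact use_aux b a c e 1 hH' 4 3 (by norm_num) (by norm_num) (B2 h') 2 2 (53 / 10)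
            (C2 rfl h (by omega)) (by norm_num) (by norm_num) (by norm_num) (by omega)
      · by_cases hb6 : b ≤ 6
        · exact wrap2 (hfin' (Or.inr (Or.inl ⟨hs, h, hb6⟩)))
        · apply wrap
          by_cases he : Even e
          · exact h2e h he 6 7 (C3 hs h (by omega) he) (by omega) (by norm_num)
          · exact h2o h he 4 5 (C4 hs h (by omega) he) (by omega) (by norm_num)
      · by_cases hb3 : b ≤ 3
        · exact wrap2 (hfin' (Or.inr (Or.inr (Or.inl ⟨hs, h, hb3⟩))))
        · apply wrap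
          refine h3 h 4 4 (C5 hs (by omega) ?_) (by omega) (by norm_num)
          rintro ⟨_, h'⟩
          rw [h] at h'
          rcases h' with h' | h'
          · omega
          · have : (4:ℤ) ≤ b := by omega
            nlinarith
      · by_cases hsp : a = 1 ∧ (b = 2 ∨ b = 4)
        · exact wrap2 (hfin' (Or.inr (Or.inr (Or.inr (Or.inl ⟨hs, h, hsp.1, hsp.2⟩)))))
        · apply wrap
          refine hbig (by omega) 4 3 (C5 hs (by omega) ?_) (by omega) (by norm_num)
          rintro ⟨ha1, h'⟩
          apply hsp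
          refine ⟨ha1, ?_⟩
          rw [h] at h'
          rcases h' with h' | h'
          · right; omega
          · left
            have hb0 : (0:ℤ) ≤ b := by positivity
            have : (b:ℤ) = 2 := by nlinarith
            omega
      · apply wrap
        by_cases hb2 : b = 2
        · exact hbig (by omega) 2 2 (C6 hs h hb2) (by omega) (by norm_num)
        · by_cases hI : |c| = b
          · exact hbig (by omega) 6 5 (C8 hs h hI) (by omega) (by norm_num)
          · by_cases hII : |c| = b ^ 2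
            · exact hbig (by omega) 4 3 (C7 hs h hII) (by omega) (by norm_num)
            · refine hbig (by omega) 4 3 (C5 hs (by omega) ?_) (by omega) (by norm_num)
              rintro ⟨_, h' | h'⟩
              · exact hI h'
              · exact hII h'
    · -- antireciprocal
      rcases (by omega : |c| = 1 ∨ |c| = 2 ∨ |c| = 3 ∨ |c| = 4 ∨ 5 ≤ |c|) with h | h | h | h | h
      · subst he00
        left
        exact quint_binom b a c s ha hab h (Or.inr hs)
      · by_cases hb6 : b ≤ 6
        · exact wrap2 (hfin' (Or.inr (Or.inr (Or.inr (Or.inr (Or.inl ⟨hs, h, hb6⟩))))))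
        · apply wrap
          have he : Even e := by rw [he00]; exact Even.zero
          exact h2e h he 6 7 (C9 hs h (by omega)) (by omega) (by norm_num)
      · by_cases hsp : b = 3 ∧ a = 1
        · exact wrap2 (hfin' (Or.inr (Or.inr (Or.inr (Or.inr (Or.inr (Or.inl ⟨hs, h, hsp⟩)))))))
        · apply wrap
          refine h3 h 2 2 (C10 hs (by omega) ?_) (by omega) (by norm_num)
          rintro ⟨ha1, h'⟩
          apply hsp
          exact ⟨by omega, ha1⟩
      · by_cases hsp : b = 4 ∧ a = 1
        · exact wrap2 (hfin' (Or.inr (Or.inr (Or.inr (Or.inr (Or.inr (Or.inr ⟨hs, h, hsp⟩)))))))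
        · apply wrap
          refine hbig (by omega) 2 2 (C10 hs (by omega) ?_) (by omega) (by norm_num)
          rintro ⟨ha1, h'⟩
          apply hsp
          exact ⟨by omega, ha1⟩
      · apply wrap
        by_cases hI : |c| = b
        · exact hbig (by omega) 6 5 (C11 hs (by omega) hI) (by omega) (by norm_num)
        · refine hbig (by omega) 2 2 (C10 hs (by omega) ?_) (by omega) (by norm_num)
          rintro ⟨_, h'⟩
          exact hI h'

end Pool.Agent.H589.Five
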