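import Pool.Agent.H589.Pent.Graeffe

/-!
# Interfaces (helper589, MP_dc0c68_nt): Lehmer's inequality for all integer polynomials with at
most five nonzero coefficients

`quint b a c e s = X^(2b) + c X^(b+a) + e X^b + s (c X^(b-a) + 1)`, `s = ± 1` (and `e = 0` if
`s = -1`).
-/

set_option autoImplicit false

open Polynomial Pool.Agent.H589.Pent

namespace Pool.Agent.H589.Five

/-- `X^(2b) + c X^(b+a) + e X^b + s (c X^(b-a) + 1)` -/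
noncomputable def quint (b a : ℕ) (c e s : ℤ) : ℤ[X] :=
  X ^ (2 * b) + C c * X ^ (b + a) + C e * X ^ b + C (s * c) * X ^ (b - a) + C s

/-- `max (|x|, 1 / |x|)` -/
noncomputable def big (x : ℂ) : ℝ := max ‖x‖ ‖x‖⁻¹

/-- the pointwise conditions at a zero `α`, with `τ = α^a + s α^(-a)` and `X = α^b` -/
def Pt (b a : ℕ) (s : ℤ) (Q : ℤ[X]) (K : ℝ) (n : ℕ) (α : ℂ) : Prop :=
  K * ‖aeval (α ^ a + (s : ℂ) * (α ^ a)⁻¹) Q‖ ≤ big (α ^ b) ^ n ∧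
  (aeval (α ^ a + (s : ℂ) * (α ^ a)⁻¹) Q = 0 → K ≤ big (α ^ b) ^ n ∨ α ^ 12 = 1)

/-- the general hypotheses -/
def Hyp (b a : ℕ) (c e s : ℤ) : Prop :=
  1 ≤ a ∧ a < b ∧ a.Coprime b ∧ c ≠ 0 ∧ (s = 1 ∨ (s = -1 ∧ e = 0))

/-- an auxiliary polynomial with constant `K` and exponent `n` exists -/
def Aux (b a : ℕ) (c e s : ℤ) (K : ℝ) (n : ℕ) : Prop :=
  ∃ Q : ℤ[X], ∀ α : ℂ, α ≠ 0 → aeval α (quint b a c e s) = 0 → Pt b a s Q K n α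

/-- **S_AuxA.** Auxiliary polynomials for `|c| ≥ 2`. -/
def S_AuxA : Prop :=
  ∀ (b a : ℕ) (c e s : ℤ), Hyp b a c e s →
    (4 ≤ |c| → Aux b a c e s (16 / 5) 2) ∧
    (|c| = 3 → Aux b a c e s (9 / 4) 2) ∧
    (|c| = 2 → Even e → Aux b a c e s 4 4) ∧
    (|c| = 2 → ¬ Even e → Aux b a c e s (27 / 4) 6)

/-- **S_AuxB.** Auxiliary polynomials for `|c| = 1`, `|e| ≥ 2`. -/
def S_AuxB : Prop :=
  ∀ (b a : ℕ) (c e : ℤ), Hyp b a c e 1 → |c| = 1 →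
    (|e| = 2 → Aux b a c e 1 4 5) ∧
    (|e| = 3 ∨ |e| = 4 → Aux b a c e 1 4 3) ∧
    (5 ≤ |e| → Aux b a c e 1 2 1)

/-- the number, with multiplicity, of the zeros of `F` that are `12`-th roots of unity -/
noncomputable def bad (F : ℤ[X]) : ℕ :=
  ∑ α ∈ (nthRoots 12 (1 : ℂ)).toFinset, (F.map (Int.castRingHom ℂ)).rootMultiplicity α

/-- **S_Cnt.** The number of the zeros that are `12`-th roots of unity. -/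
def S_Cnt : Prop :=
  ∀ (b a : ℕ) (c e s : ℤ), Hyp b a c e s →
    (s = 1 → |c| = 1 → |e| = 2 → bad (quint b a c e s) ≤ 4) ∧
    (s = 1 → |c| = 1 → 3 ≤ |e| → bad (quint b a c e s) ≤ 2) ∧
    (s = 1 → |c| = 2 → 3 ≤ b → Even e → bad (quint b a c e s) ≤ 6) ∧
    (s = 1 → |c| = 2 → 3 ≤ b → ¬ Even e → bad (quint b a c e s) ≤ 4) ∧
    (s = 1 → 3 ≤ |c| → ¬ (a = 1 ∧ (|c| = b ∨ |c| = b ^ 2)) → bad (quint b a c e s) ≤ 4) ∧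
    (s = 1 → 5 ≤ |c| → b = 2 → bad (quint b a c e s) ≤ 2) ∧
    (s = 1 → 5 ≤ |c| → |c| = b ^ 2 → bad (quint b a c e s) ≤ 4) ∧
    (s = 1 → 5 ≤ |c| → |c| = b → bad (quint b a c e s) ≤ 6) ∧
    (s = -1 → |c| = 2 → 3 ≤ b → bad (quint b a c e s) ≤ 6) ∧
    (s = -1 → 3 ≤ |c| → ¬ (a = 1 ∧ |c| = b) → bad (quint b a c e s) ≤ 2) ∧
    (s = -1 → 3 ≤ |c| → |c| = b → bad (quint b a c e s) ≤ 6) ∧
    (2 * |c| + 2 < |e| → bad (quint b a c e s) = 0)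

/-- **S_Fin.** The small cases. -/
def S_Fin : Prop :=
  ∀ (b a : ℕ) (c e s : ℤ), Hyp b a c e s → |e| ≤ 2 * |c| + 2 →
    ((s = 1 ∧ |c| = 1 ∧ |e| = 2 ∧ b ≤ 5) ∨ (s = 1 ∧ |c| = 2 ∧ b ≤ 6) ∨ (s = 1 ∧ |c| = 3 ∧ b ≤ 3) ∨
      (s = 1 ∧ |c| = 4 ∧ a = 1 ∧ (b = 2 ∨ b = 4)) ∨ (s = -1 ∧ |c| = 2 ∧ b ≤ 6) ∨
      (s = -1 ∧ |c| = 3 ∧ b = 3 ∧ a = 1) ∨ (s = -1 ∧ |c| = 4 ∧ b = 4 ∧ a = 1)) →
    MM (quint b a c e s) = 1 ∨ 6 / 5 ≤ MM (quint b a c e s)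

/-- **S_Cls.** The reduction to coprime `quint`s (`m0` will be the measure of Lehmer's
polynomial). -/
def S_Cls : Prop :=
  ∀ m0 : ℝ,
    (∀ (b a : ℕ) (c e s : ℤ), Hyp b a c e s → MM (quint b a c e s) = 1 ∨
      MM (quint b a c e s) = m0 ∨ 6 / 5 ≤ MM (quint b a c e s)) →
    ∀ f : ℤ[X], f ≠ 0 → f.support.card ≤ 5 → MM f = 1 ∨ MM f = m0 ∨ 6 / 5 ≤ MM f

end Pool.Agent.H589.Five
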