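import Mathlib
import Pool.Agent.H589.Five.Spec

/-!
# Auxiliary polynomials for `|c| ≥ 2` (subtask AUXA)
-/

set_option autoImplicit false

open Polynomial Pool.Agent.H589.Pent

namespace Pool.Agent.H589.Five

namespace AuxA_

theorem one_le_big {x : ℂ} (hx : x ≠ 0) : 1 ≤ big x := by
  unfold big
  rcases le_or_gt 1 ‖x‖ with h | h
  · exact le_max_of_le_left h
  · refine le_max_of_le_right ?_
    exact (one_le_inv₀ (norm_pos_iff.2 hx)).2 h.le

theorem norm_add_inv {x : ℂ} : ‖x‖ + ‖x‖⁻¹ = big x + (big x)⁻¹ := by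
  unfold big
  rcases le_total ‖x‖ ‖x‖⁻¹ with h | h
  · rw [max_eq_right h, inv_inv, add_comm]
  · rw [max_eq_left h]

theorem big_ge {x : ℂ} (hx : x ≠ 0) (ρ : ℝ) (hρ : 1 ≤ ρ) (h : ρ + ρ⁻¹ ≤ ‖x‖ + ‖x‖⁻¹) :
    ρ ≤ big x := by
  by_contra hlt
  push Not at hlt
  rw [norm_add_inv] at h
  have h1 := one_le_big hx
  have hb : 0 < big x := by linarith
  have hr : 0 < ρ := by linarith
  have h2 : ρ + ρ⁻¹ - (big x + (big x)⁻¹) = (ρ - big x) * (ρ * big x - 1) / (ρ * big x) := by
    field_simp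
    ring
  have h3 : 0 < (ρ - big x) * (ρ * big x - 1) / (ρ * big x) := by
    apply div_pos _ (mul_pos hr hb)
    apply mul_pos (by linarith)
    nlinarith
  linarith

theorem quint_eq {b a : ℕ} {c e s : ℤ} (hab : a < b) {α : ℂ} (hα : α ≠ 0)
    (h : aeval α (quint b a c e s) = 0) :
    α ^ b + (s : ℂ) * (α ^ b)⁻¹ + e + c * (α ^ a + (s : ℂ) * (α ^ a)⁻¹) = 0 := by
  unfold quint at h
  simp only [map_add, map_mul, map_pow, aeval_X, eq_intCast, map_intCast] at h
  have hX : α ^ b ≠ 0 := pow_ne_zero _ hα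
  have hY : α ^ a ≠ 0 := pow_ne_zero _ hα
  have h1 : α ^ (b - a) = α ^ b * (α ^ a)⁻¹ := pow_sub₀ α hα hab.le
  rw [h1, pow_add, two_mul, pow_add] at h
  have h2 : α ^ b * (α ^ b + (s : ℂ) * (α ^ b)⁻¹ + e + c * (α ^ a + (s : ℂ) * (α ^ a)⁻¹)) = 0 := by
    rw [← h]
    field_simp
    ring
  rcases mul_eq_zero.1 h2 with h3 | h3
  · exact absurd h3 hX
  · exact h3

/-- the polynomial `w ^ n Q(T(w))` -/
noncomputable def PP (Q : ℤ[X]) (n : ℕ) (c e s : ℂ) (z : ℂ) : ℂ :=
  ∑ i ∈ Finset.range (n + 1), (Q.coeff i : ℂ) * (-(z ^ 2 + e * z + s) / c) ^ i * z ^ (n - i)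

theorem PP_diff (Q : ℤ[X]) (n : ℕ) (c e s : ℂ) : Differentiable ℂ (PP Q n c e s) := by
  unfold PP
  fun_prop

theorem PP_eq (Q : ℤ[X]) (n : ℕ) (hn : Q.natDegree ≤ n) (c e s : ℂ) (z : ℂ) (hz : z ≠ 0) :
    PP Q n c e s z = z ^ n * aeval (-(z + s * z⁻¹ + e) / c) Q := by
  rw [aeval_eq_sum_range' (Nat.lt_succ_of_le hn), Finset.mul_sum]
  unfold PP
  refine Finset.sum_congr rfl fun i hi => ?_
  have hi' : i ≤ n := Nat.lt_succ_iff.1 (Finset.mem_range.1 hi)
  have h1 : z ^ n = z ^ i * z ^ (n - i) := by rw [← pow_add, Nat.add_sub_cancel' hi']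
  have h2 : (-(z ^ 2 + e * z + s) / c) = z * (-(z + s * z⁻¹ + e) / c) := by
    field_simp
    ring
  rw [h1, h2, mul_pow, zsmul_eq_mul]
  ring

theorem maxmod (Q : ℤ[X]) (n : ℕ) (hn : Q.natDegree ≤ n) (c e s : ℂ) (hs : s = 1 ∨ s = -1)
    (K : ℝ) (hK : 0 < K)
    (h : ∀ w : ℂ, ‖w‖ = 1 → K * ‖aeval (-(w + s * w⁻¹ + e) / c) Q‖ ≤ 1) (w : ℂ) (hw : w ≠ 0) :
    K * ‖aeval (-(w + s * w⁻¹ + e) / c) Q‖ ≤ big w ^ n := by
  have key : ∀ w : ℂ, w ≠ 0 → ‖w‖ ≤ 1 →
      K * ‖aeval (-(w + s * w⁻¹ + e) / c) Q‖ ≤ (‖w‖⁻¹) ^ n := by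
    intro w hw hw1
    have h1 : ‖PP Q n c e s w‖ ≤ K⁻¹ := by
      refine Complex.norm_le_of_forall_mem_frontier_norm_le (U := Metric.ball 0 1)
        Metric.isBounded_ball (PP_diff Q n c e s).diffContOnCl ?_ ?_
      · intro z hz
        rw [frontier_ball (0 : ℂ) one_ne_zero, mem_sphere_zero_iff_norm] at hz
        have hz0 : z ≠ 0 := by
          rintro rfl
          rw [norm_zero] at hz
          exact zero_ne_one hz
        rw [PP_eq Q n hn c e s z hz0, norm_mul, norm_pow, hz, one_pow, one_mul]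
        rw [← one_div K, le_div_iff₀ hK, mul_comm]
        exact h z hz
      · rw [closure_ball (0 : ℂ) one_ne_zero, mem_closedBall_zero_iff]
        exact hw1
    rw [PP_eq Q n hn c e s w hw, norm_mul, norm_pow] at h1
    have hwp : 0 < ‖w‖ ^ n := pow_pos (norm_pos_iff.2 hw) n
    rw [inv_pow, ← one_div (‖w‖ ^ n), le_div_iff₀ hwp]
    have h2 : K * (‖w‖ ^ n * ‖aeval (-(w + s * w⁻¹ + e) / c) Q‖) ≤ K * K⁻¹ :=
      mul_le_mul_of_nonneg_left h1 hK.le
    rw [mul_inv_cancel₀ hK.ne'] at h2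
    linarith
  rcases le_or_gt ‖w‖ 1 with hw1 | hw1
  · refine (key w hw hw1).trans ?_
    exact pow_le_pow_left₀ (by positivity) (le_max_right _ _) n
  · -- replace `w` by `s / w`
    have hs0 : s ≠ 0 := by
      rcases hs with rfl | rfl
      · exact one_ne_zero
      · exact neg_ne_zero.2 one_ne_zero
    have hsn : ‖s‖ = 1 := by
      rcases hs with rfl | rfl
      · exact norm_one
      · rw [norm_neg, norm_one]
    have hw' : s * w⁻¹ ≠ 0 := mul_ne_zero hs0 (inv_ne_zero hw)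
    have hn' : ‖s * w⁻¹‖ = ‖w‖⁻¹ := by rw [norm_mul, hsn, one_mul, norm_inv]
    have h1 := key (s * w⁻¹) hw' (by rw [hn']; exact inv_le_one_of_one_le₀ hw1.le)
    have h2 : s * w⁻¹ + s * (s * w⁻¹)⁻¹ = w + s * w⁻¹ := by
      field_simp
      ring
    rw [h2, hn', inv_inv] at h1
    exact h1.trans (pow_le_pow_left₀ (norm_nonneg _) (le_max_left _ _) n)

theorem pow12_of_int {X : ℂ} (hX : X ≠ 0) (m : ℤ) (hm : |m| ≤ 2) (h : X + X⁻¹ = (m : ℂ)) :
    X ^ 12 = 1 := by
  have h1 : X ^ 2 = m * X - 1 := by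
    have h2 : (X + X⁻¹) * X = m * X := by rw [h]
    rw [add_mul, inv_mul_cancel₀ hX] at h2
    linear_combination h2
  obtain ⟨h2, h3⟩ := abs_le.1 hm
  interval_cases m
  · -- -2
    have h4 : (X + 1) ^ 2 = 0 := by push_cast at h1; linear_combination h1
    have h5 : X = -1 := by
      have := pow_eq_zero_iff (two_ne_zero) |>.1 h4
      linear_combination this
    rw [h5]; norm_num
  · -- -1
    push_cast at h1
    have h4 : X ^ 3 = 1 := by linear_combination (X - 1) * h1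
    calc X ^ 12 = (X ^ 3) ^ 4 := by ring
      _ = 1 := by rw [h4, one_pow]
  · push_cast at h1
    have h4 : X ^ 2 = -1 := by linear_combination h1
    calc X ^ 12 = (X ^ 2) ^ 6 := by ring
      _ = 1 := by rw [h4]; norm_num
  · push_cast at h1
    have h4 : X ^ 3 = -1 := by linear_combination (X + 1) * h1
    calc X ^ 12 = (X ^ 3) ^ 4 := by ring
      _ = 1 := by rw [h4]; norm_num
  · have h4 : (X - 1) ^ 2 = 0 := by push_cast at h1; linear_combination h1
    have h5 : X = 1 := by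
      have := pow_eq_zero_iff (two_ne_zero) |>.1 h4
      linear_combination this
    rw [h5]; norm_num

theorem pow12_of_both {α : ℂ} {a b : ℕ} (hco : a.Coprime b) (ha : (α ^ a) ^ 12 = 1)
    (hb : (α ^ b) ^ 12 = 1) : α ^ 12 = 1 := by
  rw [← pow_mul, mul_comm, pow_mul] at ha hb
  have h1 : orderOf (α ^ 12) ∣ a := orderOf_dvd_of_pow_eq_one ha
  have h2 : orderOf (α ^ 12) ∣ b := orderOf_dvd_of_pow_eq_one hb
  have h3 : orderOf (α ^ 12) ∣ 1 := by
    rw [← Nat.Coprime.gcd_eq_one hco]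
    exact Nat.dvd_gcd h1 h2
  exact orderOf_eq_one_iff.1 (Nat.dvd_one.1 h3)

/-- the case that `τ` is an integer, `s = 1` -/
theorem int_case {a b : ℕ} (hb : b ≠ 0) (hco : a.Coprime b) {α : ℂ} (hα : α ≠ 0) (k m : ℤ)
    (hk : α ^ a + (α ^ a)⁻¹ = (k : ℂ)) (hm : α ^ b + (α ^ b)⁻¹ = (m : ℂ)) :
    5 / 2 ≤ big (α ^ b) ∨ α ^ 12 = 1 := by
  have hX : α ^ b ≠ 0 := pow_ne_zero _ hα
  have hY : α ^ a ≠ 0 := pow_ne_zero _ hα
  rcases le_or_gt |m| 2 with h | h
  · right
    have h1 : (α ^ b) ^ 12 = 1 := pow12_of_int hX m h hm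
    have h2 : ‖α‖ = 1 := by
      have h3 : ‖α‖ ^ (b * 12) = 1 := by rw [← norm_pow, pow_mul, h1, norm_one]
      exact (pow_eq_one_iff_of_nonneg (norm_nonneg _) (by omega)).1 h3
    have h3 : |k| ≤ 2 := by
      have h4 : ‖(k : ℂ)‖ ≤ 2 := by
        rw [← hk]
        refine (norm_add_le _ _).trans ?_
        rw [norm_inv, norm_pow, h2, one_pow]
        norm_num
      rw [Complex.norm_intCast] at h4
      exact_mod_cast h4
    exact pow12_of_both hco (pow12_of_int hY k h3 hk) h1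
  · left
    refine big_ge hX _ (by norm_num) ?_
    have h1 : (3 : ℝ) ≤ ‖(m : ℂ)‖ := by
      rw [Complex.norm_intCast]
      exact_mod_cast h
    rw [← hm] at h1
    have h2 := norm_add_le (α ^ b) (α ^ b)⁻¹
    rw [norm_inv] at h2
    norm_num at *
    linarith

/-- reduction to the unit circle -/
theorem aux_of {b a : ℕ} {c e s : ℤ} (hh : Hyp b a c e s) (Q : ℤ[X]) (n : ℕ)
    (hn : Q.natDegree ≤ n) (K : ℝ) (hK : 0 < K)
    (hc : ∀ w : ℂ, ‖w‖ = 1 → K * ‖aeval (-(w + (s : ℂ) * w⁻¹ + e) / c) Q‖ ≤ 1)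
    (hz : ∀ α : ℂ, α ≠ 0 →
      α ^ b + (s : ℂ) * (α ^ b)⁻¹ + e + c * (α ^ a + (s : ℂ) * (α ^ a)⁻¹) = 0 →
      aeval (α ^ a + (s : ℂ) * (α ^ a)⁻¹) Q = 0 → K ≤ big (α ^ b) ^ n ∨ α ^ 12 = 1) :
    Aux b a c e s K n := by
  obtain ⟨ha, hab, hco, hc0, hs⟩ := hh
  refine ⟨Q, fun α hα h0 => ?_⟩
  have h1 := quint_eq hab hα h0
  have hc0' : (c : ℂ) ≠ 0 := by exact_mod_cast hc0
  refine ⟨?_, fun h => hz α hα h1 h⟩
  have h2 : α ^ a + (s : ℂ) * (α ^ a)⁻¹ = -(α ^ b + (s : ℂ) * (α ^ b)⁻¹ + e) / c := by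
    rw [eq_div_iff hc0']
    linear_combination h1
  rw [h2]
  refine maxmod Q n hn c e s ?_ K hK hc (α ^ b) (pow_ne_zero _ hα)
  rcases hs with rfl | ⟨rfl, -⟩
  · left; norm_num
  · right; norm_num

/-- division with small remainder -/
theorem exists_small (c e : ℤ) (hc : c ≠ 0) : ∃ k : ℤ, 2 * |e + c * k| ≤ |c| := by
  have h1 := Int.emod_add_mul_ediv e c
  have h2 := Int.emod_nonneg e hc
  have h3 := Int.emod_lt_abs e hc
  rcases le_or_gt (2 * (e % c)) |c| with h | h
  · refine ⟨-(e / c), ?_⟩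
    have h4 : e + c * -(e / c) = e % c := by linear_combination -h1
    rw [h4, abs_of_nonneg h2]
    exact h
  · rcases lt_or_gt_of_ne hc with h5 | h5
    · refine ⟨-(e / c) + 1, ?_⟩
      have h4 : e + c * (-(e / c) + 1) = e % c + c := by linear_combination -h1
      rw [abs_of_neg h5] at h h3 ⊢
      rw [h4, abs_of_neg (by omega)]
      omega
    · refine ⟨-(e / c) - 1, ?_⟩
      have h4 : e + c * (-(e / c) - 1) = e % c - c := by linear_combination -h1
      rw [abs_of_pos h5] at h h3 ⊢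
      rw [h4, abs_of_neg (by omega)]
      omega

/-- on the unit circle, `s = 1` -/
theorem circ_one {w : ℂ} (hw : ‖w‖ = 1) : ∃ σ : ℝ, |σ| ≤ 2 ∧ w + w⁻¹ = (σ : ℂ) := by
  refine ⟨2 * w.re, ?_, ?_⟩
  · rw [abs_mul]
    have := Complex.abs_re_le_norm w
    rw [hw] at this
    rw [abs_of_pos (by norm_num : (0 : ℝ) < 2)]
    linarith
  · have h1 : w⁻¹ = (starRingEnd ℂ) w := by
      rw [Complex.inv_def, Complex.normSq_eq_norm_sq, hw]
      simp
    rw [h1, Complex.add_conj]

/-- on the unit circle, `s = -1` -/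
theorem circ_neg {w : ℂ} (hw : ‖w‖ = 1) :
    ∃ σ : ℝ, |σ| ≤ 2 ∧ w - w⁻¹ = (σ : ℂ) * Complex.I := by
  refine ⟨2 * w.im, ?_, ?_⟩
  · rw [abs_mul]
    have := Complex.abs_im_le_norm w
    rw [hw] at this
    rw [abs_of_pos (by norm_num : (0 : ℝ) < 2)]
    linarith
  · have h1 : w⁻¹ = (starRingEnd ℂ) w := by
      rw [Complex.inv_def, Complex.normSq_eq_norm_sq, hw]
      simp
    rw [h1, Complex.sub_conj]

/-- the inequality for the quadratic auxiliary polynomial -/
theorem real_case (σ c r δ K : ℝ) (hσ : |σ| ≤ 2) (hc : 3 ≤ |c|) (hr1 : 1 ≤ |r|)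
    (hr2 : |r| + 2 ≤ |c|) (hδ : δ ^ 2 = 1) (h : -(δ * r * c) = |r| * |c|) (hK : 0 < K)
    (hK2 : K * (|c| + 1) ≤ c ^ 2) (hK3 : K ≤ 4) :
    K * |(-(σ + r) / c) * (-(σ + r) / c - δ)| ≤ 1 := by
  have hC : 0 < |c| := by linarith
  have hc0 : c ≠ 0 := abs_pos.1 hC
  have hcc : |c| ^ 2 = c ^ 2 := sq_abs c
  -- the variable `t`
  have hσ' : |-(δ * (|c| / c) * σ)| ≤ 2 := by
    have h1 : |δ| = 1 := by
      have h2 : |δ| ^ 2 = 1 := by rw [sq_abs, hδ]
      exact (pow_eq_one_iff_of_nonneg (abs_nonneg _) two_ne_zero).1 h2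
    rw [abs_neg, abs_mul, abs_mul, abs_div, abs_abs, div_self hC.ne', h1]
    linarith
  set σ' := -(δ * (|c| / c) * σ) with hσ'def
  obtain ⟨h3, h4⟩ := abs_le.1 hσ'
  have hx : (-(σ + r) / c) * (-(σ + r) / c - δ) =
      (|r| + σ') * (|r| + σ' - |c|) / c ^ 2 := by
    have h5 : |r| + σ' = δ * (-(σ + r) / c) * |c| := by
      have h6 : |r| = -(δ * r * c) / |c| := by rw [h]; field_simp
      rw [h6, hσ'def]
      field_simp
      rw [hcc]
      ring
    rw [h5]
    have h7 : δ * (-(σ + r) / c) * |c| * (δ * (-(σ + r) / c) * |c| - |c|) =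
        (δ ^ 2 * (-(σ + r) / c) ^ 2 - δ * (-(σ + r) / c)) * |c| ^ 2 := by ring
    rw [h7, hδ, hcc]
    field_simp
    ring
  rw [hx, abs_div, abs_of_pos (by positivity : (0 : ℝ) < c ^ 2), ← mul_div_assoc,
    div_le_one (by positivity)]
  set t := |r| + σ' with ht
  have ht1 : -1 ≤ t := by linarith
  have ht2 : t ≤ |c| := by linarith
  rcases le_or_gt 0 t with h8 | h8
  · have h9 : |t * (t - |c|)| = t * (|c| - t) := by
      rw [abs_mul, abs_of_nonneg h8, abs_of_nonpos (by linarith)]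
      ring
    rw [h9, ← hcc]
    nlinarith [sq_nonneg (|c| - 2 * t), mul_nonneg h8 (by linarith : 0 ≤ |c| - t)]
  · have h9 : |t * (t - |c|)| = -t * (|c| - t) := by
      rw [abs_mul, abs_of_neg h8, abs_of_neg (by linarith)]
      ring
    rw [h9]
    have h10 : -t * (|c| - t) ≤ |c| + 1 := by nlinarith
    exact (mul_le_mul_of_nonneg_left h10 hK.le).trans hK2

/-- the zeros of `w - 1 / w` -/
theorem neg_case {a b : ℕ} (hco : a.Coprime b) {α : ℂ} (hα : α ≠ 0)
    (hk : α ^ a - (α ^ a)⁻¹ = 0) (hm : α ^ b - (α ^ b)⁻¹ = 0) : α ^ 12 = 1 := by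
  have key : ∀ z : ℂ, z ≠ 0 → z - z⁻¹ = 0 → z ^ 12 = 1 := by
    intro z hz h
    have h1 : z ^ 2 = 1 := by
      have h2 : z * (z - z⁻¹) = 0 := by rw [h, mul_zero]
      rw [mul_sub, mul_inv_cancel₀ hz] at h2
      linear_combination h2
    calc z ^ 12 = (z ^ 2) ^ 6 := by ring
      _ = 1 := by rw [h1, one_pow]
  exact pow12_of_both hco (key _ (pow_ne_zero _ hα) hk) (key _ (pow_ne_zero _ hα) hm)

theorem case_big {b a : ℕ} {c e s : ℤ} (hh : Hyp b a c e s) (hc3 : 3 ≤ |c|) (K : ℝ) (hK : 0 < K)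
    (hK1 : K * 4 ≤ (c : ℝ) ^ 2) (hK2 : K * (|(c : ℝ)| + 1) ≤ (c : ℝ) ^ 2) (hK3 : K ≤ 4) :
    Aux b a c e s K 2 := by
  obtain ⟨ha, hab, hco, hc0, hs⟩ := id hh
  have hcC : (c : ℂ) ≠ 0 := by exact_mod_cast hc0
  have hcR : (c : ℝ) ≠ 0 := by exact_mod_cast hc0
  have hfin : ∀ α : ℂ, 5 / 2 ≤ big (α ^ b) ∨ α ^ 12 = 1 →
      K ≤ big (α ^ b) ^ 2 ∨ α ^ 12 = 1 := by
    rintro α (h | h)
    · left; nlinarith
    · right; exact h
  rcases hs with rfl | ⟨rfl, rfl⟩
  · obtain ⟨k, hk⟩ := exists_small c e hc0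
    by_cases hr0 : e + c * k = 0
    · have he : (e : ℂ) = -(c : ℂ) * k := by
        have h2 : e = -c * k := by linarith
        rw [h2]; push_cast; ring
      refine aux_of hh ((X - C k) ^ 2) 2 (by compute_degree) K hK ?_ ?_
      · intro w hw
        obtain ⟨σ, hσ, hw'⟩ := circ_one hw
        have h1 : aeval (-(w + ((1 : ℤ) : ℂ) * w⁻¹ + e) / c) ((X - C k) ^ 2 : ℤ[X]) =
            (((σ / c) ^ 2 : ℝ) : ℂ) := by
          simp only [map_pow, map_sub, aeval_X, eq_intCast, map_intCast]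
          push_cast
          rw [one_mul, hw', he]
          field_simp
          ring
        rw [h1, Complex.norm_real, Real.norm_eq_abs, abs_of_nonneg (by positivity), div_pow,
          ← mul_div_assoc, div_le_one (by positivity)]
        have h2 : σ ^ 2 ≤ 4 := by
          rw [← sq_abs]
          nlinarith [abs_nonneg σ]
        nlinarith
      · intro α hα h1 h2
        apply hfin
        simp only [map_pow, map_sub, aeval_X, eq_intCast, map_intCast] at h2
        have h3 := pow_eq_zero_iff (two_ne_zero) |>.1 h2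
        push_cast at h1 h3
        rw [one_mul] at h1 h3
        refine int_case (by omega) hco hα k (-e - c * k) (by linear_combination h3) ?_
        push_cast
        linear_combination h1 - (c : ℂ) * h3
    · obtain ⟨δ, hδ, hδ2⟩ : ∃ δ : ℤ, δ ^ 2 = 1 ∧ -(δ * (e + c * k) * c) = |e + c * k| * |c| := by
        rw [← abs_mul]
        rcases le_total 0 ((e + c * k) * c) with h | h
        · refine ⟨-1, by norm_num, ?_⟩
          rw [abs_of_nonneg h]; ring
        · refine ⟨1, by norm_num, ?_⟩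
          rw [abs_of_nonpos h]; ring
      refine aux_of hh ((X - C k) * (X - C k - C δ)) 2 (by compute_degree) K hK ?_ ?_
      · intro w hw
        obtain ⟨σ, hσ, hw'⟩ := circ_one hw
        have h1 : aeval (-(w + ((1 : ℤ) : ℂ) * w⁻¹ + e) / c)
            ((X - C k) * (X - C k - C δ) : ℤ[X]) =
            (((-(σ + ((e + c * k : ℤ) : ℝ)) / c) *
              (-(σ + ((e + c * k : ℤ) : ℝ)) / c - δ) : ℝ) : ℂ) := by
          simp only [map_mul, map_sub, aeval_X, eq_intCast, map_intCast]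
          push_cast
          rw [one_mul, hw']
          field_simp
          ring
        rw [h1, Complex.norm_real, Real.norm_eq_abs]
        refine real_case σ c ((e + c * k : ℤ) : ℝ) δ K hσ ?_ ?_ ?_ ?_ ?_ hK hK2 hK3
        · exact_mod_cast hc3
        · rw [← Int.cast_abs]
          have := Int.one_le_abs hr0
          exact_mod_cast this
        · have h5 : |e + c * k| + 2 ≤ |c| := by
            have := Int.one_le_abs hr0
            omega
          rw [← Int.cast_abs, ← Int.cast_abs]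
          exact_mod_cast h5
        · exact_mod_cast hδ
        · rw [← Int.cast_abs, ← Int.cast_abs]
          exact_mod_cast hδ2
      · intro α hα h1 h2
        apply hfin
        simp only [map_mul, map_sub, aeval_X, eq_intCast, map_intCast] at h2
        push_cast at h1
        rw [one_mul] at h1
        rcases mul_eq_zero.1 h2 with h3 | h3
        · push_cast at h3
          rw [one_mul] at h3
          refine int_case (by omega) hco hα k (-e - c * k) (by linear_combination h3) ?_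
          push_cast
          linear_combination h1 - (c : ℂ) * h3
        · push_cast at h3
          rw [one_mul] at h3
          refine int_case (by omega) hco hα (k + δ) (-e - c * (k + δ))
            (by push_cast; linear_combination h3) ?_
          push_cast
          linear_combination h1 - (c : ℂ) * h3
  · refine aux_of hh (X ^ 2) 2 (by compute_degree) K hK ?_ ?_
    · intro w hw
      obtain ⟨σ, hσ, hw'⟩ := circ_neg hw
      have h1 : aeval (-(w + ((-1 : ℤ) : ℂ) * w⁻¹ + ((0 : ℤ) : ℂ)) / c) (X ^ 2 : ℤ[X]) =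
          ((-(σ / c) ^ 2 : ℝ) : ℂ) := by
        simp only [map_pow, aeval_X]
        have h0 : -(w + ((-1 : ℤ) : ℂ) * w⁻¹ + ((0 : ℤ) : ℂ)) = -(w - w⁻¹) := by
          push_cast; ring
        rw [h0, hw']
        push_cast
        rw [div_pow, neg_pow, mul_pow, Complex.I_sq, div_pow]
        ring
      rw [h1, Complex.norm_real, Real.norm_eq_abs, abs_neg, abs_of_nonneg (by positivity), div_pow,
        ← mul_div_assoc, div_le_one (by positivity)]
      have h2 : σ ^ 2 ≤ 4 := by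
        rw [← sq_abs]
        nlinarith [abs_nonneg σ]
      nlinarith
    · intro α hα h1 h2
      right
      simp only [map_pow, aeval_X] at h2
      have h3 := pow_eq_zero_iff (two_ne_zero) |>.1 h2
      push_cast at h1 h3
      refine neg_case hco hα (by linear_combination h3) ?_
      linear_combination h1 - (c : ℂ) * h3

theorem case_even {b a : ℕ} {c e s : ℤ} (hh : Hyp b a c e s) (hc2 : |c| = 2) (he : Even e) :
    Aux b a c e s 4 4 := by
  obtain ⟨ha, hab, hco, hc0, hs⟩ := id hh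
  have hcC : (c : ℂ) ≠ 0 := by exact_mod_cast hc0
  have hcR : (c : ℝ) ≠ 0 := by exact_mod_cast hc0
  have hc4 : c ^ 2 = 4 := by rw [← sq_abs, hc2]; norm_num
  have hc4R : (c : ℝ) ^ 2 = 4 := by exact_mod_cast hc4
  have hc4C : (c : ℂ) ^ 2 = 4 := by exact_mod_cast hc4
  have hfin : ∀ α : ℂ, 5 / 2 ≤ big (α ^ b) ∨ α ^ 12 = 1 →
      4 ≤ big (α ^ b) ^ 4 ∨ α ^ 12 = 1 := by
    rintro α (h | h)
    · left
      calc (4 : ℝ) ≤ (5 / 2) ^ 4 := by norm_num
        _ ≤ big (α ^ b) ^ 4 := pow_le_pow_left₀ (by norm_num) h 4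
    · right; exact h
  have hineq : ∀ x : ℝ, x ^ 2 ≤ 1 → 4 * |x ^ 2 * (x ^ 2 - 1)| ≤ 1 := by
    intro x hx
    rw [abs_mul, abs_of_nonneg (sq_nonneg x), abs_of_nonpos (by linarith)]
    nlinarith [sq_nonneg (2 * x ^ 2 - 1)]
  have hxs : ∀ σ : ℝ, |σ| ≤ 2 → (σ / c) ^ 2 ≤ 1 := by
    intro σ hσ
    rw [div_pow, hc4R, div_le_one (by norm_num), ← sq_abs]
    nlinarith [abs_nonneg σ]
  rcases hs with rfl | ⟨rfl, rfl⟩
  · obtain ⟨k, hk⟩ := exists_small c e hc0
    have hr0 : e + c * k = 0 := by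
      have h1 : Even (e + c * k) := by
        have h2 : Even c := by
          rcases abs_eq (by norm_num : (0 : ℤ) ≤ 2) |>.1 hc2 with h | h
          · rw [h]; exact even_two
          · rw [h]; exact even_two.neg
        exact he.add (h2.mul_right k)
      obtain ⟨z, hz⟩ := h1
      rw [hc2] at hk
      rcases abs_le.1 (show |e + c * k| ≤ 1 by omega) with ⟨h3, h4⟩
      omega
    have he' : (e : ℂ) = -(c : ℂ) * k := by
      have h2 : e = -c * k := by linarith
      rw [h2]; push_cast; ring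
    refine aux_of hh ((X - C k) ^ 2 * ((X - C k) ^ 2 - 1)) 4 (by compute_degree) 4
      (by norm_num) ?_ ?_
    · intro w hw
      obtain ⟨σ, hσ, hw'⟩ := circ_one hw
      have h1 : aeval (-(w + ((1 : ℤ) : ℂ) * w⁻¹ + e) / c)
          ((X - C k) ^ 2 * ((X - C k) ^ 2 - 1) : ℤ[X]) =
          (((σ / c) ^ 2 * ((σ / c) ^ 2 - 1) : ℝ) : ℂ) := by
        simp only [map_mul, map_pow, map_sub, aeval_X, eq_intCast, map_intCast, map_one]
        push_cast
        rw [one_mul, hw', he']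
        field_simp
        ring
      rw [h1, Complex.norm_real, Real.norm_eq_abs]
      exact hineq _ (hxs σ hσ)
    · intro α hα h1 h2
      apply hfin
      simp only [map_mul, map_pow, map_sub, aeval_X, eq_intCast, map_intCast, map_one] at h2
      push_cast at h1 h2
      rw [one_mul] at h1 h2
      rcases mul_eq_zero.1 h2 with h3 | h3
      · have h4 := pow_eq_zero_iff (two_ne_zero) |>.1 h3
        refine int_case (by omega) hco hα k (-e - c * k) (by linear_combination h4) ?_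
        push_cast
        linear_combination h1 - (c : ℂ) * h4
      · have h4 : (α ^ a + (α ^ a)⁻¹ - k - 1) * (α ^ a + (α ^ a)⁻¹ - k + 1) = 0 := by
          linear_combination h3
        rcases mul_eq_zero.1 h4 with h5 | h5
        · refine int_case (by omega) hco hα (k + 1) (-e - c * (k + 1))
            (by push_cast; linear_combination h5) ?_
          push_cast
          linear_combination h1 - (c : ℂ) * h5
        · refine int_case (by omega) hco hα (k - 1) (-e - c * (k - 1))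
            (by push_cast; linear_combination h5) ?_
          push_cast
          linear_combination h1 - (c : ℂ) * h5
  · refine aux_of hh (X ^ 2 * (X ^ 2 + 1)) 4 (by compute_degree) 4 (by norm_num) ?_ ?_
    · intro w hw
      obtain ⟨σ, hσ, hw'⟩ := circ_neg hw
      have h1 : aeval (-(w + ((-1 : ℤ) : ℂ) * w⁻¹ + ((0 : ℤ) : ℂ)) / c)
          (X ^ 2 * (X ^ 2 + 1) : ℤ[X]) =
          (((σ / c) ^ 2 * ((σ / c) ^ 2 - 1) : ℝ) : ℂ) := by
        simp only [map_pow, map_mul, map_add, map_one, aeval_X]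
        have h0 : -(w + ((-1 : ℤ) : ℂ) * w⁻¹ + ((0 : ℤ) : ℂ)) = -(w - w⁻¹) := by
          push_cast; ring
        rw [h0, hw']
        push_cast
        have h5 : (-((σ : ℂ) * Complex.I) / c) ^ 2 = -((σ : ℂ) / c) ^ 2 := by
          rw [div_pow, neg_pow, mul_pow, Complex.I_sq, div_pow]
          ring
        rw [h5]
        ring
      rw [h1, Complex.norm_real, Real.norm_eq_abs]
      exact hineq _ (hxs σ hσ)
    · intro α hα h1 h2
      right
      simp only [map_mul, map_pow, map_add, aeval_X, map_one] at h2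
      push_cast at h1 h2
      have hX : α ^ b ≠ 0 := pow_ne_zero _ hα
      have hY : α ^ a ≠ 0 := pow_ne_zero _ hα
      rcases mul_eq_zero.1 h2 with h3 | h3
      · have h4 := pow_eq_zero_iff (two_ne_zero) |>.1 h3
        refine neg_case hco hα (by linear_combination h4) ?_
        linear_combination h1 - (c : ℂ) * h4
      · -- `τ ^ 2 = -1`
        set Y := α ^ a with hYdef
        set X' := α ^ b with hXdef
        have e1 : Y * Y⁻¹ = 1 := mul_inv_cancel₀ hY
        have e2 : X' * X'⁻¹ = 1 := mul_inv_cancel₀ hX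
        have h5 : Y ^ 4 - Y ^ 2 + 1 = 0 := by
          have h6 : Y ^ 2 * ((Y + -1 * Y⁻¹) ^ 2 + 1) = 0 := by rw [h3, mul_zero]
          linear_combination h6 + (2 * Y ^ 2 - Y * Y⁻¹ - 1) * e1
        have h7 : Y ^ 12 = 1 := by
          have h8 : Y ^ 6 = -1 := by linear_combination (Y ^ 2 + 1) * h5
          calc Y ^ 12 = (Y ^ 6) ^ 2 := by ring
            _ = 1 := by rw [h8]; norm_num
        have h9 : X' ^ 4 + 2 * X' ^ 2 + 1 = 0 := by
          have h10 : (X' + -1 * X'⁻¹) ^ 2 = -4 := by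
            have h11 : X' + -1 * X'⁻¹ = -(c * (Y + -1 * Y⁻¹)) := by linear_combination h1
            rw [h11]
            linear_combination (Y + -1 * Y⁻¹) ^ 2 * hc4C + 4 * h3
          have h12 : X' ^ 2 * ((X' + -1 * X'⁻¹) ^ 2 + 4) = 0 := by rw [h10]; ring
          linear_combination h12 + (2 * X' ^ 2 - X' * X'⁻¹ - 1) * e2
        have h13 : X' ^ 2 = -1 := by
          have h14 : (X' ^ 2 + 1) ^ 2 = 0 := by linear_combination h9
          have h15 := pow_eq_zero_iff (two_ne_zero) |>.1 h14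
          linear_combination h15
        have h16 : X' ^ 12 = 1 := by
          calc X' ^ 12 = (X' ^ 2) ^ 6 := by ring
            _ = 1 := by rw [h13]; norm_num
        exact pow12_of_both hco h7 h16

theorem case_odd {b a : ℕ} {c e s : ℤ} (hh : Hyp b a c e s) (hc2 : |c| = 2) (he : ¬ Even e) :
    Aux b a c e s (27 / 4) 6 := by
  obtain ⟨ha, hab, hco, hc0, hs⟩ := id hh
  have hcC : (c : ℂ) ≠ 0 := by exact_mod_cast hc0
  have hcR : (c : ℝ) ≠ 0 := by exact_mod_cast hc0
  rcases hs with rfl | ⟨rfl, rfl⟩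
  swap
  · exact absurd (by norm_num) he
  -- `δ` and `k`
  obtain ⟨δ, hδ, hcδ⟩ : ∃ δ : ℤ, δ ^ 2 = 1 ∧ c = -2 * δ := by
    rcases abs_eq (by norm_num : (0 : ℤ) ≤ 2) |>.1 hc2 with h | h
    · exact ⟨-1, by norm_num, by rw [h]; norm_num⟩
    · exact ⟨1, by norm_num, by rw [h]; norm_num⟩
  obtain ⟨k, hk⟩ : ∃ k : ℤ, e + c * k = 1 := by
    obtain ⟨z, hz⟩ := Int.not_even_iff_odd.1 he
    refine ⟨δ * z, ?_⟩
    rw [hz, hcδ]
    linear_combination (-2 * z) * hδ
  have he' : (e : ℂ) = 1 - (c : ℂ) * k := by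
    have h2 : e = 1 - c * k := by linarith
    rw [h2]; push_cast; ring
  have hδC : (δ : ℂ) ^ 2 = 1 := by exact_mod_cast hδ
  have hcδC : (c : ℂ) = -2 * δ := by rw [hcδ]; push_cast; ring
  have hδ0 : (δ : ℂ) ≠ 0 := by
    intro h
    rw [h] at hδC
    norm_num at hδC
  refine aux_of hh (((X - C k) * (X - C k - C δ)) ^ 2 * ((X - C k) * (X - C k - C δ) - 1)) 6
    (by compute_degree) (27 / 4) (by norm_num) ?_ ?_
  · intro w hw
    obtain ⟨σ, hσ, hw'⟩ := circ_one hw
    have h0 : (-(w + ((1 : ℤ) : ℂ) * w⁻¹ + e) / c - k) * (-(w + ((1 : ℤ) : ℂ) * w⁻¹ + e) / c - k - δ)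
        = (((σ ^ 2 - 1) / 4 : ℝ) : ℂ) := by
      push_cast
      rw [one_mul, hw', he']
      have h3 : -((σ : ℂ) + (1 - c * k)) / c - k = (σ + 1) * δ / 2 := by
        rw [hcδC]
        field_simp
        linear_combination (-(σ : ℂ) - 1) * hδC
      rw [h3]
      linear_combination ((σ : ℂ) ^ 2 - 1) / 4 * hδC
    have h1 : aeval (-(w + ((1 : ℤ) : ℂ) * w⁻¹ + e) / c)
        (((X - C k) * (X - C k - C δ)) ^ 2 * ((X - C k) * (X - C k - C δ) - 1) : ℤ[X]) =
        ((((σ ^ 2 - 1) / 4) ^ 2 * ((σ ^ 2 - 1) / 4 - 1) : ℝ) : ℂ) := by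
      simp only [map_mul, map_pow, map_sub, aeval_X, eq_intCast, map_intCast, map_one]
      rw [h0]
      push_cast
      ring
    rw [h1, Complex.norm_real, Real.norm_eq_abs]
    have h2 : σ ^ 2 ≤ 4 := by
      rw [← sq_abs]
      nlinarith [abs_nonneg σ]
    set y := (σ ^ 2 - 1) / 4 with hy
    have hy1 : -1 / 4 ≤ y := by rw [hy]; nlinarith [sq_nonneg σ]
    have hy2 : y ≤ 3 / 4 := by rw [hy]; linarith
    rw [abs_mul, abs_of_nonneg (sq_nonneg y), abs_of_nonpos (by linarith)]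
    nlinarith [mul_nonneg (sq_nonneg (3 * y - 2)) (by linarith : (0 : ℝ) ≤ 3 * y + 1)]
  · intro α hα h1 h2
    simp only [map_mul, map_pow, map_sub, aeval_X, eq_intCast, map_intCast, map_one] at h2
    push_cast at h1 h2
    rw [one_mul] at h1 h2
    have hfin : 5 / 2 ≤ big (α ^ b) ∨ α ^ 12 = 1 → 27 / 4 ≤ big (α ^ b) ^ 6 ∨ α ^ 12 = 1 := by
      rintro (h | h)
      · left
        calc (27 / 4 : ℝ) ≤ (5 / 2) ^ 6 := by norm_num
          _ ≤ big (α ^ b) ^ 6 := pow_le_pow_left₀ (by norm_num) h 6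
      · right; exact h
    rcases mul_eq_zero.1 h2 with h3 | h3
    · have h4 := pow_eq_zero_iff (two_ne_zero) |>.1 h3
      apply hfin
      rcases mul_eq_zero.1 h4 with h5 | h5
      · refine int_case (by omega) hco hα k (-e - c * k) (by linear_combination h5) ?_
        push_cast
        linear_combination h1 - (c : ℂ) * h5
      · refine int_case (by omega) hco hα (k + δ) (-e - c * (k + δ))
          (by push_cast; linear_combination h5) ?_
        push_cast
        linear_combination h1 - (c : ℂ) * h5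
    · left
      -- `(X + 1 / X) ^ 2 = 5`
      have h4 : (α ^ b + (α ^ b)⁻¹) ^ 2 = 5 := by
        set τ := α ^ a + (α ^ a)⁻¹ with hτ
        have h5 : α ^ b + (α ^ b)⁻¹ = -1 - c * (τ - k) := by
          linear_combination h1 - he'
        rw [h5, hcδC]
        linear_combination (4 * (τ - k) ^ 2) * hδC + 4 * h3
      have h6 : ‖α ^ b + (α ^ b)⁻¹‖ ^ 2 = 5 := by
        rw [← norm_pow, h4]
        norm_num
      have h7 : 3 / 2 ≤ big (α ^ b) := by
        refine big_ge (pow_ne_zero _ hα) _ (by norm_num) ?_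
        have h8 := norm_add_le (α ^ b) (α ^ b)⁻¹
        rw [norm_inv] at h8
        refine le_trans ?_ h8
        by_contra hlt
        push Not at hlt
        have h9 := norm_nonneg (α ^ b + (α ^ b)⁻¹)
        have h10 : (3 / 2 + (3 / 2 : ℝ)⁻¹) ^ 2 < 5 := by norm_num
        nlinarith
      calc (27 / 4 : ℝ) ≤ (3 / 2) ^ 6 := by norm_num
        _ ≤ big (α ^ b) ^ 6 := pow_le_pow_left₀ (by norm_num) h7 6

end AuxA_

open AuxA_ in
theorem auxA : S_AuxA := by
  intro b a c e s hh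
  refine ⟨fun hc => ?_, fun hc => ?_, fun hc he => case_even hh hc he,
    fun hc he => case_odd hh hc he⟩
  · have h1 : (4 : ℝ) ≤ |(c : ℝ)| := by exact_mod_cast hc
    have h2 : |(c : ℝ)| ^ 2 = (c : ℝ) ^ 2 := sq_abs _
    refine case_big hh (by omega) _ (by norm_num) ?_ ?_ (by norm_num)
    · nlinarith
    · nlinarith
  · have h1 : |(c : ℝ)| = 3 := by exact_mod_cast hc
    have h2 : |(c : ℝ)| ^ 2 = (c : ℝ) ^ 2 := sq_abs _
    refine case_big hh (by omega) _ (by norm_num) ?_ ?_ (by norm_num)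
    · rw [← h2, h1]; norm_num
    · rw [← h2, h1]; norm_num

end Pool.Agent.H589.Five
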