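import Pool.Agent.H589.Five.Spec

set_option autoImplicit false

open Polynomial Pool.Agent.H589.Pent

namespace Pool.Agent.H589.Five

namespace auxB_

lemma big_ge_one {w : ℂ} (hw : w ≠ 0) : 1 ≤ big w := by
  have h0 : 0 < ‖w‖ := norm_pos_iff.2 hw
  unfold big
  rcases le_total 1 ‖w‖ with h | h
  · exact le_max_of_le_left h
  · exact le_max_of_le_right ((one_le_inv₀ h0).2 h)

lemma big_add_inv {w : ℂ} (hw : w ≠ 0) : big w + (big w)⁻¹ = ‖w‖ + ‖w‖⁻¹ := by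
  have h0 : 0 < ‖w‖ := norm_pos_iff.2 hw
  unfold big
  rcases le_total 1 ‖w‖ with h | h
  · rw [max_eq_left]
    exact (inv_le_one_of_one_le₀ h).trans h
  · rw [max_eq_right, inv_inv, add_comm]
    exact h.trans ((one_le_inv₀ h0).2 h)

lemma big_pow (w : ℂ) (n : ℕ) : big (w ^ n) = big w ^ n := by
  have h0 : 0 ≤ ‖w‖ := norm_nonneg w
  have h1 : 0 ≤ ‖w‖⁻¹ := inv_nonneg.2 h0
  unfold big
  rw [norm_pow, ← inv_pow]
  rcases le_total ‖w‖ ‖w‖⁻¹ with h | h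
  · rw [max_eq_right h, max_eq_right (pow_le_pow_left₀ h0 h n)]
  · rw [max_eq_left h, max_eq_left (pow_le_pow_left₀ h1 h n)]

lemma add_inv_mono {r s : ℝ} (h1 : 1 ≤ r) (h2 : r ≤ s) : r + r⁻¹ ≤ s + s⁻¹ := by
  have hr : 0 < r := by linarith
  have hs : 0 < s := by linarith
  have h : s + s⁻¹ - (r + r⁻¹) = (s - r) * (r * s - 1) / (r * s) := by
    field_simp
    ring
  have h3 : 0 ≤ (s - r) * (r * s - 1) / (r * s) := by
    apply div_nonneg _ (mul_pos hr hs).le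
    apply mul_nonneg (by linarith)
    nlinarith
  linarith

lemma two_le {r : ℝ} (h1 : 1 ≤ r) : 2 ≤ r + r⁻¹ := by
  have := add_inv_mono le_rfl h1
  norm_num at this
  linarith

lemma sum_norm {w : ℂ} (hw : w ≠ 0) :
    ‖w + w⁻¹ - 2‖ + ‖w + w⁻¹ + 2‖ = 2 * (‖w‖ + ‖w‖⁻¹) := by
  have h0 : 0 < ‖w‖ := norm_pos_iff.2 hw
  have e1 : w + w⁻¹ - 2 = (w - 1) ^ 2 / w := by
    field_simp
    ring
  have e2 : w + w⁻¹ + 2 = (w + 1) ^ 2 / w := by
    field_simp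
    ring
  have h := parallelogram_law_with_norm ℝ w 1
  rw [e1, e2, norm_div, norm_div, norm_pow, norm_pow]
  have h1 : ‖(1 : ℂ)‖ = 1 := norm_one
  rw [h1] at h
  have : ‖w - 1‖ ^ 2 / ‖w‖ + ‖w + 1‖ ^ 2 / ‖w‖ = (2 * (‖w‖ ^ 2 + 1 ^ 2)) / ‖w‖ := by
    rw [← h]
    ring
  rw [this]
  field_simp

lemma sign_norm (η : ℂ) (hη : η = 1 ∨ η = -1) (z : ℂ) :
    ‖η * z - 2‖ + ‖η * z + 2‖ = ‖z - 2‖ + ‖z + 2‖ := by
  rcases hη with rfl | rfl
  · rw [one_mul]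
  · have e1 : (-1 : ℂ) * z - 2 = -(z + 2) := by ring
    have e2 : (-1 : ℂ) * z + 2 = -(z - 2) := by ring
    rw [e1, e2, norm_neg, norm_neg, add_comm]

lemma sq_diff (z : ℂ) : ‖z + 2‖ ^ 2 - ‖z - 2‖ ^ 2 = 8 * z.re := by
  rw [← Complex.normSq_eq_norm_sq, ← Complex.normSq_eq_norm_sq, Complex.normSq_apply,
    Complex.normSq_apply]
  simp
  ring

/-- the ellipse bound -/
lemma ellipse {S T : ℂ} {E l : ℝ} (hS : ‖S - 2‖ + ‖S + 2‖ ≤ 2 * l)
    (hT : ‖T - 2‖ + ‖T + 2‖ ≤ 2 * l) (hST : S + T = (E : ℂ)) :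
    l * (‖S - 2‖ + ‖T - 2‖) ≤ 2 * l ^ 2 - 2 * E := by
  have h1 := sq_diff S
  have h2 := sq_diff T
  have h3 : S.re + T.re = E := by
    have := congrArg Complex.re hST
    simpa using this
  have hu := norm_nonneg (S + 2)
  have hv := norm_nonneg (T + 2)
  have h4 : ‖S + 2‖ ^ 2 ≤ (2 * l - ‖S - 2‖) ^ 2 := pow_le_pow_left₀ hu (by linarith) 2
  have h5 : ‖T + 2‖ ^ 2 ≤ (2 * l - ‖T - 2‖) ^ 2 := pow_le_pow_left₀ hv (by linarith) 2
  nlinarith

lemma norm_prod_sub_one {S T : ℂ} (h : S + T = 2) :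
    ‖S * T - 1‖ = (‖T‖ ^ 2 + ‖S‖ ^ 2) / 2 - 1 := by
  have hT : T = 2 - S := by linear_combination h
  subst hT
  have e : S * (2 - S) - 1 = -(S - 1) ^ 2 := by ring
  rw [e, norm_neg, norm_pow, ← Complex.normSq_eq_norm_sq, ← Complex.normSq_eq_norm_sq,
    ← Complex.normSq_eq_norm_sq, Complex.normSq_apply, Complex.normSq_apply, Complex.normSq_apply]
  simp
  ring

lemma root12 {w η S : ℂ} (hw : w ≠ 0) (hη : η = 1 ∨ η = -1) (hS : S = η * (w + w⁻¹))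
    (h : S = 0 ∨ S = 1 ∨ S = 2) : w ^ 12 = 1 := by
  have hq : w ^ 2 + 1 = 0 ∨ w ^ 3 = 1 ∨ w ^ 3 = -1 ∨ w = 1 ∨ w = -1 := by
    have hm : w * w⁻¹ = 1 := mul_inv_cancel₀ hw
    rcases hη with rfl | rfl
    · rcases h with h | h | h
      · left
        linear_combination (-w) * hS + w * h - hm
      · right; right; left
        have : w ^ 2 - w + 1 = 0 := by linear_combination (-w) * hS + w * h - hm
        linear_combination (w + 1) * this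
      · right; right; right; left
        have : (w - 1) ^ 2 = 0 := by linear_combination (-w) * hS + w * h - hm
        have := pow_eq_zero_iff (two_ne_zero) |>.1 this
        linear_combination this
    · rcases h with h | h | h
      · left
        linear_combination w * hS - w * h - hm
      · right; left
        have : w ^ 2 + w + 1 = 0 := by linear_combination w * hS - w * h - hm
        linear_combination (w - 1) * this
      · right; right; right; right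
        have : (w + 1) ^ 2 = 0 := by linear_combination w * hS - w * h - hm
        have := pow_eq_zero_iff (two_ne_zero) |>.1 this
        linear_combination this
  rcases hq with h | h | h | h | h
  · have h2 : w ^ 2 = -1 := by linear_combination h
    calc w ^ 12 = (w ^ 2) ^ 6 := by ring
      _ = 1 := by rw [h2]; norm_num
  · calc w ^ 12 = (w ^ 3) ^ 4 := by ring
      _ = 1 := by rw [h]; norm_num
  · calc w ^ 12 = (w ^ 3) ^ 4 := by ring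
      _ = 1 := by rw [h]; norm_num
  · rw [h]; norm_num
  · rw [h]; norm_num

lemma alpha12 {α : ℂ} {a b : ℕ} (hab : a.Coprime b) (ha : (α ^ a) ^ 12 = 1)
    (hb : (α ^ b) ^ 12 = 1) : α ^ 12 = 1 := by
  have h1 : orderOf (α ^ 12) ∣ a := orderOf_dvd_of_pow_eq_one (by rw [← ha]; ring)
  have h2 : orderOf (α ^ 12) ∣ b := orderOf_dvd_of_pow_eq_one (by rw [← hb]; ring)
  have h3 : orderOf (α ^ 12) ∣ 1 := by
    have := Nat.dvd_gcd h1 h2
    rwa [hab] at this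
  exact orderOf_eq_one_iff.1 (Nat.dvd_one.1 h3)

/-- polynomial inequality for `|e| = 2` -/
lemma ineq2 {r : ℝ} (h : 1 ≤ r) :
    (2 * (r ^ 2 + 1) ^ 4 - 9 * r ^ 2 * (r ^ 2 + 1) ^ 2 + 8 * r ^ 4) ^ 2 ≤
      r ^ 9 * (r ^ 2 + 1) ^ 4 := by
  obtain ⟨z, rfl⟩ : ∃ z, r = 1 + z := ⟨r - 1, by ring⟩
  have hz : 0 ≤ z := by linarith
  have : (1 + z) ^ 9 * ((1 + z) ^ 2 + 1) ^ 4 -
      (2 * ((1 + z) ^ 2 + 1) ^ 4 - 9 * (1 + z) ^ 2 * ((1 + z) ^ 2 + 1) ^ 2 + 8 * (1 + z) ^ 4) ^ 2 =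
      80 * z + 608 * z ^ 2 + 2496 * z ^ 3 + 6656 * z ^ 4 + 12584 * z ^ 5 + 17584 * z ^ 6 +
      18528 * z ^ 7 + 14864 * z ^ 8 + 9189 * z ^ 9 + 4606 * z ^ 10 + 2184 * z ^ 11 +
      1161 * z ^ 12 + 622 * z ^ 13 + 264 * z ^ 14 + 76 * z ^ 15 + 13 * z ^ 16 + z ^ 17 := by ring
  have h2 : 0 ≤ 80 * z + 608 * z ^ 2 + 2496 * z ^ 3 + 6656 * z ^ 4 + 12584 * z ^ 5 +
      17584 * z ^ 6 + 18528 * z ^ 7 + 14864 * z ^ 8 + 9189 * z ^ 9 + 4606 * z ^ 10 +
      2184 * z ^ 11 + 1161 * z ^ 12 + 622 * z ^ 13 + 264 * z ^ 14 + 76 * z ^ 15 + 13 * z ^ 16 +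
      z ^ 17 := by positivity
  linarith

/-- polynomial inequality for `|e| = 3` -/
lemma ineq3 {r : ℝ} (h : 1 ≤ r) :
    (2 * (r ^ 2 + 1) ^ 2 - 6 * r ^ 2) ^ 2 ≤ r ^ 5 * (r ^ 2 + 1) ^ 2 := by
  obtain ⟨z, rfl⟩ : ∃ z, r = 1 + z := ⟨r - 1, by ring⟩
  have hz : 0 ≤ z := by linarith
  have h1 : (1 + z) ^ 5 * ((1 + z) ^ 2 + 1) ^ 2 -
      (2 * ((1 + z) ^ 2 + 1) ^ 2 - 6 * (1 + z) ^ 2) ^ 2 =
      12 * z + 32 * z ^ 2 + 52 * z ^ 3 + z ^ 4 * (5 * (z ^ 2 - 1) ^ 2 + 6 * z ^ 3 +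
        4 * (z - 7 / 8) ^ 2 + 335 / 16) + z ^ 9 := by ring
  have h2 : 0 ≤ 12 * z + 32 * z ^ 2 + 52 * z ^ 3 + z ^ 4 * (5 * (z ^ 2 - 1) ^ 2 + 6 * z ^ 3 +
        4 * (z - 7 / 8) ^ 2 + 335 / 16) + z ^ 9 := by positivity
  linarith

lemma zero_eq {b a : ℕ} {c e : ℤ} (hab : a < b) {α : ℂ} (hα : α ≠ 0)
    (h : aeval α (quint b a c e 1) = 0) :
    (α ^ b + (α ^ b)⁻¹) + c * (α ^ a + (α ^ a)⁻¹) + e = 0 := by
  obtain ⟨k, rfl⟩ : ∃ k, b = a + k := ⟨b - a, by omega⟩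
  have hk : a + k - a = k := by omega
  simp only [quint, map_add, map_mul, map_pow, aeval_X, aeval_C, hk, one_mul, map_one] at h
  have ha : α ^ a ≠ 0 := pow_ne_zero _ hα
  have hkk : α ^ k ≠ 0 := pow_ne_zero _ hα
  have hx : α ^ (a + k) = α ^ a * α ^ k := pow_add _ _ _
  have h2 : α ^ (2 * (a + k)) = (α ^ a * α ^ k) ^ 2 := by rw [← hx, ← pow_mul, mul_comm]
  have h3 : α ^ (a + k + a) = α ^ a * α ^ k * α ^ a := by rw [pow_add, hx]
  rw [h2, h3, hx] at h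
  rw [hx]
  simp only [algebraMap_int_eq, eq_intCast] at h
  field_simp
  linear_combination h

/-- everything which is known at a zero -/
lemma core {b a : ℕ} {c e : ℤ} (hH : Hyp b a c e 1) (hc : |c| = 1) {α : ℂ} (hα : α ≠ 0)
    (h : aeval α (quint b a c e 1) = 0) :
    ∃ (S T : ℂ) (l : ℝ), l = big (α ^ b) + (big (α ^ b))⁻¹ ∧ 1 ≤ big (α ^ b) ∧
      ‖S - 2‖ + ‖S + 2‖ ≤ 2 * l ∧ ‖T - 2‖ + ‖T + 2‖ ≤ 2 * l ∧ S + T = ((|e| : ℤ) : ℂ) ∧
      S * T = -((α ^ a + (α ^ a)⁻¹) ^ 2 + c * e * (α ^ a + (α ^ a)⁻¹)) ∧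
      ((S = 0 ∨ S = 1 ∨ S = 2) → (T = 0 ∨ T = 1 ∨ T = 2) → α ^ 12 = 1) := by
  obtain ⟨h1, hab, hcop, hc0, -⟩ := hH
  have hz := zero_eq hab hα h
  have hx : α ^ b ≠ 0 := pow_ne_zero _ hα
  have hy : α ^ a ≠ 0 := pow_ne_zero _ hα
  obtain ⟨η, hη, hηe⟩ : ∃ η : ℤ, (η = 1 ∨ η = -1) ∧ η * e = -|e| := by
    rcases le_total 0 e with h | h
    · exact ⟨-1, Or.inr rfl, by rw [abs_of_nonneg h]; ring⟩
    · exact ⟨1, Or.inl rfl, by rw [abs_of_nonpos h]; ring⟩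
  have hηC : (η : ℂ) = 1 ∨ (η : ℂ) = -1 := by
    rcases hη with rfl | rfl
    · left; norm_num
    · right; norm_num
  have hc1 : c = 1 ∨ c = -1 := by
    rcases abs_eq (by norm_num : (0 : ℤ) ≤ 1) |>.1 hc with h | h
    · exact Or.inl h
    · exact Or.inr h
  have hcC : (c : ℂ) = 1 ∨ (c : ℂ) = -1 := by
    rcases hc1 with rfl | rfl
    · left; norm_num
    · right; norm_num
  have hθ : (η : ℂ) * c = 1 ∨ (η : ℂ) * c = -1 := by
    rcases hηC with h | h <;> rcases hcC with h' | h' <;> rw [h, h'] <;> norm_num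
  have hη2 : (η : ℂ) * η = 1 := by rcases hηC with h | h <;> rw [h] <;> norm_num
  have hc2 : (c : ℂ) * c = 1 := by rcases hcC with h | h <;> rw [h] <;> norm_num
  have hηe' : (η : ℂ) * e = -((|e| : ℤ) : ℂ) := by exact_mod_cast hηe
  refine ⟨η * (α ^ b + (α ^ b)⁻¹), (η * c) * (α ^ a + (α ^ a)⁻¹), _, rfl, big_ge_one hx,
    ?_, ?_, ?_, ?_, ?_⟩
  · rw [sign_norm _ hηC, sum_norm hx, big_add_inv hx]
  · rw [sign_norm _ hθ, sum_norm hy, ← big_add_inv hy, big_pow, big_pow]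
    have h2 : big α ^ a ≤ big α ^ b := pow_le_pow_right₀ (big_ge_one hα) hab.le
    have := add_inv_mono (one_le_pow₀ (big_ge_one hα)) h2
    linarith
  · linear_combination (η : ℂ) * hz - hηe'
  · have hS : (η : ℂ) * (α ^ b + (α ^ b)⁻¹) =
        -((η : ℂ) * (c * (α ^ a + (α ^ a)⁻¹)) + η * e) := by linear_combination (η : ℂ) * hz
    rw [hS]
    linear_combination (-(c * (α ^ a + (α ^ a)⁻¹) + e) * c * (α ^ a + (α ^ a)⁻¹)) * hη2 -
      (α ^ a + (α ^ a)⁻¹) ^ 2 * hc2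
  · intro h1 h2
    exact alpha12 hcop (root12 hy hθ rfl h2) (root12 hx hηC rfl h1)

lemma l_ineq2 {r : ℝ} (h : 1 ≤ r) :
    (2 * (r + r⁻¹) ^ 4 - 9 * (r + r⁻¹) ^ 2 + 8) ^ 2 ≤ r ^ 5 * (r + r⁻¹) ^ 4 := by
  have hr : 0 < r := by linarith
  have e : r + r⁻¹ = (r ^ 2 + 1) / r := by field_simp
  have h1 := ineq2 h
  have e1 : (2 * (r + r⁻¹) ^ 4 - 9 * (r + r⁻¹) ^ 2 + 8) ^ 2 =
      (2 * (r ^ 2 + 1) ^ 4 - 9 * r ^ 2 * (r ^ 2 + 1) ^ 2 + 8 * r ^ 4) ^ 2 / r ^ 8 := by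
    rw [e]
    field_simp
  have e2 : r ^ 5 * (r + r⁻¹) ^ 4 = r ^ 9 * (r ^ 2 + 1) ^ 4 / r ^ 8 := by
    rw [e]
    field_simp
  rw [e1, e2]
  exact div_le_div_of_nonneg_right h1 (by positivity)

lemma l_ineq3 {r : ℝ} (h : 1 ≤ r) :
    (2 * (r + r⁻¹) ^ 2 - 6) ^ 2 ≤ r ^ 3 * (r + r⁻¹) ^ 2 := by
  have hr : 0 < r := by linarith
  have e : r + r⁻¹ = (r ^ 2 + 1) / r := by field_simp
  have h1 := ineq3 h
  have e1 : (2 * (r + r⁻¹) ^ 2 - 6) ^ 2 = (2 * (r ^ 2 + 1) ^ 2 - 6 * r ^ 2) ^ 2 / r ^ 4 := by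
    rw [e]
    field_simp
  have e2 : r ^ 3 * (r + r⁻¹) ^ 2 = r ^ 5 * (r ^ 2 + 1) ^ 2 / r ^ 4 := by
    rw [e]
    field_simp
  rw [e1, e2]
  exact div_le_div_of_nonneg_right h1 (by positivity)

/-- the estimate for `|e| = 2` -/
lemma est2 {S T : ℂ} {l r : ℝ} (hl : l = r + r⁻¹) (hr : 1 ≤ r) (hS : ‖S - 2‖ + ‖S + 2‖ ≤ 2 * l)
    (hT : ‖T - 2‖ + ‖T + 2‖ ≤ 2 * l) (hST : S + T = 2) :
    4 * (‖S * T‖ * ‖S * T - 1‖) ≤ r ^ 5 := by
  have h1 := ellipse (E := 2) hS hT (by rw [hST]; norm_num)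
  have h2 : 2 ≤ l := hl ▸ two_le hr
  have e1 : ‖S - 2‖ = ‖T‖ := by
    rw [show S - 2 = -T by linear_combination hST, norm_neg]
  have e2 : ‖T - 2‖ = ‖S‖ := by
    rw [show T - 2 = -S by linear_combination hST, norm_neg]
  rw [e1, e2] at h1
  rw [norm_prod_sub_one hST, norm_mul]
  have h3 : 2 ≤ ‖T‖ + ‖S‖ := by
    have := norm_add_le S T
    rw [hST] at this
    simp at this
    linarith
  have h4 := l_ineq2 hr
  rw [← hl] at h4
  have hp := norm_nonneg S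
  have hq := norm_nonneg T
  generalize ‖S‖ = p at *
  generalize ‖T‖ = q at *
  have h5 : 4 * (p * q * ((q ^ 2 + p ^ 2) / 2 - 1)) ≤ ((q + p) ^ 2 - 2) ^ 2 / 4 := by
    nlinarith [sq_nonneg (((q + p) ^ 2 - 2) / 2 - 2 * (p * q))]
  have h6 : l ^ 2 * ((q + p) ^ 2 - 2) ≤ 2 * (2 * l ^ 4 - 9 * l ^ 2 + 8) := by
    have : (l * (q + p)) ^ 2 ≤ (2 * l ^ 2 - 2 * 2) ^ 2 :=
      pow_le_pow_left₀ (by positivity) h1 2
    nlinarith
  have h7 : 0 ≤ (q + p) ^ 2 - 2 := by nlinarith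
  have h8 : (l ^ 2 * ((q + p) ^ 2 - 2)) ^ 2 ≤ (2 * (2 * l ^ 4 - 9 * l ^ 2 + 8)) ^ 2 :=
    pow_le_pow_left₀ (by positivity) h6 2
  have h9 : l ^ 4 * (((q + p) ^ 2 - 2) ^ 2) ≤ l ^ 4 * (4 * r ^ 5) := by nlinarith
  have h10 : ((q + p) ^ 2 - 2) ^ 2 ≤ 4 * r ^ 5 := le_of_mul_le_mul_left h9 (by positivity)
  linarith

/-- the estimate for `|e| = 3` and `|e| = 4` -/
lemma est3 {S T : ℂ} {l r E : ℝ} (hl : l = r + r⁻¹) (hr : 1 ≤ r)
    (hS : ‖S - 2‖ + ‖S + 2‖ ≤ 2 * l) (hT : ‖T - 2‖ + ‖T + 2‖ ≤ 2 * l) (hE : 3 ≤ E)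
    (hST : S + T = (E : ℂ)) : 4 * ‖(S - 2) * (T - 2)‖ ≤ r ^ 3 := by
  have h1 := ellipse hS hT hST
  have h2 : 2 ≤ l := hl ▸ two_le hr
  rw [norm_mul]
  have h4 := l_ineq3 hr
  rw [← hl] at h4
  have hp := norm_nonneg (S - 2)
  have hq := norm_nonneg (T - 2)
  generalize ‖S - 2‖ = p at *
  generalize ‖T - 2‖ = q at *
  have h5 : 4 * (p * q) ≤ (p + q) ^ 2 := by nlinarith [sq_nonneg (p - q)]
  have h6 : (l * (p + q)) ^ 2 ≤ (2 * l ^ 2 - 6) ^ 2 :=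
    pow_le_pow_left₀ (by positivity) (by linarith) 2
  have h9 : l ^ 2 * (p + q) ^ 2 ≤ l ^ 2 * r ^ 3 := by nlinarith
  have h10 : (p + q) ^ 2 ≤ r ^ 3 := le_of_mul_le_mul_left h9 (by positivity)
  linarith

lemma est5 {S T : ℂ} {l r E : ℝ} (hl : l = r + r⁻¹) (hr : 1 ≤ r)
    (hS : ‖S - 2‖ + ‖S + 2‖ ≤ 2 * l) (hT : ‖T - 2‖ + ‖T + 2‖ ≤ 2 * l) (hE : 5 ≤ E)
    (hST : S + T = (E : ℂ)) : 2 ≤ r := by
  have h1 : 2 * ‖S‖ ≤ ‖S - 2‖ + ‖S + 2‖ := by
    have := norm_add_le (S - 2) (S + 2)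
    rw [show S - 2 + (S + 2) = 2 * S by ring, norm_mul] at this
    simpa using this
  have h2 : 2 * ‖T‖ ≤ ‖T - 2‖ + ‖T + 2‖ := by
    have := norm_add_le (T - 2) (T + 2)
    rw [show T - 2 + (T + 2) = 2 * T by ring, norm_mul] at this
    simpa using this
  have h3 : E ≤ ‖S‖ + ‖T‖ := by
    have := norm_add_le S T
    rw [hST, Complex.norm_real, Real.norm_of_nonneg (by linarith)] at this
    exact this
  have h4 : 5 / 2 ≤ l := by linarith
  by_contra hcon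
  push Not at hcon
  have h5 : r + r⁻¹ ≤ 2 + 2⁻¹ := add_inv_mono hr hcon.le
  have h6 : r⁻¹ * r = 1 := inv_mul_cancel₀ (by linarith)
  rw [hl] at h4
  have h7 : r * (r + r⁻¹) = r ^ 2 + 1 := by linear_combination h6
  nlinarith

lemma aeval_int (z : ℂ) (n : ℤ) : aeval z (C n : ℤ[X]) = (n : ℂ) := by
  rw [aeval_C]
  simp

/-- the solutions of `S + T = s`, `S T = p` in the critical cases -/
lemma crit {S T : ℂ} {u v : ℂ} (h1 : S + T = u + v) (h2 : S * T = u * v) :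
    (S = u ∧ T = v) ∨ (S = v ∧ T = u) := by
  have h3 : (S - u) * (S - v) = 0 := by linear_combination (S) * h1 - h2
  rcases mul_eq_zero.1 h3 with h | h
  · left
    have : S = u := by linear_combination h
    exact ⟨this, by linear_combination h1 - this⟩
  · right
    have : S = v := by linear_combination h
    exact ⟨this, by linear_combination h1 - this⟩

end auxB_

open auxB_ in
theorem auxB : S_AuxB := by
  intro b a c e hH hc
  refine ⟨fun he => ?_, fun he => ?_, fun he => ?_⟩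
  · refine ⟨(X ^ 2 + C (c * e) * X) * (X ^ 2 + C (c * e) * X + 1), fun α hα h => ?_⟩
    obtain ⟨S, T, l, hl, hr, hS, hT, hST, hprod, h12⟩ := core hH hc hα h
    rw [he] at hST
    have hST' : S + T = 2 := by rw [hST]; norm_num
    have hQ : aeval (α ^ a + ((1 : ℤ) : ℂ) * (α ^ a)⁻¹)
        ((X ^ 2 + C (c * e) * X) * (X ^ 2 + C (c * e) * X + 1) : ℤ[X]) =
        (S * T) * (S * T - 1) := by
      simp only [map_mul, map_add, map_pow, aeval_X, aeval_int, map_one, Int.cast_one, one_mul,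
        hprod]
      ring
    refine ⟨?_, fun h0 => Or.inr ?_⟩
    · rw [hQ, norm_mul]
      exact est2 hl hr hS hT hST'
    · rw [hQ] at h0
      rcases mul_eq_zero.1 h0 with h0 | h0
      · rcases crit (u := 0) (v := 2) (by rw [hST']; ring) (by rw [h0]; ring) with ⟨rfl, rfl⟩ | ⟨rfl, rfl⟩
        · exact h12 (Or.inl rfl) (Or.inr (Or.inr rfl))
        · exact h12 (Or.inr (Or.inr rfl)) (Or.inl rfl)
      · rcases crit (u := 1) (v := 1) (by rw [hST']; ring) (by linear_combination h0) with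
          ⟨rfl, rfl⟩ | ⟨rfl, rfl⟩
        · exact h12 (Or.inr (Or.inl rfl)) (Or.inr (Or.inl rfl))
        · exact h12 (Or.inr (Or.inl rfl)) (Or.inr (Or.inl rfl))
  · obtain ⟨k, hk⟩ : ∃ k : ℤ, k = |e| := ⟨_, rfl⟩
    refine ⟨X ^ 2 + C (c * e) * X + C (2 * k - 4), fun α hα h => ?_⟩
    obtain ⟨S, T, l, hl, hr, hS, hT, hST, hprod, h12⟩ := core hH hc hα h
    rw [← hk] at hST he
    have hQ : aeval (α ^ a + ((1 : ℤ) : ℂ) * (α ^ a)⁻¹)
        (X ^ 2 + C (c * e) * X + C (2 * k - 4) : ℤ[X]) = -((S - 2) * (T - 2)) := by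
      simp only [map_mul, map_add, map_pow, aeval_X, aeval_int, Int.cast_one, one_mul]
      push_cast
      linear_combination (-2) * hST + hprod
    have hk3 : (3 : ℝ) ≤ (k : ℝ) := by
      rcases he with he | he <;> rw [he] <;> norm_num
    refine ⟨?_, fun h0 => Or.inr ?_⟩
    · rw [hQ, norm_neg]
      exact est3 hl hr hS hT hk3 (by rw [hST]; norm_num)
    · rw [hQ] at h0
      have h0' : (S - 2) * (T - 2) = 0 := by linear_combination -h0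
      rcases he with he | he
      · rw [he] at hST
        have hST' : S + T = 3 := by rw [hST]; norm_num
        rcases mul_eq_zero.1 h0' with h0 | h0
        · have h1 : S = 2 := by linear_combination h0
          have h2 : T = 1 := by linear_combination hST' - h1
          exact h12 (Or.inr (Or.inr h1)) (Or.inr (Or.inl h2))
        · have h1 : T = 2 := by linear_combination h0
          have h2 : S = 1 := by linear_combination hST' - h1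
          exact h12 (Or.inr (Or.inl h2)) (Or.inr (Or.inr h1))
      · rw [he] at hST
        have hST' : S + T = 4 := by rw [hST]; norm_num
        rcases mul_eq_zero.1 h0' with h0 | h0
        · have h1 : S = 2 := by linear_combination h0
          have h2 : T = 2 := by linear_combination hST' - h1
          exact h12 (Or.inr (Or.inr h1)) (Or.inr (Or.inr h2))
        · have h1 : T = 2 := by linear_combination h0
          have h2 : S = 2 := by linear_combination hST' - h1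
          exact h12 (Or.inr (Or.inr h2)) (Or.inr (Or.inr h1))
  · refine ⟨1, fun α hα h => ?_⟩
    obtain ⟨S, T, l, hl, hr, hS, hT, hST, hprod, h12⟩ := core hH hc hα h
    have h2 : 2 ≤ big (α ^ b) := est5 (E := ((|e| : ℤ) : ℝ)) hl hr hS hT (by exact_mod_cast he)
      (by rw [hST, Complex.ofReal_intCast])
    refine ⟨?_, fun _ => Or.inl ?_⟩
    · simpa using h2
    · simpa using h2

end Pool.Agent.H589.Five
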