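import Pool.Agent.H589.Five.Spec
import Pool.Agent.H589.Pent.Class

/-!
# Integer polynomials with at most five nonzero coefficients
-/

set_option autoImplicit false

open Polynomial Pool.Agent.H589.Pent

namespace Pool.Agent.H589.Five

namespace cls_

/-- the alternatives -/
def G (m0 : ℝ) (f : ℤ[X]) : Prop := MM f = 1 ∨ MM f = m0 ∨ 6 / 5 ≤ MM f

lemma card_le (f : ℤ[X]) (T : Finset ℕ) (hT : ∀ i ∈ T, f.coeff i ≠ 0)
    (h5 : f.support.card ≤ 5) : T.card ≤ 5 := by
  refine le_trans (Finset.card_le_card ?_) h5
  intro i hi
  exact mem_support_iff.mpr (hT i hi)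

/-- the quadratic case -/
lemma quad (m : ℤ) : MM (X ^ 2 + C m * X + 1) = 1 ∨ 6 / 5 ≤ MM (X ^ 2 + C m * X + 1) := by
  by_cases hm : |m| ≤ 3
  · exact good_quad m hm
  · right
    push Not at hm
    have h1 : |((X ^ 2 + C m * X + 1 : ℤ[X]).coeff 1 : ℝ)| ≤ 2 * MM (X ^ 2 + C m * X + 1) := by
      have h2 := norm_coeff_le_choose_mul_mahlerMeasure 1
        ((X ^ 2 + C m * X + 1 : ℤ[X]).map (Int.castRingHom ℂ))
      rw [coeff_map, eq_intCast, Complex.norm_intCast] at h2
      refine h2.trans ?_
      unfold MM
      apply mul_le_mul_of_nonneg_right _ (mahlerMeasure_nonneg _)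
      have hd : ((X ^ 2 + C m * X + 1 : ℤ[X]).map (Int.castRingHom ℂ)).natDegree ≤ 2 := by
        refine natDegree_map_le.trans ?_
        compute_degree
      have : ((X ^ 2 + C m * X + 1 : ℤ[X]).map (Int.castRingHom ℂ)).natDegree.choose 1 ≤ 2 := by
        rw [Nat.choose_one_right]; exact hd
      exact_mod_cast this
    have h2 : (X ^ 2 + C m * X + 1 : ℤ[X]).coeff 1 = m := by
      simp [coeff_X_pow, coeff_one, coeff_X]
    rw [h2] at h1
    have h3 : (4 : ℝ) ≤ |(m : ℝ)| := by
      have : (4 : ℤ) ≤ |m| := by omega
      exact_mod_cast this
    linarith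

lemma quint_gcd (m0 : ℝ) (hq : ∀ (b a : ℕ) (c e s : ℤ), Hyp b a c e s → G m0 (quint b a c e s))
    (b a : ℕ) (c e s : ℤ) (ha : 1 ≤ a) (hab : a < b) (hc0 : c ≠ 0)
    (hs : s = 1 ∨ (s = -1 ∧ e = 0)) : G m0 (quint b a c e s) := by
  set g := Nat.gcd a b with hg
  have hg0 : 0 < g := Nat.gcd_pos_of_pos_left _ (by omega)
  obtain ⟨a', ha'⟩ : g ∣ a := Nat.gcd_dvd_left a b
  obtain ⟨b', hb'⟩ : g ∣ b := Nat.gcd_dvd_right a b
  have hc : a'.Coprime b' := by
    have h := Nat.coprime_div_gcd_div_gcd (m := a) (n := b) hg0
    rw [← hg] at h
    have e1 : a / g = a' := by rw [ha']; exact Nat.mul_div_cancel_left _ hg0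
    have e2 : b / g = b' := by rw [hb']; exact Nat.mul_div_cancel_left _ hg0
    rwa [e1, e2] at h
  have ha1 : 1 ≤ a' := by
    rcases Nat.eq_zero_or_pos a' with h | h
    · rw [h, mul_zero] at ha'; omega
    · exact h
  have hab1 : a' < b' := by
    have : g * a' < g * b' := by rw [← ha', ← hb']; exact hab
    exact lt_of_mul_lt_mul_left this (Nat.zero_le _)
  have h1 := hq b' a' c e s ⟨ha1, hab1, hc, hc0, hs⟩
  have h2 : quint b a c e s = (quint b' a' c e s).comp (X ^ g) := by
    unfold quint
    simp only [add_comp, mul_comp, pow_comp, X_comp, C_comp, ← pow_mul]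
    have e1 : 2 * b = g * (2 * b') := by rw [hb']; ring
    have e2 : b + a = g * (b' + a') := by rw [hb', ha']; ring
    have e3 : b - a = g * (b' - a') := by rw [hb', ha', Nat.mul_sub]
    rw [e1, e2, e3, ← hb']
  unfold G at h1 ⊢
  rw [h2, MM_comp_pow _ g hg0]
  exact h1

/-- normalised reciprocal and antireciprocal polynomials -/
lemma rec_monic (m0 : ℝ) (hq : ∀ (b a : ℕ) (c e s : ℤ), Hyp b a c e s → G m0 (quint b a c e s))
    (f : ℤ[X]) (n : ℕ) (hn : f.natDegree = n) (hn1 : 1 ≤ n) (s : ℤ)
    (hs : s = 1 ∨ s = -1) (hlc : f.coeff n = 1)
    (hrec : ∀ i ≤ n, f.coeff (n - i) = s * f.coeff i)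
    (h5 : f.support.card ≤ 5) : G m0 f := by
  classical
  have hss : s * s = 1 := by rcases hs with rfl | rfl <;> norm_num
  have hs0 : s ≠ 0 := by rcases hs with rfl | rfl <;> norm_num
  have hc0 : f.coeff 0 = s := by
    have := hrec n le_rfl
    rw [Nat.sub_self, hlc, mul_one] at this
    exact this
  have hne : ∀ i ≤ n, f.coeff i ≠ 0 → f.coeff (n - i) ≠ 0 := by
    intro i hi h
    rw [hrec i hi]
    exact mul_ne_zero hs0 h
  have hhigh : ∀ i, n < i → f.coeff i = 0 := fun i hi =>
    coeff_eq_zero_of_natDegree_lt (by omega)
  have h0ne : f.coeff 0 ≠ 0 := by rw [hc0]; exact hs0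
  have hnne : f.coeff n ≠ 0 := by rw [hlc]; norm_num
  have hmid : s = -1 → ∀ b, n = 2 * b → f.coeff b = 0 := by
    intro h b hb
    have h1 := hrec b (by omega)
    have h2 : n - b = b := by omega
    rw [h2, h] at h1
    omega
  by_cases hA : ∃ k, 0 < k ∧ k < n ∧ 2 * k ≠ n ∧ f.coeff k ≠ 0
  · -- one pair outside of the middle
    obtain ⟨k, hk0, hkn, hk2, hck⟩ : ∃ k, 0 < k ∧ k < n ∧ 2 * k < n ∧ f.coeff k ≠ 0 := by
      obtain ⟨k, h1, h2, h3, h4⟩ := hA
      rcases lt_or_gt_of_ne h3 with h | h
      · exact ⟨k, h1, h2, h, h4⟩
      · exact ⟨n - k, by omega, by omega, by omega, hne k h2.le h4⟩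
    have hnk : f.coeff (n - k) ≠ 0 := hne k hkn.le hck
    have hj : ∀ j, 0 < j → j < n → j ≠ k → j ≠ n - k → 2 * j ≠ n → f.coeff j = 0 := by
      intro j h1 h2 h3 h4 h6
      by_contra h7
      have h9 := hne j h2.le h7
      have h := card_le f {0, k, n - k, n, j, n - j} (by
        intro i hi
        simp only [Finset.mem_insert, Finset.mem_singleton] at hi
        rcases hi with h | h | h | h | h | h <;> rw [h] <;> assumption) h5
      rw [Finset.card_insert_of_notMem (by simp; omega),
        Finset.card_insert_of_notMem (by simp; omega),
        Finset.card_insert_of_notMem (by simp; omega),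
        Finset.card_insert_of_notMem (by simp; omega),
        Finset.card_insert_of_notMem (by simp; omega), Finset.card_singleton] at h
      omega
    set c := f.coeff (n - k) with hc
    have hck' : f.coeff k = s * c := by
      have := hrec k hkn.le
      rw [← hc] at this
      rw [this, ← mul_assoc, hss, one_mul]
    by_cases hM : ∃ b, n = 2 * b ∧ f.coeff b ≠ 0
    · -- pentanomial
      obtain ⟨b, hb, hcb⟩ := hM
      have hs1 : s = 1 := by
        rcases hs with h | h
        · exact h
        · exact absurd (hmid h b hb) hcb
      set q := f.coeff b with hq'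
      have hf : f = quint b (b - k) c q 1 := by
        ext i
        unfold quint
        simp only [coeff_add, coeff_C_mul, coeff_X_pow, coeff_C]
        have e1 : b + (b - k) = n - k := by omega
        have e2 : b - (b - k) = k := by omega
        rw [e1, e2, ← hb]
        rcases lt_or_ge n i with hi | hi
        · rw [hhigh i hi]
          rw [if_neg (by omega), if_neg (by omega), if_neg (by omega), if_neg (by omega),
            if_neg (by omega)]
          ring
        · by_cases hi0 : i = 0
          · subst hi0
            rw [hc0, hs1, if_neg (by omega), if_neg (by omega), if_neg (by omega),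
              if_neg (by omega), if_pos rfl]
            ring
          by_cases hin : i = n
          · subst hin
            rw [hlc, if_pos rfl, if_neg (by omega), if_neg (by omega),
              if_neg (by omega), if_neg (by omega)]
            ring
          by_cases hik : i = k
          · subst hik
            rw [hck', hs1, if_neg (by omega), if_neg (by omega), if_neg (by omega),
              if_pos rfl, if_neg (by omega)]
            ring
          by_cases hink : i = n - k
          · rw [hink, ← hc, if_neg (by omega), if_pos rfl, if_neg (by omega), if_neg (by omega),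
              if_neg (by omega)]
            ring
          by_cases hib : i = b
          · subst hib
            rw [← hq', if_neg (by omega), if_neg (by omega), if_pos rfl, if_neg (by omega),
              if_neg (by omega)]
            ring
          · rw [hj i (by omega) (by omega) hik hink (by omega),
              if_neg (by omega), if_neg (by omega), if_neg (by omega), if_neg (by omega),
              if_neg (by omega)]
            ring
      rw [hf]
      exact quint_gcd m0 hq b (b - k) c q 1 (by omega) (by omega) hnk (Or.inl rfl)
    · -- no middle coefficient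
      push Not at hM
      have hf : f.comp (X ^ 2) = quint n (n - 2 * k) c 0 s := by
        have hx : f = X ^ n + C c * X ^ (n - k) + C (s * c) * X ^ k + C s := by
          ext i
          simp only [coeff_add, coeff_C_mul, coeff_X_pow, coeff_C]
          rcases lt_or_ge n i with hi | hi
          · rw [hhigh i hi]
            rw [if_neg (by omega), if_neg (by omega), if_neg (by omega), if_neg (by omega)]
            ring
          · by_cases hi0 : i = 0
            · subst hi0
              rw [hc0, if_neg (by omega), if_neg (by omega), if_neg (by omega),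
                if_pos rfl]
              ring
            by_cases hin : i = n
            · subst hin
              rw [hlc, if_pos rfl, if_neg (by omega), if_neg (by omega),
                if_neg (by omega)]
              ring
            by_cases hik : i = k
            · subst hik
              rw [hck', if_neg (by omega), if_neg (by omega), if_pos rfl, if_neg (by omega)]
              ring
            by_cases hink : i = n - k
            · rw [hink, ← hc, if_neg (by omega), if_pos rfl, if_neg (by omega),
                if_neg (by omega)]
              ring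
            have hz : f.coeff i = 0 := by
              by_cases hib : 2 * i = n
              · exact hM i hib.symm
              · exact hj i (by omega) (by omega) hik hink hib
            rw [hz, if_neg (by omega), if_neg (by omega), if_neg (by omega), if_neg (by omega)]
            ring
        have hx2 : f.comp (X ^ 2) =
            (X ^ n + C c * X ^ (n - k) + C (s * c) * X ^ k + C s : ℤ[X]).comp (X ^ 2) := by
          rw [← hx]
        rw [hx2]
        unfold quint
        simp only [add_comp, mul_comp, pow_comp, X_comp, C_comp, ← pow_mul]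
        have e1 : n + (n - 2 * k) = 2 * (n - k) := by omega
        have e2 : n - (n - 2 * k) = 2 * k := by omega
        rw [e1, e2, C_0]
        ring
      have h1 := quint_gcd m0 hq n (n - 2 * k) c 0 s (by omega) (by omega) hnk (by
        rcases hs with h | h
        · exact Or.inl h
        · exact Or.inr ⟨h, rfl⟩)
      rw [← hf] at h1
      unfold G at h1 ⊢
      rwa [MM_comp_pow _ 2 (by norm_num)] at h1
  · -- only a middle coefficient
    push Not at hA
    by_cases hM : ∃ b, n = 2 * b ∧ f.coeff b ≠ 0
    · obtain ⟨b, hb, hcb⟩ := hM
      have hs1 : s = 1 := by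
        rcases hs with h | h
        · exact h
        · exact absurd (hmid h b hb) hcb
      set m := f.coeff b with hm
      have hf : f = (X ^ 2 + C m * X + 1 : ℤ[X]).comp (X ^ b) := by
        simp only [add_comp, mul_comp, pow_comp, X_comp, C_comp, one_comp, ← pow_mul]
        rw [mul_comm b 2, ← hb]
        ext i
        simp only [coeff_add, coeff_C_mul, coeff_X_pow, coeff_one]
        rcases lt_or_ge n i with hi | hi
        · rw [hhigh i hi]
          rw [if_neg (by omega), if_neg (by omega), if_neg (by omega)]
          ring
        · by_cases hi0 : i = 0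
          · subst hi0
            rw [hc0, hs1, if_neg (by omega), if_neg (by omega), if_pos rfl]
            ring
          by_cases hin : i = n
          · subst hin
            rw [hlc, if_pos rfl, if_neg (by omega), if_neg (by omega)]
            ring
          by_cases hib : i = b
          · subst hib
            rw [← hm, if_neg (by omega), if_pos rfl, if_neg (by omega)]
            ring
          · rw [hA i (by omega) (by omega) (by omega),
              if_neg (by omega), if_neg (by omega), if_neg (by omega)]
            ring
      rw [hf]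
      unfold G
      rw [MM_comp_pow _ b (by omega)]
      rcases quad m with h | h
      · exact Or.inl h
      · exact Or.inr (Or.inr h)
    · push Not at hM
      left
      have hf : f = X ^ n + C s := by
        ext i
        simp only [coeff_add, coeff_X_pow, coeff_C]
        rcases lt_or_ge n i with hi | hi
        · rw [hhigh i hi]
          rw [if_neg (by omega), if_neg (by omega)]
          ring
        · by_cases hi0 : i = 0
          · subst hi0
            rw [hc0, if_neg (by omega), if_pos rfl]
            ring
          by_cases hin : i = n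
          · subst hin
            rw [hlc, if_pos rfl, if_neg (by omega)]
            ring
          have hz : f.coeff i = 0 := by
            by_cases hib : 2 * i = n
            · exact hM i hib.symm
            · exact hA i (by omega) (by omega) hib
          rw [hz, if_neg (by omega), if_neg (by omega)]
          ring
      rw [hf]
      exact MM_X_pow_add_sign n hn1 s hs

lemma G_neg {m0 : ℝ} {f : ℤ[X]} (h : G m0 (-f)) : G m0 f := by
  unfold G at h ⊢
  rwa [MM_neg] at h

/-- reciprocal and antireciprocal polynomials -/
lemma rec_case (m0 : ℝ) (hq : ∀ (b a : ℕ) (c e s : ℤ), Hyp b a c e s → G m0 (quint b a c e s))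
    (f : ℤ[X]) (h0 : f.coeff 0 ≠ 0) (hrev : f.reverse = f ∨ f.reverse = -f)
    (h5 : f.support.card ≤ 5) : G m0 f := by
  have hf0 : f ≠ 0 := by rintro rfl; simp at h0
  by_cases hl : 2 ≤ |f.leadingCoeff|
  · right; right
    linarith [MM_ge_two_of_lc f hl]
  have hlc1 : |f.leadingCoeff| = 1 := by
    have := Int.one_le_abs (leadingCoeff_ne_zero.mpr hf0)
    omega
  obtain ⟨s, hs, hrec⟩ : ∃ s : ℤ, (s = 1 ∨ s = -1) ∧
      ∀ i ≤ f.natDegree, f.coeff (f.natDegree - i) = s * f.coeff i := by
    rcases hrev with h | h
    · refine ⟨1, Or.inl rfl, ?_⟩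
      intro i hi
      have h1 := congrArg (fun g : ℤ[X] => g.coeff i) h
      simp only [coeff_reverse] at h1
      rw [revAt_le hi] at h1
      rw [h1, one_mul]
    · refine ⟨-1, Or.inr rfl, ?_⟩
      intro i hi
      have h1 := congrArg (fun g : ℤ[X] => g.coeff i) h
      simp only [coeff_reverse, coeff_neg] at h1
      rw [revAt_le hi] at h1
      rw [h1]; ring
  rcases Nat.eq_zero_or_pos f.natDegree with hd | hd
  · left
    have h1 : f = C (f.coeff 0) := eq_C_of_natDegree_eq_zero hd
    have h2 : |f.coeff 0| = 1 := by
      rw [leadingCoeff, hd] at hlc1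
      exact hlc1
    rw [h1]
    unfold MM
    rw [Polynomial.map_C, mahlerMeasure_const, eq_intCast, Complex.norm_intCast]
    exact_mod_cast h2
  · rcases (abs_eq (by norm_num : (0:ℤ) ≤ 1)).mp hlc1 with h | h
    · exact rec_monic m0 hq f f.natDegree rfl hd s hs h hrec h5
    · apply G_neg
      apply rec_monic m0 hq (-f) f.natDegree (natDegree_neg f) hd s hs
      · rw [coeff_neg]
        change -f.leadingCoeff = 1
        rw [h]; norm_num
      · intro i hi
        rw [coeff_neg, coeff_neg, hrec i hi]; ring
      · rw [support_neg]
        exact h5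

end cls_

open cls_ in
theorem cls : S_Cls := by
  classical
  intro m0 hq f hf h5
  -- strip the powers of X
  obtain ⟨g, hg⟩ : X ^ f.natTrailingDegree ∣ f :=
    X_pow_dvd_iff.mpr (fun d hd => coeff_eq_zero_of_lt_natTrailingDegree hd)
  set k := f.natTrailingDegree with hk
  have hgc : ∀ i, g.coeff i = f.coeff (i + k) := by
    intro i
    rw [hg, coeff_X_pow_mul]
  have hg0 : g.coeff 0 ≠ 0 := by
    rw [hgc 0, zero_add]
    exact trailingCoeff_nonzero_iff_nonzero.mpr hf
  have hMg : MM f = MM g := by
    rw [hg, MM_mul]
    have hX : MM X = 1 := by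
      unfold MM
      have h := mahlerMeasure_X_sub_C (0 : ℂ)
      simpa using h
    have : ∀ j : ℕ, MM (X ^ j) = 1 := by
      intro j
      induction j with
      | zero => unfold MM; simp
      | succ j ih => rw [pow_succ, MM_mul, ih, hX, one_mul]
    rw [this, one_mul]
  have hlg : g.support.card ≤ 5 := by
    refine le_trans ?_ h5
    have h1 : (g.support.map (addRightEmbedding k)).card = g.support.card :=
      Finset.card_map _
    rw [← h1]
    apply Finset.card_le_card
    intro j hj
    rw [Finset.mem_map] at hj
    obtain ⟨i, hi, rfl⟩ := hj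
    rw [mem_support_iff] at hi ⊢
    rw [hgc i] at hi
    exact hi
  have key : G m0 g := by
    by_cases h1 : g.reverse = g
    · exact rec_case m0 hq g hg0 (Or.inl h1) hlg
    by_cases h2 : g.reverse = -g
    · exact rec_case m0 hq g hg0 (Or.inr h2) hlg
    · right; right
      have h3 := Pool.Agent.N772.SC.smyth g hg0 h1 h2
      unfold MM
      linarith
  unfold G at key
  rwa [hMg]

end Pool.Agent.H589.Five
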