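import Pool.Agent.H589.Five.Spec

/-!
# The number of the zeros of `quint` that are `12`-th roots of unity
-/

set_option autoImplicit false
set_option linter.unusedSectionVars false

open Polynomial Pool.Agent.H589.Pent

namespace Pool.Agent.H589.Five.cnt_

/-! ### The operator `X d/dX - b` -/

/-- the iterates of the operator `X d/dX - b` -/
noncomputable def G (b a : ℕ) (c e s : ℂ) (i : ℕ) : ℂ[X] :=
  C ((b : ℂ) ^ i) * X ^ (2 * b) + C (c * (a : ℂ) ^ i) * X ^ (b + a) +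
    C (if i = 0 then e else 0) * X ^ b + C (s * c * (-(a : ℂ)) ^ i) * X ^ (b - a) +
      C (s * (-(b : ℂ)) ^ i)

lemma Xd (n : ℕ) (A : ℂ) : X * derivative (C A * X ^ n) = C (A * n) * X ^ n := by
  rcases n with _ | n
  · simp
  · rw [derivative_C_mul_X_pow, Nat.add_sub_cancel, pow_succ]
    push_cast
    ring

lemma G_succ {b a : ℕ} (hab : a ≤ b) (c e s : ℂ) (i : ℕ) :
    X * derivative (G b a c e s i) - C (b : ℂ) * G b a c e s i = G b a c e s (i + 1) := by
  unfold G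
  have h5 : derivative (C (s * (-(b : ℂ)) ^ i)) = 0 := derivative_C
  rw [derivative_add, derivative_add, derivative_add, derivative_add, h5, mul_add, mul_add,
    mul_add, mul_add, Xd, Xd, Xd, Xd, if_neg (Nat.succ_ne_zero i)]
  simp only [map_mul, map_pow, map_neg, map_natCast, Nat.cast_mul, Nat.cast_add,
    Nat.cast_sub hab, Nat.cast_ofNat, map_add, map_sub, map_ofNat, map_zero, mul_zero, add_zero,
    zero_mul, pow_succ]
  ring

lemma G_zero (b a : ℕ) (c e s : ℤ) :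
    (quint b a c e s).map (Int.castRingHom ℂ) = G b a c e s 0 := by
  unfold quint G
  simp only [Polynomial.map_add, Polynomial.map_mul, Polynomial.map_pow, Polynomial.map_X,
    Polynomial.map_C, eq_intCast (Int.castRingHom ℂ), pow_zero, mul_one, if_true, Int.cast_mul,
    map_one, one_mul]

lemma dvd_G {b a : ℕ} (hab : a ≤ b) (c e s α : ℂ) (m : ℕ) (h : (X - C α) ^ m ∣ G b a c e s 0)
    (i : ℕ) : (X - C α) ^ (m - i) ∣ G b a c e s i := by
  induction i with
  | zero => exact h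
  | succ i ih =>
    rw [← G_succ hab]
    have h1 : (X - C α) ^ (m - (i + 1)) ∣ derivative (G b a c e s i) := by
      have := pow_sub_one_dvd_derivative_of_pow_dvd ih
      rwa [Nat.sub_sub] at this
    have h2 : (X - C α) ^ (m - (i + 1)) ∣ G b a c e s i :=
      (pow_dvd_pow _ (Nat.sub_le_sub_left (Nat.le_succ i) m)).trans ih
    exact dvd_sub (h1.mul_left _) (h2.mul_left _)

lemma eval_G {b a : ℕ} (hab : a ≤ b) (c e s α : ℂ) (hα : α ≠ 0) (i : ℕ) :
    eval α (G b a c e s i) = α ^ b * ((b : ℂ) ^ i * (α ^ b + s * (-1) ^ i * (α ^ b)⁻¹) +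
      c * (a : ℂ) ^ i * (α ^ a + s * (-1) ^ i * (α ^ a)⁻¹) + (if i = 0 then e else 0)) := by
  unfold G
  simp only [eval_add, eval_mul, eval_C, eval_pow, eval_X]
  rw [pow_sub₀ α hα hab, neg_pow (a : ℂ), neg_pow (b : ℂ), pow_add, mul_comm 2 b, pow_mul]
  have h1 : α ^ b ≠ 0 := pow_ne_zero _ hα
  have h2 : α ^ a ≠ 0 := pow_ne_zero _ hα
  field_simp
  ring

lemma quint_ne_zero {b a : ℕ} (hb : 1 ≤ a ∧ a < b) (c e s : ℤ) : quint b a c e s ≠ 0 := by
  intro h
  have h1 := congrArg (fun p : ℤ[X] => p.coeff (2 * b)) h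
  unfold quint at h1
  simp only [coeff_add, coeff_C_mul, coeff_X_pow, coeff_C, coeff_zero] at h1
  have e1 : ¬ (2 * b = b + a) := by omega
  have e2 : ¬ (2 * b = b) := by omega
  have e3 : ¬ (2 * b = b - a) := by omega
  have e4 : ¬ (2 * b = 0) := by omega
  rw [if_neg e1, if_neg e2, if_neg e3, if_neg e4] at h1
  simp at h1

lemma E_eq {b a : ℕ} (hb : 1 ≤ a ∧ a < b) (c e s : ℤ) (α : ℂ) (hα : α ≠ 0) (i : ℕ)
    (hi : i < ((quint b a c e s).map (Int.castRingHom ℂ)).rootMultiplicity α) :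
    (b : ℂ) ^ i * (α ^ b + s * (-1) ^ i * (α ^ b)⁻¹) +
      c * (a : ℂ) ^ i * (α ^ a + s * (-1) ^ i * (α ^ a)⁻¹) + (if i = 0 then (e : ℂ) else 0) = 0 := by
  set m := ((quint b a c e s).map (Int.castRingHom ℂ)).rootMultiplicity α with hm
  have h1 : (X - C α) ^ m ∣ G b a c e s 0 := by
    rw [← G_zero]; exact pow_rootMultiplicity_dvd _ _
  have h2 := dvd_G hb.2.le c e s α m h1 i
  have h3 : (X - C α) ∣ G b a c e s i := by
    refine dvd_trans ?_ h2
    exact dvd_pow_self _ (by omega)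
  rw [dvd_iff_isRoot, IsRoot, eval_G hb.2.le _ _ _ _ hα] at h3
  exact (mul_eq_zero.1 h3).resolve_left (pow_ne_zero _ hα)

/-! ### Tables -/

/-- rational part of `2 cos (2 π r / 12)` -/
def tp (r : ℕ) : ℤ :=
  if r = 0 then 2 else if r = 2 then 1 else if r = 10 then 1 else if r = 4 then -1 else
    if r = 8 then -1 else if r = 6 then -2 else 0

/-- coefficient of `√3` of `2 cos (2 π r / 12)` -/
def tq (r : ℕ) : ℤ :=
  if r = 1 then 1 else if r = 11 then 1 else if r = 5 then -1 else if r = 7 then -1 else 0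

/-- `4 sin² (2 π r / 12)` -/
def tn (r : ℕ) : ℤ := 4 - tp r ^ 2 - 3 * tq r ^ 2

lemma tab1 : ∀ r < 12, tp r * tq r = 0 ∧ (tn r = 0 ∨ tn r = 1 ∨ tn r = 3 ∨ tn r = 4) ∧
    (tn r = 0 ↔ r = 0 ∨ r = 6) ∧ (-2 ≤ tp r ∧ tp r ≤ 2) ∧ (-1 ≤ tq r ∧ tq r ≤ 1) ∧
    (tn r = 1 → tp r = 0 ∧ (tq r = 1 ∨ tq r = -1)) ∧ (tn r = 4 → tp r = 0 ∧ tq r = 0) ∧
    (r = 0 ∨ r = 6 → (tp r = 2 ∨ tp r = -2) ∧ tq r = 0) := by
  decide

/-! ### The root of unity -/

/-- the root of unity -/
noncomputable def ζ : ℂ := Complex.exp (2 * Real.pi * Complex.I / (12 : ℕ))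

lemma ζ_prim : IsPrimitiveRoot ζ 12 := Complex.isPrimitiveRoot_exp 12 (by norm_num)

lemma ζ_ne : ζ ≠ 0 := ζ_prim.ne_zero (by norm_num)

lemma ζ12 : ζ ^ 12 = 1 := ζ_prim.pow_eq_one

lemma ζ6 : ζ ^ 6 = -1 := by
  have h1 : (ζ ^ 6 - 1) * (ζ ^ 6 + 1) = 0 := by
    have := ζ12
    linear_combination this
  rcases mul_eq_zero.1 h1 with h | h
  · exfalso
    exact ζ_prim.pow_ne_one_of_pos_of_lt (by norm_num) (by norm_num : 6 < 12) (sub_eq_zero.1 h)
  · linear_combination h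

lemma ζ4 : ζ ^ 4 = ζ ^ 2 - 1 := by
  have h1 : (ζ ^ 2 + 1) * (ζ ^ 4 - ζ ^ 2 + 1) = 0 := by
    have := ζ6
    linear_combination this
  rcases mul_eq_zero.1 h1 with h | h
  · exfalso
    have h2 : ζ ^ 4 = 1 := by linear_combination (ζ ^ 2 - 1) * h
    exact ζ_prim.pow_ne_one_of_pos_of_lt (by norm_num) (by norm_num : 4 < 12) h2
  · linear_combination h

/-- `√3` -/
noncomputable def tt : ℂ := 2 * ζ - ζ ^ 3

lemma tt_sq : tt ^ 2 = 3 := by
  unfold tt
  have h4 := ζ4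
  have h6 := ζ6
  linear_combination (-4) * h4 + h6

lemma no3 (x y : ℤ) (h : x ^ 2 = 3 * y ^ 2) : x = 0 ∧ y = 0 := by
  have hy : y = 0 := by
    by_contra hy
    have h1 : Irrational (Real.sqrt 3) := by
      have := Nat.Prime.irrational_sqrt Nat.prime_three
      simpa using this
    have h2 : ((|x| : ℤ) : ℝ) = Real.sqrt 3 * ((|y| : ℤ) : ℝ) := by
      have h3 : ((x : ℝ)) ^ 2 = 3 * (y : ℝ) ^ 2 := by exact_mod_cast h
      rw [Int.cast_abs, Int.cast_abs, ← Real.sqrt_sq_eq_abs, h3, Real.sqrt_mul (by norm_num),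
        Real.sqrt_sq_eq_abs]
    have hy' : ((|y| : ℤ) : ℝ) ≠ 0 := by
      simpa using hy
    rw [irrational_iff_ne_rational] at h1
    refine h1 |x| |y| (by simpa using hy) ?_
    rw [h2]
    field_simp
  subst hy
  refine ⟨?_, rfl⟩
  simpa using h

lemma tt_ind (x y : ℤ) (h : (x : ℂ) + y * tt = 0) : x = 0 ∧ y = 0 := by
  apply no3
  have h1 : (x : ℂ) ^ 2 = 3 * (y : ℂ) ^ 2 := by
    have h2 := tt_sq
    linear_combination (x - y * tt) * h + (y : ℂ) ^ 2 * h2
  exact_mod_cast h1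

lemma P_tab (n : ℕ) : ζ ^ n + (ζ ^ n)⁻¹ = tp (n % 12) + tq (n % 12) * tt := by
  have h4 := ζ4
  have h6 := ζ6
  rw [pow_eq_pow_mod n ζ12]
  have hr : n % 12 < 12 := Nat.mod_lt _ (by norm_num)
  generalize n % 12 = r at hr
  have hinv : (ζ ^ r)⁻¹ = ζ ^ (12 - r) := by
    rw [inv_eq_iff_eq_inv, eq_comm]
    apply inv_eq_of_mul_eq_one_left
    rw [← pow_add]
    have : r + (12 - r) = 12 := by omega
    rw [this, ζ12]
  rw [hinv]
  have h5 : ζ ^ 5 = ζ ^ 3 - ζ := by linear_combination ζ * h4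
  have h7 : ζ ^ 7 = -ζ := by linear_combination ζ * h6
  have h8 : ζ ^ 8 = -ζ ^ 2 := by linear_combination ζ ^ 2 * h6
  have h9 : ζ ^ 9 = -ζ ^ 3 := by linear_combination ζ ^ 3 * h6
  have h10 : ζ ^ 10 = 1 - ζ ^ 2 := by linear_combination ζ ^ 4 * h6 - h4
  have h11 : ζ ^ 11 = ζ - ζ ^ 3 := by linear_combination ζ ^ 5 * h6 - ζ * h4
  have h12 := ζ12
  unfold tt tp tq
  interval_cases r <;> norm_num [h4, h5, h6, h7, h8, h9, h10, h11, h12] <;> ring

lemma N_sq (n : ℕ) : (ζ ^ n - (ζ ^ n)⁻¹) ^ 2 = -(tn (n % 12) : ℂ) := by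
  have h0 : ζ ^ n ≠ 0 := pow_ne_zero _ ζ_ne
  have h1 : (ζ ^ n - (ζ ^ n)⁻¹) ^ 2 = (ζ ^ n + (ζ ^ n)⁻¹) ^ 2 - 4 := by
    field_simp
    ring
  rw [h1, P_tab]
  have h2 := (tab1 (n % 12) (Nat.mod_lt _ (by norm_num))).1
  have h3 : (tp (n % 12) : ℂ) * tq (n % 12) = 0 := by exact_mod_cast h2
  have h4 := tt_sq
  unfold tn
  push_cast
  linear_combination 2 * tt * h3 + (tq (n % 12) : ℂ) ^ 2 * h4

/-! ### Multiplicities -/

/-- the multiplicity of `ζ ^ j` -/
noncomputable def mu (b a : ℕ) (c e s : ℤ) (j : ℕ) : ℕ :=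
  ((quint b a c e s).map (Int.castRingHom ℂ)).rootMultiplicity (ζ ^ j)

lemma E_j {b a : ℕ} (hb : 1 ≤ a ∧ a < b) (c e s : ℤ) (j i : ℕ) (hi : i < mu b a c e s j) :
    (b : ℂ) ^ i * (ζ ^ (j * b) + s * (-1) ^ i * (ζ ^ (j * b))⁻¹) +
      c * (a : ℂ) ^ i * (ζ ^ (j * a) + s * (-1) ^ i * (ζ ^ (j * a))⁻¹) +
        (if i = 0 then (e : ℂ) else 0) = 0 := by
  have := E_eq hb c e s (ζ ^ j) (pow_ne_zero _ ζ_ne) i hi
  rwa [← pow_mul, ← pow_mul] at this

lemma Plev0 {b a : ℕ} (hb : 1 ≤ a ∧ a < b) (c e : ℤ) (j : ℕ) (hi : 0 < mu b a c e 1 j) :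
    tp (j * b % 12) + c * tp (j * a % 12) + e = 0 ∧
      tq (j * b % 12) + c * tq (j * a % 12) = 0 := by
  have h1 := E_j hb c e 1 j 0 hi
  have hb' := P_tab (j * b)
  have ha' := P_tab (j * a)
  apply tt_ind
  simp only [pow_zero, Int.cast_one, one_mul, mul_one, if_true] at h1
  push_cast
  linear_combination h1 - hb' - (c : ℂ) * ha'

lemma Plev {b a : ℕ} (hb : 1 ≤ a ∧ a < b) (c e s : ℤ) (j i : ℕ) (hi : i < mu b a c e s j)
    (hs : (s : ℂ) * (-1) ^ i = 1) (h0 : i ≠ 0) :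
    (b : ℤ) ^ i * tp (j * b % 12) + c * (a : ℤ) ^ i * tp (j * a % 12) = 0 ∧
      (b : ℤ) ^ i * tq (j * b % 12) + c * (a : ℤ) ^ i * tq (j * a % 12) = 0 := by
  have h1 := E_j hb c e s j i hi
  have hb' := P_tab (j * b)
  have ha' := P_tab (j * a)
  apply tt_ind
  rw [hs, if_neg h0] at h1
  push_cast
  linear_combination h1 - (b : ℂ) ^ i * hb' - (c : ℂ) * (a : ℂ) ^ i * ha'

lemma Nlev {b a : ℕ} (hb : 1 ≤ a ∧ a < b) (c e s : ℤ) (j i : ℕ) (hi : i < mu b a c e s j)
    (hs : (s : ℂ) * (-1) ^ i = -1) (h0 : i ≠ 0 ∨ e = 0) :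
    (b : ℂ) ^ i * (ζ ^ (j * b) - (ζ ^ (j * b))⁻¹) +
      c * (a : ℂ) ^ i * (ζ ^ (j * a) - (ζ ^ (j * a))⁻¹) = 0 := by
  have h1 := E_j hb c e s j i hi
  have h2 : (if i = 0 then (e : ℂ) else 0) = 0 := by
    rcases h0 with h | h
    · rw [if_neg h]
    · rw [h]; simp
  rw [hs, h2] at h1
  linear_combination h1

lemma Nsq {b a : ℕ} (hb : 1 ≤ a ∧ a < b) (c e s : ℤ) (j i : ℕ) (hi : i < mu b a c e s j)
    (hs : (s : ℂ) * (-1) ^ i = -1) (h0 : i ≠ 0 ∨ e = 0) :
    ((b : ℤ) ^ i) ^ 2 * tn (j * b % 12) = (c * (a : ℤ) ^ i) ^ 2 * tn (j * a % 12) := by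
  have h1 := Nlev hb c e s j i hi hs h0
  have h2 := N_sq (j * b)
  have h3 := N_sq (j * a)
  have h4 : (((b : ℤ) ^ i) ^ 2 * tn (j * b % 12) : ℂ) =
      ((c * (a : ℤ) ^ i) ^ 2 * tn (j * a % 12) : ℂ) := by
    push_cast
    linear_combination ((b : ℂ) ^ i) ^ 2 * h2 - (c * (a : ℂ) ^ i) ^ 2 * h3 -
      ((b : ℂ) ^ i * (ζ ^ (j * b) - (ζ ^ (j * b))⁻¹) -
        c * (a : ℂ) ^ i * (ζ ^ (j * a) - (ζ ^ (j * a))⁻¹)) * h1
  exact_mod_cast h4

lemma six {a b j : ℕ} (hab : a.Coprime b) (ha : tn (j * a % 12) = 0) (hb : tn (j * b % 12) = 0) :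
    6 ∣ j := by
  have h1 := (tab1 _ (Nat.mod_lt (j * a) (by norm_num))).2.2.1.1 ha
  have h2 := (tab1 _ (Nat.mod_lt (j * b) (by norm_num))).2.2.1.1 hb
  have h3 : 6 ∣ j * a := by omega
  have h4 : 6 ∣ j * b := by omega
  have h5 := Nat.dvd_gcd h3 h4
  rwa [Nat.gcd_mul_left, hab.gcd_eq_one, mul_one] at h5

lemma tp6 {j : ℕ} (hj : 6 ∣ j) (k : ℕ) : tp (j * k % 12) = 2 ∨ tp (j * k % 12) = -2 := by
  have h1 : 6 ∣ j * k := hj.mul_right k
  have h2 : j * k % 12 = 0 ∨ j * k % 12 = 6 := by omega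
  exact ((tab1 _ (Nat.mod_lt (j * k) (by norm_num))).2.2.2.2.2.2.2 h2).1

lemma b_ne_a {b a : ℕ} (hb : 1 ≤ a ∧ a < b) : (a : ℤ) ^ 2 - (b : ℤ) ^ 2 ≠ 0 := by
  have h1 : (a : ℤ) < b := by exact_mod_cast hb.2
  have h2 : (0 : ℤ) ≤ a := Int.natCast_nonneg a
  nlinarith

lemma b_eq {b a : ℕ} (hb : 1 ≤ a ∧ a < b) (hab : a.Coprime b) (c : ℤ)
    (h : (b : ℤ) = c * a ∨ (b : ℤ) = -(c * a)) : a = 1 ∧ |c| = b := by
  have h1 : (a : ℤ) ∣ b := by
    rcases h with h | h
    · exact ⟨c, by rw [h]; ring⟩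
    · exact ⟨-c, by rw [h]; ring⟩
  have h2 : a ∣ b := by exact_mod_cast h1
  have h3 : a = 1 := hab.eq_one_of_dvd h2
  refine ⟨h3, ?_⟩
  subst h3
  have h4 : (0 : ℤ) < b := by have := hb.2; omega
  rcases h with h | h
  · rw [h]; push_cast; rw [mul_one, abs_of_pos]; push_cast at h; omega
  · rw [h]; push_cast; rw [mul_one, abs_of_neg]; push_cast at h; omega

/-! ### Bounds of the multiplicities, `s = 1` -/

section plus

variable {b a : ℕ} (hb : 1 ≤ a ∧ a < b) (hab : a.Coprime b) {c : ℤ} (hc : c ≠ 0) (e : ℤ) {j : ℕ}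

include hb hab hc

lemma B1 (hj : ¬ 6 ∣ j) : mu b a c e 1 j ≤ 3 := by
  by_contra hm
  push Not at hm
  have h1 := Nlev hb c e 1 j 1 (by omega) (by norm_num) (Or.inl (by norm_num))
  have h3 := Nlev hb c e 1 j 3 (by omega) (by norm_num) (Or.inl (by norm_num))
  set Nb := ζ ^ (j * b) - (ζ ^ (j * b))⁻¹ with hNb
  set Na := ζ ^ (j * a) - (ζ ^ (j * a))⁻¹ with hNa
  have h4 : (c : ℂ) * (a : ℂ) * ((a : ℂ) ^ 2 - (b : ℂ) ^ 2) * Na = 0 := by
    linear_combination h3 - (b : ℂ) ^ 2 * h1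
  have h5 : ((a : ℂ) ^ 2 - (b : ℂ) ^ 2) ≠ 0 := by
    have := b_ne_a hb
    exact_mod_cast this
  have hca : (c : ℂ) * (a : ℂ) ≠ 0 := by
    refine mul_ne_zero (by exact_mod_cast hc) ?_
    have : a ≠ 0 := by omega
    exact_mod_cast this
  have h6 : Na = 0 := (mul_eq_zero.1 h4).resolve_left (mul_ne_zero hca h5)
  have hb0 : (b : ℂ) ≠ 0 := by
    have : b ≠ 0 := by omega
    exact_mod_cast this
  have h7 : Nb = 0 := by
    rw [h6, mul_zero, add_zero, pow_one] at h1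
    exact (mul_eq_zero.1 h1).resolve_left hb0
  have h8 := N_sq (j * a)
  have h9 := N_sq (j * b)
  rw [← hNa, h6] at h8
  rw [← hNb, h7] at h9
  apply hj
  apply six hab
  · have : (tn (j * a % 12) : ℂ) = 0 := by linear_combination h8
    exact_mod_cast this
  · have : (tn (j * b % 12) : ℂ) = 0 := by linear_combination h9
    exact_mod_cast this

lemma B2 (hj : ¬ 6 ∣ j) (hn : ¬ (a = 1 ∧ |c| = b)) : mu b a c e 1 j ≤ 1 := by
  by_contra hm
  push Not at hm
  have h0 := Plev0 hb c e j (by omega)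
  have h1 := Nsq hb c e 1 j 1 (by omega) (by norm_num) (Or.inl (by norm_num))
  rw [pow_one, pow_one] at h1
  have hta := tab1 _ (Nat.mod_lt (j * a) (by norm_num : 12 > 0))
  have htb := tab1 _ (Nat.mod_lt (j * b) (by norm_num : 12 > 0))
  have hb0 : (b : ℤ) ≠ 0 := by omega
  have hca : c * (a : ℤ) ≠ 0 := mul_ne_zero hc (by omega)
  have hcp := six hab (j := j)
  generalize j * a % 12 = u at *
  generalize j * b % 12 = v at *
  have hmain : (b : ℤ) ^ 2 = (c * a) ^ 2 → False := by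
    intro h
    exact hn (b_eq hb hab c (sq_eq_sq_iff_eq_or_eq_neg.1 h))
  have k1 : ∀ x y : ℤ, x ≠ 0 → x ^ 2 ≠ 3 * y ^ 2 := fun x y hx h => hx (no3 x y h).1
  rcases htb.2.1 with hv | hv | hv | hv <;> rcases hta.2.1 with hu | hu | hu | hu <;>
    rw [hv, hu] at h1
  · exact hj (hcp hu hv)
  · exact absurd (by linarith : (c * (a : ℤ)) ^ 2 = 0) (pow_ne_zero 2 hca)
  · exact absurd (by linarith : (c * (a : ℤ)) ^ 2 = 0) (pow_ne_zero 2 hca)
  · exact absurd (by linarith : (c * (a : ℤ)) ^ 2 = 0) (pow_ne_zero 2 hca)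
  · exact absurd (by linarith : (b : ℤ) ^ 2 = 0) (pow_ne_zero 2 hb0)
  · exact hmain (by linarith)
  · exact k1 b (c * a) hb0 (by linarith)
  · -- `n_b = 1`, `n_a = 4`
    have h2 := htb.2.2.2.2.2.1 hv
    have h3 := hta.2.2.2.2.2.2.1 hu
    have h4 := h0.2
    rw [h3.2, mul_zero, add_zero] at h4
    rcases h2.2 with h | h <;> rw [h] at h4 <;> norm_num at h4
  · exact absurd (by linarith : (b : ℤ) ^ 2 = 0) (pow_ne_zero 2 hb0)
  · exact k1 (c * a) b hca (by linarith)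
  · exact hmain (by linarith)
  · exact k1 (2 * (c * a)) b (mul_ne_zero two_ne_zero hca) (by linarith)
  · exact absurd (by linarith : (b : ℤ) ^ 2 = 0) (pow_ne_zero 2 hb0)
  · -- `n_b = 4`, `n_a = 1`
    have h2 := hta.2.2.2.2.2.1 hu
    have h3 := htb.2.2.2.2.2.2.1 hv
    have h4 := h0.2
    rw [h3.2, zero_add] at h4
    rcases h2.2 with h | h <;> rw [h] at h4 <;> apply hc <;> linarith
  · exact k1 (2 * b) (c * a) (mul_ne_zero two_ne_zero hb0) (by linarith)
  · exact hmain (by linarith)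

lemma B3 (hj : 6 ∣ j) : mu b a c e 1 j ≤ 4 := by
  by_contra hm
  push Not at hm
  have h2 := (Plev hb c e 1 j 2 (by omega) (by norm_num) (by norm_num)).1
  have h4 := (Plev hb c e 1 j 4 (by omega) (by norm_num) (by norm_num)).1
  have hta : tp (j * a % 12) ≠ 0 := by
    rcases tp6 hj a with h | h <;> rw [h] <;> norm_num
  have h5 : c * (a : ℤ) ^ 2 * tp (j * a % 12) * ((a : ℤ) ^ 2 - (b : ℤ) ^ 2) = 0 := by
    linear_combination h4 - (b : ℤ) ^ 2 * h2
  have ha : (a : ℤ) ^ 2 ≠ 0 := pow_ne_zero 2 (by omega)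
  exact (mul_ne_zero (mul_ne_zero (mul_ne_zero hc ha) hta) (b_ne_a hb)) h5

lemma B4 (hj : 6 ∣ j) (hn : ¬ (a = 1 ∧ |c| = (b : ℤ) ^ 2)) : mu b a c e 1 j ≤ 2 := by
  by_contra hm
  push Not at hm
  have h2 := (Plev hb c e 1 j 2 (by omega) (by norm_num) (by norm_num)).1
  have h3 : (b : ℤ) ^ 2 = c * (a : ℤ) ^ 2 ∨ (b : ℤ) ^ 2 = -(c * (a : ℤ) ^ 2) := by
    rcases tp6 hj a with h | h <;> rcases tp6 hj b with h' | h' <;> rw [h, h'] at h2
    · right; linarith
    · left; linarith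
    · left; linarith
    · right; linarith
  have h4 : (a : ℤ) ^ 2 ∣ (b : ℤ) ^ 2 := by
    rcases h3 with h | h
    · exact ⟨c, by rw [h]; ring⟩
    · exact ⟨-c, by rw [h]; ring⟩
  have h5 : a ^ 2 ∣ b ^ 2 := by exact_mod_cast h4
  have h6 : a ∣ b := (Nat.pow_dvd_pow_iff (by norm_num)).1 h5
  have h7 : a = 1 := hab.eq_one_of_dvd h6
  apply hn
  refine ⟨h7, ?_⟩
  subst h7
  have hb2 : (0 : ℤ) < (b : ℤ) ^ 2 := by
    have : (0 : ℤ) < b := by omega
    positivity
  simp only [Nat.cast_one, one_pow, mul_one] at h3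
  rcases h3 with h | h
  · rw [h, abs_of_pos (by rw [h] at hb2; exact hb2)]
  · rw [h, abs_of_neg (by rw [h] at hb2; linarith)]

end plus

/-! ### Bounds of the multiplicities, `s = -1` -/

section minus

variable {b a : ℕ} (hb : 1 ≤ a ∧ a < b) (hab : a.Coprime b) {c : ℤ} (hc : 2 ≤ |c|) {j : ℕ}

include hb hab hc

lemma M0 (hj : ¬ 6 ∣ j) (hm : 0 < mu b a c 0 (-1) j) :
    |c| = 2 ∧ tn (j * a % 12) = 1 ∧ tn (j * b % 12) = 4 := by
  have h1 := Nsq hb c 0 (-1) j 0 hm (by norm_num) (Or.inr rfl)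
  simp only [pow_zero, mul_one, one_pow, one_mul] at h1
  have hta := tab1 _ (Nat.mod_lt (j * a) (by norm_num : 12 > 0))
  have htb := tab1 _ (Nat.mod_lt (j * b) (by norm_num : 12 > 0))
  have hcp := six hab (j := j)
  generalize j * a % 12 = u at *
  generalize j * b % 12 = v at *
  have hcc : c ^ 2 = |c| ^ 2 := (sq_abs c).symm
  rw [hcc] at h1
  generalize |c| = C at *
  have hC2 : 4 ≤ C ^ 2 := by nlinarith
  rcases htb.2.1 with hv | hv | hv | hv <;> rcases hta.2.1 with hu | hu | hu | hu <;>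
    rw [hv, hu] at h1 <;> first
    | (exact absurd (hcp hu hv) hj)
    | (exfalso; linarith)
    | (refine ⟨?_, hu, hv⟩; nlinarith)

lemma M1 (hj : ¬ 6 ∣ j) : mu b a c 0 (-1) j ≤ 1 := by
  by_contra hm
  push Not at hm
  have h0 := M0 hb hab hc hj (by omega)
  have h1 := (Plev hb c 0 (-1) j 1 (by omega) (by norm_num) (by norm_num)).2
  have hta := tab1 _ (Nat.mod_lt (j * a) (by norm_num : 12 > 0))
  have htb := tab1 _ (Nat.mod_lt (j * b) (by norm_num : 12 > 0))
  have h2 := hta.2.2.2.2.2.1 h0.2.1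
  have h3 := htb.2.2.2.2.2.2.1 h0.2.2
  rw [h3.2, mul_zero, zero_add, pow_one] at h1
  have hc0 : c ≠ 0 := by
    rintro rfl
    simp at hc
  have ha : (a : ℤ) ≠ 0 := by omega
  rcases h2.2 with h | h <;> rw [h] at h1
  · rw [mul_one] at h1
    exact mul_ne_zero hc0 ha h1
  · apply mul_ne_zero hc0 ha
    linarith

lemma M2 (hj : 6 ∣ j) : mu b a c 0 (-1) j ≤ 3 := by
  by_contra hm
  push Not at hm
  have h2 := (Plev hb c 0 (-1) j 1 (by omega) (by norm_num) (by norm_num)).1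
  have h4 := (Plev hb c 0 (-1) j 3 (by omega) (by norm_num) (by norm_num)).1
  have hta : tp (j * a % 12) ≠ 0 := by
    rcases tp6 hj a with h | h <;> rw [h] <;> norm_num
  have h5 : c * (a : ℤ) * tp (j * a % 12) * ((a : ℤ) ^ 2 - (b : ℤ) ^ 2) = 0 := by
    linear_combination h4 - (b : ℤ) ^ 2 * h2
  have ha : (a : ℤ) ≠ 0 := by omega
  have hc0 : c ≠ 0 := by
    rintro rfl
    simp at hc
  exact (mul_ne_zero (mul_ne_zero (mul_ne_zero hc0 ha) hta) (b_ne_a hb)) h5

lemma M3 (hj : 6 ∣ j) (hn : ¬ (a = 1 ∧ |c| = b)) : mu b a c 0 (-1) j ≤ 1 := by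
  by_contra hm
  push Not at hm
  have h2 := (Plev hb c 0 (-1) j 1 (by omega) (by norm_num) (by norm_num)).1
  rw [pow_one, pow_one] at h2
  apply hn
  apply b_eq hb hab
  rcases tp6 hj a with h | h <;> rcases tp6 hj b with h' | h' <;> rw [h, h'] at h2
  · right; linarith
  · left; linarith
  · left; linarith
  · right; linarith

end minus

/-! ### Sums over residues -/

/-- the condition that `ζ ^ j` is a zero (for `s = 1`) -/
def cd (v u : ℕ) (c e : ℤ) (j : ℕ) : Bool :=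
  decide (tp (j * v % 12) + c * tp (j * u % 12) + e = 0) &&
    decide (tq (j * v % 12) + c * tq (j * u % 12) = 0)

/-- the weight of `ζ ^ j` -/
def wt (j : ℕ) : ℕ := if 6 ∣ j then 2 else 1

/-- the weighted number of the zeros -/
def ws (v u : ℕ) (c e : ℤ) : ℕ := ∑ j ∈ Finset.range 12, if cd v u c e j then wt j else 0

/-- residues of coprime numbers -/
def ok (v u : ℕ) : Bool := !((decide (v % 2 = 0) && decide (u % 2 = 0)) ||
  (decide (v % 3 = 0) && decide (u % 3 = 0)))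

lemma ok_of {a b : ℕ} (hab : a.Coprime b) : ok (b % 12) (a % 12) = true := by
  have h2 : ¬ (2 ∣ a ∧ 2 ∣ b) := fun h => by
    have := Nat.dvd_gcd h.1 h.2
    rw [hab.gcd_eq_one] at this
    omega
  have h3 : ¬ (3 ∣ a ∧ 3 ∣ b) := fun h => by
    have := Nat.dvd_gcd h.1 h.2
    rw [hab.gcd_eq_one] at this
    omega
  unfold ok
  simp only [Bool.not_eq_true', Bool.or_eq_false_iff, Bool.and_eq_false_iff, decide_eq_false_iff_not]
  omega

/-- check of a family of inequalities for all residues -/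
def chk (n : ℕ) (P : ℕ → ℕ → ℕ → Bool) : Bool :=
  (List.range 12).all fun v => (List.range 12).all fun u => !(ok v u) ||
    (List.range n).all fun k => P v u k

lemma of_chk {n : ℕ} {P : ℕ → ℕ → ℕ → Bool} (h : chk n P = true) {v u k : ℕ} (hv : v < 12)
    (hu : u < 12) (ho : ok v u = true) (hk : k < n) : P v u k = true := by
  unfold chk at h
  rw [List.all_eq_true] at h
  have h1 := h v (List.mem_range.2 hv)
  rw [List.all_eq_true] at h1
  have h2 := h1 u (List.mem_range.2 hu)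
  rw [ho] at h2
  simp only [Bool.not_true, Bool.false_or] at h2
  rw [List.all_eq_true] at h2
  exact h2 k (List.mem_range.2 hk)

/-- the bounds for `|c| = 1` -/
def P1 (v u k : ℕ) : Bool :=
  let e : ℤ := (k : ℤ) - 4
  let m := max (ws v u 1 e) (ws v u (-1) e)
  (!(decide (e = 2 ∨ e = -2)) || decide (m ≤ 4)) && (!(decide (3 ≤ e ∨ e ≤ -3)) || decide (m ≤ 2))

lemma W1 : chk 9 P1 = true := by decide +kernel

/-- the bounds for `|c| = 2` -/
def P2 (v u k : ℕ) : Bool :=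
  let e : ℤ := (k : ℤ) - 6
  let m := max (ws v u 2 e) (ws v u (-2) e)
  decide (m ≤ 6) && (decide (e % 2 = 0) || decide (m ≤ 4))

lemma W2 : chk 13 P2 = true := by decide +kernel

/-- the bounds for `|c| = 3, 4` -/
def P3 (v u k : ℕ) : Bool :=
  let e : ℤ := (k : ℤ) - 10
  decide (ws v u 3 e ≤ 4) && decide (ws v u (-3) e ≤ 4) && decide (ws v u 4 e ≤ 4) &&
    decide (ws v u (-4) e ≤ 4)

lemma W3 : chk 21 P3 = true := by decide +kernel

/-- the weights of the fibres -/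
def wf (v u j₀ : ℕ) : ℕ := ∑ j ∈ Finset.range 12,
  if decide (tp (j * v % 12) = tp (j₀ * v % 12)) && decide (tq (j * v % 12) = tq (j₀ * v % 12)) &&
    decide (tp (j * u % 12) = tp (j₀ * u % 12)) && decide (tq (j * u % 12) = tq (j₀ * u % 12))
  then wt j else 0

/-- the bounds for the fibres -/
def P4 (v u k : ℕ) : Bool :=
  decide (wf v u k ≤ 4) && (!(decide (u = 1)) || decide (wf v u k ≤ 2))

lemma W4 : chk 12 P4 = true := by decide +kernel

/-- the number of the zeros for `s = -1`, `|c| = 2` -/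
def wm (v u : ℕ) : ℕ := ∑ j ∈ Finset.range 12,
  if !(decide (6 ∣ j)) && decide (tn (j * u % 12) = 1) && decide (tn (j * v % 12) = 4)
    then 1 else 0

lemma W5 : chk 1 (fun v u _ => decide (wm v u ≤ 4)) = true := by decide +kernel

/-! ### Assembly -/

lemma bad_le (b a : ℕ) (c e s : ℤ) :
    bad (quint b a c e s) ≤ ∑ j ∈ Finset.range 12, mu b a c e s j := by
  classical
  unfold bad
  have h1 : (nthRoots 12 (1 : ℂ)).toFinset ⊆ (Finset.range 12).image (fun j => ζ ^ j) := by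
    intro α hα
    rw [Multiset.mem_toFinset, mem_nthRoots (by norm_num)] at hα
    obtain ⟨j, hj, hj'⟩ := ζ_prim.eq_pow_of_pow_eq_one hα
    exact Finset.mem_image.2 ⟨j, Finset.mem_range.2 hj, hj'⟩
  refine (Finset.sum_le_sum_of_subset h1).trans ?_
  rw [Finset.sum_image]
  · exact le_refl _
  · intro i hi j hj h
    exact ζ_prim.pow_inj (by simpa using hi) (by simpa using hj) h

lemma e_le {b a : ℕ} (hb : 1 ≤ a ∧ a < b) (c e : ℤ) (j : ℕ) (h : 0 < mu b a c e 1 j) :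
    |e| ≤ 2 * |c| + 2 := by
  have h0 := (Plev0 hb c e j h).1
  have hta := (tab1 _ (Nat.mod_lt (j * a) (by norm_num : 12 > 0))).2.2.2.1
  have htb := (tab1 _ (Nat.mod_lt (j * b) (by norm_num : 12 > 0))).2.2.2.1
  have h1 : e = -tp (j * b % 12) - c * tp (j * a % 12) := by linarith
  have h2 : |c * tp (j * a % 12)| ≤ |c| * 2 := by
    rw [abs_mul]
    exact mul_le_mul_of_nonneg_left (abs_le.2 hta) (abs_nonneg _)
  have h3 : |-tp (j * b % 12)| ≤ 2 := by rw [abs_neg]; exact abs_le.2 htb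
  rw [h1]
  have h4 := abs_sub (-tp (j * b % 12)) (c * tp (j * a % 12))
  linarith

lemma bad_zero {b a : ℕ} (hb : 1 ≤ a ∧ a < b) (c e : ℤ) (h : 2 * |c| + 2 < |e|) :
    bad (quint b a c e 1) = 0 := by
  have h1 := bad_le b a c e 1
  rw [Finset.sum_eq_zero] at h1
  · omega
  · intro j _
    by_contra h2
    have := e_le hb c e j (Nat.pos_of_ne_zero h2)
    omega

lemma cd_of {b a : ℕ} (hb : 1 ≤ a ∧ a < b) (c e : ℤ) (j : ℕ) (h : 0 < mu b a c e 1 j) :
    cd (b % 12) (a % 12) c e j = true := by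
  have h0 := Plev0 hb c e j h
  unfold cd
  rw [Nat.mul_mod_mod, Nat.mul_mod_mod, Bool.and_eq_true, decide_eq_true_iff, decide_eq_true_iff]
  exact h0

lemma wt6 {j : ℕ} (h : 6 ∣ j) : wt j = 2 := if_pos h

lemma wt1 {j : ℕ} (h : ¬ 6 ∣ j) : wt j = 1 := if_neg h

lemma mu_wt {b a : ℕ} (hb : 1 ≤ a ∧ a < b) (hab : a.Coprime b) {c : ℤ} (hc : c ≠ 0) (e : ℤ)
    (hn1 : ¬ (a = 1 ∧ |c| = b)) (hn2 : ¬ (a = 1 ∧ |c| = (b : ℤ) ^ 2)) (j : ℕ) :
    mu b a c e 1 j ≤ wt j := by
  by_cases hj : 6 ∣ j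
  · rw [wt6 hj]; exact B4 hb hab hc e hj hn2
  · rw [wt1 hj]; exact B2 hb hab hc e hj hn1

lemma bad_ws {b a : ℕ} (hb : 1 ≤ a ∧ a < b) (hab : a.Coprime b) {c : ℤ} (hc : c ≠ 0) (e : ℤ)
    (hn1 : ¬ (a = 1 ∧ |c| = b)) (hn2 : ¬ (a = 1 ∧ |c| = (b : ℤ) ^ 2)) :
    bad (quint b a c e 1) ≤ ws (b % 12) (a % 12) c e := by
  refine (bad_le b a c e 1).trans ?_
  unfold ws
  refine Finset.sum_le_sum fun j _ => ?_
  rcases Nat.eq_zero_or_pos (mu b a c e 1 j) with h | h
  · rw [h]; exact Nat.zero_le _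
  · rw [if_pos (cd_of hb c e j h)]
    exact mu_wt hb hab hc e hn1 hn2 j

lemma bad_wf {b a : ℕ} (hb : 1 ≤ a ∧ a < b) (hab : a.Coprime b) {c : ℤ} (hc : 5 ≤ |c|) (e : ℤ)
    (K : ℕ) (hK : ∀ j, mu b a c e 1 j ≤ K * wt j) :
    bad (quint b a c e 1) ≤ K * 4 ∧ (a = 1 → bad (quint b a c e 1) ≤ K * 2) := by
  by_cases hall : ∀ j ∈ Finset.range 12, mu b a c e 1 j = 0
  · have h1 := bad_le b a c e 1
    rw [Finset.sum_eq_zero hall] at h1
    exact ⟨by omega, fun _ => by omega⟩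
  · push Not at hall
    obtain ⟨j₀, hj₀, hm₀⟩ := hall
    have h0 := Plev0 hb c e j₀ (Nat.pos_of_ne_zero hm₀)
    have h1 : bad (quint b a c e 1) ≤ K * wf (b % 12) (a % 12) j₀ := by
      refine (bad_le b a c e 1).trans ?_
      unfold wf
      rw [Finset.mul_sum]
      refine Finset.sum_le_sum fun j _ => ?_
      rcases Nat.eq_zero_or_pos (mu b a c e 1 j) with h | h
      · rw [h]; exact Nat.zero_le _
      · have h2 := Plev0 hb c e j h
        have t1 := tab1 _ (Nat.mod_lt (j * a) (by norm_num : 12 > 0))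
        have t2 := tab1 _ (Nat.mod_lt (j * b) (by norm_num : 12 > 0))
        have t3 := tab1 _ (Nat.mod_lt (j₀ * a) (by norm_num : 12 > 0))
        have t4 := tab1 _ (Nat.mod_lt (j₀ * b) (by norm_num : 12 > 0))
        have hpa := t1.2.2.2.1
        have hpb := t2.2.2.2.1
        have hpa' := t3.2.2.2.1
        have hpb' := t4.2.2.2.1
        have hqa := t1.2.2.2.2.1
        have hqb := t2.2.2.2.2.1
        have hqa' := t3.2.2.2.2.1
        have hqb' := t4.2.2.2.2.1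
        have key : ∀ x y : ℤ, |y| ≤ 4 → c * x = y → x = 0 ∧ y = 0 := by
          intro x y hy hxy
          have hx : x = 0 := by
            by_contra hx
            have h3 : 1 ≤ |x| := Int.one_le_abs hx
            have h4 : |c| * |x| = |y| := by rw [← abs_mul, hxy]
            nlinarith
          subst hx
          exact ⟨rfl, by rw [← hxy, mul_zero]⟩
        have k1 := key (tp (j * a % 12) - tp (j₀ * a % 12)) (tp (j₀ * b % 12) - tp (j * b % 12))
          (abs_le.2 ⟨by linarith, by linarith⟩) (by linarith [h2.1, h0.1])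
        have k2 := key (tq (j * a % 12) - tq (j₀ * a % 12)) (tq (j₀ * b % 12) - tq (j * b % 12))
          (abs_le.2 ⟨by linarith, by linarith⟩) (by linarith [h2.2, h0.2])
        have e1 : tp (j * b % 12) = tp (j₀ * b % 12) := by linarith [k1.2]
        have e2 : tq (j * b % 12) = tq (j₀ * b % 12) := by linarith [k2.2]
        have e3 : tp (j * a % 12) = tp (j₀ * a % 12) := by linarith [k1.1]
        have e4 : tq (j * a % 12) = tq (j₀ * a % 12) := by linarith [k2.1]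
        rw [Nat.mul_mod_mod, Nat.mul_mod_mod, Nat.mul_mod_mod, Nat.mul_mod_mod, e1, e2, e3, e4,
          if_pos (by simp)]
        exact hK j
    have h2 := of_chk W4 (Nat.mod_lt b (by norm_num)) (Nat.mod_lt a (by norm_num)) (ok_of hab)
      (Finset.mem_range.1 hj₀)
    unfold P4 at h2
    rw [Bool.and_eq_true, decide_eq_true_iff, Bool.or_eq_true, decide_eq_true_iff] at h2
    refine ⟨h1.trans (Nat.mul_le_mul_left _ h2.1), fun ha => h1.trans (Nat.mul_le_mul_left _ ?_)⟩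
    rcases h2.2 with h | h
    · subst ha
      simp at h
    · exact h

lemma minus_le {b a : ℕ} (hb : 1 ≤ a ∧ a < b) (hab : a.Coprime b) {c : ℤ} (hc : 3 ≤ |c|)
    (K : ℕ) (hK : ∀ j, 6 ∣ j → mu b a c 0 (-1) j ≤ K) : bad (quint b a c 0 (-1)) ≤ 2 * K := by
  refine (bad_le b a c 0 (-1)).trans ?_
  have h1 : ∑ j ∈ Finset.range 12, mu b a c 0 (-1) j ≤
      ∑ j ∈ Finset.range 12, if 6 ∣ j then K else 0 := by
    refine Finset.sum_le_sum fun j _ => ?_
    split_ifs with hj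
    · exact hK j hj
    · by_contra h
      have := (M0 hb hab (show 2 ≤ |c| by omega) hj (by omega)).1
      omega
  refine h1.trans ?_
  rw [Finset.sum_ite, Finset.sum_const_zero, add_zero, Finset.sum_const, smul_eq_mul]
  exact Nat.mul_le_mul_right _ (by decide)

end Pool.Agent.H589.Five.cnt_

namespace Pool.Agent.H589.Five

open cnt_

theorem cnt : S_Cnt := by
  intro b a c e s ⟨ha, hlt, hab, hc, hs⟩
  have hb : 1 ≤ a ∧ a < b := ⟨ha, hlt⟩
  have hsa : s = 1 → |c| = 1 → ¬ (a = 1 ∧ |c| = (b : ℤ)) := fun _ h1 h2 => by omega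
  -- tables
  have hok := ok_of hab
  have hv : b % 12 < 12 := Nat.mod_lt b (by norm_num)
  have hu : a % 12 < 12 := Nat.mod_lt a (by norm_num)
  have hbb : ∀ x : ℤ, x ≤ 4 → x ≠ 4 → x ≠ 1 → ¬ (a = 1 ∧ x = (b : ℤ) ^ 2) := by
    rintro x h4 h4' h1 ⟨h2, h3⟩
    have h5 : (2 : ℤ) ≤ b := by omega
    have h6 : (b : ℤ) = 2 := by nlinarith
    rw [h6] at h3
    omega
  have hc1 : ∀ m : ℤ, 0 ≤ m → |c| = m → c = m ∨ c = -m := fun m hm h => (abs_eq hm).1 h
  have case1 : s = 1 → |c| = 1 → |e| ≤ 4 → 2 ≤ |e| →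
      (|e| = 2 → bad (quint b a c e s) ≤ 4) ∧ (3 ≤ |e| → bad (quint b a c e s) ≤ 2) := by
    intro hs1 h1 he he2
    subst hs1
    have hw := bad_ws hb hab hc e (by omega) (by
      rintro ⟨h2, h3⟩
      have h5 : (2 : ℤ) ≤ b := by omega
      nlinarith)
    have he' := abs_le.1 he
    obtain ⟨k, hk⟩ : ∃ k : ℕ, (k : ℤ) = e + 4 := ⟨(e + 4).toNat, Int.toNat_of_nonneg (by omega)⟩
    have h2 := of_chk W1 hv hu hok (show k < 9 by omega)
    unfold P1 at h2
    have h3 : (k : ℤ) - 4 = e := by omega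
    rw [h3] at h2
    have h4 : bad (quint b a c e 1) ≤ max (ws (b % 12) (a % 12) 1 e) (ws (b % 12) (a % 12) (-1) e) := by
      rcases hc1 1 (by norm_num) h1 with h | h <;> rw [h] at hw ⊢
      · exact hw.trans (le_max_left _ _)
      · exact hw.trans (le_max_right _ _)
    simp only [Bool.and_eq_true, Bool.or_eq_true, Bool.not_eq_true', decide_eq_false_iff_not,
      decide_eq_true_iff] at h2
    refine ⟨fun h => ?_, fun h => ?_⟩
    · rcases h2.1 with h5 | h5
      · exfalso; apply h5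
        rcases (abs_eq (by norm_num : (0 : ℤ) ≤ 2)).1 h with h | h <;> omega
      · exact h4.trans h5
    · rcases h2.2 with h5 | h5
      · exfalso; apply h5
        rcases le_abs.1 h with h | h <;> omega
      · exact h4.trans h5
  have case2 : s = 1 → |c| = 2 → 3 ≤ b → bad (quint b a c e s) ≤ 6 ∧
      (¬ Even e → bad (quint b a c e s) ≤ 4) := by
    intro hs1 h1 hb3
    subst hs1
    by_cases he : |e| ≤ 6
    · have hw := bad_ws hb hab hc e (by omega) (hbb _ (by omega) (by omega) (by omega))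
      have he' := abs_le.1 he
      obtain ⟨k, hk⟩ : ∃ k : ℕ, (k : ℤ) = e + 6 := ⟨(e + 6).toNat, Int.toNat_of_nonneg (by omega)⟩
      have h2 := of_chk W2 hv hu hok (show k < 13 by omega)
      unfold P2 at h2
      have h3 : (k : ℤ) - 6 = e := by omega
      rw [h3] at h2
      have h4 : bad (quint b a c e 1) ≤
          max (ws (b % 12) (a % 12) 2 e) (ws (b % 12) (a % 12) (-2) e) := by
        rcases hc1 2 (by norm_num) h1 with h | h <;> rw [h] at hw ⊢
        · exact hw.trans (le_max_left _ _)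
        · exact hw.trans (le_max_right _ _)
      simp only [Bool.and_eq_true, Bool.or_eq_true, decide_eq_true_iff] at h2
      refine ⟨h4.trans h2.1, fun hodd => ?_⟩
      rcases h2.2 with h5 | h5
      · exact absurd (Int.even_iff.2 h5) hodd
      · exact h4.trans h5
    · rw [bad_zero hb c e (by omega)]
      exact ⟨by norm_num, fun _ => by norm_num⟩
  have case3 : s = 1 → 3 ≤ |c| → ¬ (a = 1 ∧ |c| = b) → ¬ (a = 1 ∧ |c| = (b : ℤ) ^ 2) →
      bad (quint b a c e s) ≤ 4 := by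
    intro hs1 h3 hn1 hn2
    subst hs1
    by_cases h5 : 5 ≤ |c|
    · have := (bad_wf hb hab h5 e 1 (fun j => by
        rw [one_mul]; exact mu_wt hb hab hc e hn1 hn2 j)).1
      omega
    · by_cases he : |e| ≤ 10
      · have hw := bad_ws hb hab hc e hn1 hn2
        have he' := abs_le.1 he
        obtain ⟨k, hk⟩ : ∃ k : ℕ, (k : ℤ) = e + 10 :=
          ⟨(e + 10).toNat, Int.toNat_of_nonneg (by omega)⟩
        have h2 := of_chk W3 hv hu hok (show k < 21 by omega)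
        unfold P3 at h2
        have h3' : (k : ℤ) - 10 = e := by omega
        rw [h3'] at h2
        simp only [Bool.and_eq_true, decide_eq_true_iff] at h2
        obtain ⟨⟨⟨q1, q2⟩, q3⟩, q4⟩ := h2
        have h34 : |c| = 3 ∨ |c| = 4 := by omega
        rcases h34 with h | h
        · rcases hc1 3 (by norm_num) h with h' | h' <;> rw [h'] at hw ⊢
          · exact hw.trans q1
          · exact hw.trans q2
        · rcases hc1 4 (by norm_num) h with h' | h' <;> rw [h'] at hw ⊢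
          · exact hw.trans q3
          · exact hw.trans q4
      · rw [bad_zero hb c e (by omega)]
        norm_num
  refine ⟨?_, ?_, ?_, ?_, ?_, ?_, ?_, ?_, ?_, ?_, ?_, ?_⟩
  · intro hs1 h1 he
    exact (case1 hs1 h1 (by omega) (by omega)).1 he
  · intro hs1 h1 he
    by_cases h4 : |e| ≤ 4
    · exact (case1 hs1 h1 h4 (by omega)).2 he
    · subst hs1
      rw [bad_zero hb c e (by omega)]
      norm_num
  · intro hs1 h1 hb3 _
    exact (case2 hs1 h1 hb3).1
  · intro hs1 h1 hb3 he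
    exact (case2 hs1 h1 hb3).2 he
  · intro hs1 h3 hn
    exact case3 hs1 h3 (fun h => hn ⟨h.1, Or.inl h.2⟩) (fun h => hn ⟨h.1, Or.inr h.2⟩)
  · intro hs1 h5 hb2
    subst hs1
    have ha1 : a = 1 := by omega
    have hn1 : ¬ (a = 1 ∧ |c| = (b : ℤ)) := by omega
    have hn2 : ¬ (a = 1 ∧ |c| = (b : ℤ) ^ 2) := by
      rintro ⟨_, h⟩
      rw [hb2] at h
      norm_num at h
      omega
    have := (bad_wf hb hab h5 e 1 (fun j => by
      rw [one_mul]; exact mu_wt hb hab hc e hn1 hn2 j)).2 ha1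
    omega
  · intro hs1 h5 hcb
    subst hs1
    have hn1 : ¬ (a = 1 ∧ |c| = (b : ℤ)) := by
      rintro ⟨_, h⟩
      rw [h] at hcb
      have h6 : (2 : ℤ) ≤ b := by omega
      nlinarith
    by_cases ha1 : a = 1
    · have := (bad_wf hb hab h5 e 2 (fun j => by
        by_cases hj : 6 ∣ j
        · rw [wt6 hj]; exact B3 hb hab hc e hj
        · rw [wt1 hj]; exact (B2 hb hab hc e hj hn1).trans (by norm_num))).2 ha1
      omega
    · have := (bad_wf hb hab h5 e 1 (fun j => by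
        rw [one_mul]; exact mu_wt hb hab hc e hn1 (fun h => ha1 h.1) j)).1
      omega
  · intro hs1 h5 hcb
    subst hs1
    have hn2 : ¬ (a = 1 ∧ |c| = (b : ℤ) ^ 2) := by
      rintro ⟨_, h⟩
      rw [hcb] at h
      have h6 : (2 : ℤ) ≤ b := by omega
      nlinarith
    by_cases ha1 : a = 1
    · have := (bad_wf hb hab h5 e 3 (fun j => by
        by_cases hj : 6 ∣ j
        · rw [wt6 hj]; exact (B4 hb hab hc e hj hn2).trans (by norm_num)
        · rw [wt1 hj]; exact B1 hb hab hc e hj)).2 ha1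
      omega
    · have := (bad_wf hb hab h5 e 1 (fun j => by
        rw [one_mul]; exact mu_wt hb hab hc e (fun h => ha1 h.1) hn2 j)).1
      omega
  · intro hs1 h2 hb3
    have he : e = 0 := by
      rcases hs with h | h
      · omega
      · exact h.2
    subst hs1; subst he
    have hn1 : ¬ (a = 1 ∧ |c| = (b : ℤ)) := by omega
    refine (bad_le b a c 0 (-1)).trans ?_
    have h1 : ∑ j ∈ Finset.range 12, mu b a c 0 (-1) j ≤
        ∑ j ∈ Finset.range 12, ((if 6 ∣ j then 1 else 0) +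
          (if !(decide (6 ∣ j)) && decide (tn (j * (a % 12) % 12) = 1) &&
            decide (tn (j * (b % 12) % 12) = 4) then 1 else 0)) := by
      refine Finset.sum_le_sum fun j _ => ?_
      by_cases hj : 6 ∣ j
      · rw [if_pos hj]
        exact (M3 hb hab (by omega) hj hn1).trans (by omega)
      · rcases Nat.eq_zero_or_pos (mu b a c 0 (-1) j) with h | h
        · rw [h]; exact Nat.zero_le _
        · have h0 := M0 hb hab (by omega) hj h
          rw [Nat.mul_mod_mod, Nat.mul_mod_mod, h0.2.1, h0.2.2]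
          have h3 := M1 hb hab (by omega : 2 ≤ |c|) hj
          rw [decide_eq_false hj]
          simp
          omega
    refine h1.trans ?_
    rw [Finset.sum_add_distrib]
    have h3 := of_chk W5 hv hu hok (show 0 < 1 by norm_num)
    rw [decide_eq_true_iff] at h3
    unfold wm at h3
    have h4 : ∑ j ∈ Finset.range 12, (if 6 ∣ j then 1 else 0) = 2 := by decide
    omega
  · intro hs1 h3 hn
    have he : e = 0 := by
      rcases hs with h | h
      · omega
      · exact h.2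
    subst hs1; subst he
    exact minus_le hb hab h3 1 fun j hj => M3 hb hab (by omega) hj hn
  · intro hs1 h3 _
    have he : e = 0 := by
      rcases hs with h | h
      · omega
      · exact h.2
    subst hs1; subst he
    exact minus_le hb hab h3 3 fun j hj => M2 hb hab (by omega) hj
  · intro h
    rcases hs with hs1 | hs1
    · subst hs1
      exact bad_zero hb c e h
    · exfalso
      rw [hs1.2, abs_zero] at h
      have := abs_nonneg c
      omega

end Pool.Agent.H589.Five
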