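import Pool.Agent.H589.Five.Spec

/-!
# The inequality from an auxiliary polynomial
-/

set_option autoImplicit false

open Polynomial Pool.Agent.H589.Pent

namespace Pool.Agent.H589.Five

/-- the complex polynomial -/
noncomputable abbrev cx (f : ℤ[X]) : ℂ[X] := f.map (Int.castRingHom ℂ)

lemma cx_ne_zero {f : ℤ[X]} (hf : f ≠ 0) : cx f ≠ 0 :=
  (Polynomial.map_ne_zero_iff (RingHom.injective_int _)).mpr hf

lemma cx_splits (f : ℤ[X]) : (cx f).Splits := IsAlgClosed.splits _

lemma cx_natDegree (f : ℤ[X]) : (cx f).natDegree = f.natDegree :=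
  natDegree_map_eq_of_injective (Int.cast_injective) f

lemma cx_lc (f : ℤ[X]) : (cx f).leadingCoeff = (f.leadingCoeff : ℂ) := by
  rw [cx, leadingCoeff_map_of_injective (RingHom.injective_int _)]; simp

lemma mem_roots_cx {f : ℤ[X]} (hf : f ≠ 0) {α : ℂ} : α ∈ (cx f).roots ↔ aeval α f = 0 := by
  rw [mem_roots (cx_ne_zero hf), IsRoot.def, eval_map, aeval_def]
  rfl

lemma big_pos {x : ℂ} (hx : x ≠ 0) : 0 < big x := by
  unfold big
  exact lt_of_lt_of_le (norm_pos_iff.mpr hx) (le_max_left _ _)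

lemma big_pow_eq (α : ℂ) (hα : α ≠ 0) (b : ℕ) :
    big (α ^ b) = (max 1 ‖α‖) ^ (2 * b) * (‖α‖ ^ b)⁻¹ := by
  have h0 : 0 < ‖α‖ := norm_pos_iff.mpr hα
  unfold big
  rw [norm_pow]
  rcases le_total 1 ‖α‖ with h | h
  · rw [max_eq_right h]
    have h1 : 1 ≤ ‖α‖ ^ b := one_le_pow₀ h
    have h2 : (‖α‖ ^ b)⁻¹ ≤ 1 := inv_le_one_of_one_le₀ h1
    rw [max_eq_left (h2.trans h1), two_mul, pow_add]
    field_simp
  · rw [max_eq_left h, one_pow, one_mul]
    have h1 : ‖α‖ ^ b ≤ 1 := pow_le_one₀ h0.le h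
    have h2 : 1 ≤ (‖α‖ ^ b)⁻¹ := (one_le_inv₀ (by positivity)).mpr h1
    rw [max_eq_right (h1.trans h2)]

/-- the product of the moduli of the zeros -/
lemma prod_norm_roots (p : ℤ[X]) (hlc : |p.leadingCoeff| = 1) (h0 : |p.coeff 0| = 1) :
    ((cx p).roots.map (fun α => ‖α‖)).prod = 1 := by
  have hs := cx_splits p
  have h1 : (cx p).eval 0 = (cx p).leadingCoeff * ((cx p).roots.map (fun α => 0 - α)).prod := by
    conv_lhs => rw [hs.eq_prod_roots]
    rw [eval_mul, eval_C, eval_multiset_prod, Multiset.map_map]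
    congr 2
    apply Multiset.map_congr rfl
    intro x _
    simp
  have h2 : ‖(cx p).eval 0‖ = 1 := by
    rw [← coeff_zero_eq_eval_zero, coeff_map, eq_intCast, Complex.norm_intCast]
    exact_mod_cast h0
  have h3 : ‖(cx p).leadingCoeff‖ = 1 := by
    rw [cx_lc, Complex.norm_intCast]
    exact_mod_cast hlc
  rw [h1, norm_mul, h3, one_mul] at h2
  rw [← h2]
  have h4 : ∀ s : Multiset ℂ, ‖(s.map (fun α => 0 - α)).prod‖ = (s.map (fun α => ‖α‖)).prod := by
    intro s
    induction s using Multiset.induction_on with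
    | empty => simp
    | cons a s ih =>
      simp only [Multiset.map_cons, Multiset.prod_cons, norm_mul]
      rw [ih]; simp
  rw [h4]

/-- the measure from the roots -/
lemma MM_eq (p : ℤ[X]) (hlc : |p.leadingCoeff| = 1) :
    MM p = ((cx p).roots.map (fun α => max 1 ‖α‖)).prod := by
  unfold MM
  rw [mahlerMeasure_eq_leadingCoeff_mul_prod_roots]
  have h3 : ‖(cx p).leadingCoeff‖ = 1 := by
    rw [cx_lc, Complex.norm_intCast]
    exact_mod_cast hlc
  change ‖(cx p).leadingCoeff‖ * _ = _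
  rw [h3, one_mul]

lemma prod_big (s : Multiset ℂ) (hs : ∀ α ∈ s, α ≠ 0) (b n : ℕ) :
    (s.map (fun α => big (α ^ b) ^ n)).prod =
      (s.map (fun α => max 1 ‖α‖)).prod ^ (2 * b * n) *
        ((s.map (fun α => ‖α‖)).prod ^ (b * n))⁻¹ := by
  induction s using Multiset.induction_on with
  | empty => simp
  | cons a s ih =>
    have ih' := ih (fun α hα => hs α (Multiset.mem_cons_of_mem hα))
    simp only [Multiset.map_cons, Multiset.prod_cons]
    rw [ih', big_pow_eq a (hs a (Multiset.mem_cons_self a s))]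
    rw [mul_pow, mul_pow, mul_pow, inv_pow, mul_inv, ← pow_mul, ← pow_mul]
    ring

/-- products of integer polynomials over the zeros -/
lemma one_le_prod_eval (p A : ℤ[X]) (hp : p ≠ 0) (hlc : |p.leadingCoeff| = 1)
    (hA : ∀ α ∈ (cx p).roots, aeval α A ≠ 0) :
    1 ≤ ((cx p).roots.map (fun α => ‖aeval α A‖)).prod := by
  have hs := cx_splits p
  have hmap : ((resultant p A p.natDegree A.natDegree : ℤ) : ℂ) =
      (cx p).leadingCoeff ^ A.natDegree * ((cx p).roots.map (cx A).eval).prod := by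
    have h1 : resultant (cx p) (cx A) (cx p).natDegree A.natDegree =
        (cx p).leadingCoeff ^ A.natDegree * ((cx p).roots.map (cx A).eval).prod := by
      apply resultant_eq_prod_eval _ _ _ _ hs
      rw [cx_natDegree]
    rw [← h1, cx_natDegree]
    exact (resultant_map_map p A p.natDegree A.natDegree (Int.castRingHom ℂ)).symm
  have h3 : ‖(cx p).leadingCoeff‖ = 1 := by
    rw [cx_lc, Complex.norm_intCast]
    exact_mod_cast hlc
  have hev : ∀ α : ℂ, (cx A).eval α = aeval α A := by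
    intro α
    rw [eval_map, aeval_def]; rfl
  have h4 : ∀ s : Multiset ℂ, ‖(s.map (cx A).eval).prod‖ =
      (s.map (fun α => ‖aeval α A‖)).prod := by
    intro s
    induction s using Multiset.induction_on with
    | empty => simp
    | cons a s ih =>
      simp only [Multiset.map_cons, Multiset.prod_cons, norm_mul]
      rw [ih, hev]
  have hne : ((resultant p A p.natDegree A.natDegree : ℤ) : ℂ) ≠ 0 := by
    rw [hmap]
    apply mul_ne_zero
    · exact pow_ne_zero _ (leadingCoeff_ne_zero.mpr (cx_ne_zero hp))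
    · apply Multiset.prod_ne_zero
      intro h
      rw [Multiset.mem_map] at h
      obtain ⟨α, hα, h⟩ := h
      rw [hev] at h
      exact hA α hα h
  have hge : 1 ≤ ‖((resultant p A p.natDegree A.natDegree : ℤ) : ℂ)‖ := by
    rw [Complex.norm_intCast]
    have : resultant p A p.natDegree A.natDegree ≠ 0 := by exact_mod_cast hne
    exact_mod_cast Int.one_le_abs this
  rw [hmap, norm_mul, norm_pow, h3, one_pow, one_mul, h4] at hge
  exact hge

/-- the auxiliary integer polynomial `x^(aD) Q(x^a + s x^(-a))` -/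
noncomputable def homog (a : ℕ) (s : ℤ) (Q : ℤ[X]) : ℤ[X] :=
  ∑ i ∈ Finset.range (Q.natDegree + 1),
    C (Q.coeff i) * (X ^ (2 * a) + C s) ^ i * X ^ (a * (Q.natDegree - i))

lemma aeval_homog (a : ℕ) (s : ℤ) (Q : ℤ[X]) (α : ℂ) (hα : α ≠ 0) :
    aeval α (homog a s Q) =
      α ^ (a * Q.natDegree) * aeval (α ^ a + (s : ℂ) * (α ^ a)⁻¹) Q := by
  unfold homog
  rw [map_sum, aeval_eq_sum_range, Finset.mul_sum]
  apply Finset.sum_congr rfl
  intro i hi
  have hi' : i ≤ Q.natDegree := by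
    have := Finset.mem_range.mp hi; omega
  simp only [map_mul, map_pow, map_add, aeval_X, aeval_C, eq_intCast, map_intCast]
  rw [zsmul_eq_mul]
  have hne : α ^ a ≠ 0 := pow_ne_zero _ hα
  have e1 : α ^ (2 * a) + (s : ℂ) = α ^ a * (α ^ a + (s : ℂ) * (α ^ a)⁻¹) := by
    rw [mul_add]
    rw [show α ^ a * ((s : ℂ) * (α ^ a)⁻¹) = (s : ℂ) * (α ^ a * (α ^ a)⁻¹) by ring]
    rw [mul_inv_cancel₀ hne, mul_one, ← pow_add]
    congr 2; ring
  rw [e1, mul_pow, ← pow_mul]
  have e2 : α ^ (a * Q.natDegree) = α ^ (a * i) * α ^ (a * (Q.natDegree - i)) := by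
    rw [← pow_add]; congr 1
    rw [← mul_add]; congr 1; omega
  rw [e2]
  ring

/-- the conditions at the zeros -/
def Cond (b a : ℕ) (s : ℤ) (Q : ℤ[X]) (K : ℝ) (n : ℕ) (α : ℂ) : Prop :=
  α ≠ 0 ∧ K * ‖aeval (α ^ a + (s : ℂ) * (α ^ a)⁻¹) Q‖ ≤ big (α ^ b) ^ n ∧
  (aeval (α ^ a + (s : ℂ) * (α ^ a)⁻¹) Q = 0 → K ≤ big (α ^ b) ^ n)

lemma prod_le_prod_of_le (s : Multiset ℂ) (f g : ℂ → ℝ) (hf : ∀ x ∈ s, 0 ≤ f x)
    (h : ∀ x ∈ s, f x ≤ g x) : (s.map f).prod ≤ (s.map g).prod := by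
  induction s using Multiset.induction_on with
  | empty => simp
  | cons a s ih =>
    simp only [Multiset.map_cons, Multiset.prod_cons]
    have h1 := ih (fun x hx => hf x (Multiset.mem_cons_of_mem hx))
      (fun x hx => h x (Multiset.mem_cons_of_mem hx))
    have h2 : 0 ≤ (s.map f).prod := by
      apply Multiset.prod_nonneg
      intro x hx
      rw [Multiset.mem_map] at hx
      obtain ⟨y, hy, rfl⟩ := hx
      exact hf y (Multiset.mem_cons_of_mem hy)
    have h3 := hf a (Multiset.mem_cons_self a s)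
    have h4 := h a (Multiset.mem_cons_self a s)
    exact mul_le_mul h4 h1 h2 (h3.trans h4)

lemma prod_const_mul (s : Multiset ℂ) (K : ℝ) (f : ℂ → ℝ) :
    (s.map (fun x => K * f x)).prod = K ^ s.card * (s.map f).prod := by
  induction s using Multiset.induction_on with
  | empty => simp
  | cons a s ih =>
    simp only [Multiset.map_cons, Multiset.prod_cons, Multiset.card_cons]
    rw [ih, pow_succ]; ring

lemma irred_bound (b a : ℕ) (s : ℤ) (Q : ℤ[X]) (K : ℝ) (n : ℕ) (hK : 1 ≤ K) (p : ℤ[X])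
    (hp : Irreducible p) (hlc : |p.leadingCoeff| = 1) (h0 : |p.coeff 0| = 1)
    (hc : ∀ α : ℂ, aeval α p = 0 → Cond b a s Q K n α) :
    K ^ p.natDegree ≤ MM p ^ (2 * b * n) := by
  have hp0 : p ≠ 0 := hp.ne_zero
  have hK0 : 0 ≤ K := by linarith
  have hcard : (cx p).roots.card = p.natDegree := by
    rw [← (cx_splits p).natDegree_eq_card_roots, cx_natDegree]
  have hroot : ∀ α ∈ (cx p).roots, Cond b a s Q K n α := fun α hα =>
    hc α ((mem_roots_cx hp0).mp hα)
  have hbig : ((cx p).roots.map (fun α => big (α ^ b) ^ n)).prod = MM p ^ (2 * b * n) := by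
    rw [prod_big _ (fun α hα => (hroot α hα).1), prod_norm_roots p hlc h0, one_pow, inv_one,
      mul_one, ← MM_eq p hlc]
  rw [← hbig]
  by_cases hex : ∃ α ∈ (cx p).roots, aeval α (homog a s Q) = 0
  · -- all zeros of `p` are zeros of the auxiliary polynomial
    obtain ⟨α, hα, hα0⟩ := hex
    have hαp : aeval α p = 0 := (mem_roots_cx hp0).mp hα
    have hdvd : p ∣ homog a s Q := by
      -- `p` or `-p` is monic and irreducible
      have hu : ∃ q : ℤ[X], q.Monic ∧ Irreducible q ∧ aeval α q = 0 ∧ p ∣ q ∧ q ∣ p := by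
        rcases (abs_eq (by norm_num : (0:ℤ) ≤ 1)).mp hlc with h | h
        · exact ⟨p, h, hp, hαp, dvd_rfl, dvd_rfl⟩
        · refine ⟨-p, ?_, (Associated.refl p).neg_right.irreducible hp, ?_, ?_, ?_⟩
          · unfold Monic; rw [leadingCoeff_neg, h]; norm_num
          · rw [map_neg, hαp, neg_zero]
          · exact (dvd_neg).mpr dvd_rfl
          · exact (neg_dvd).mpr dvd_rfl
      obtain ⟨q, hqm, hqi, hq0, hpq, hqp⟩ := hu
      have hint : IsIntegral ℤ α := ⟨q, hqm, by rwa [← aeval_def]⟩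
      have h1 : minpoly ℤ α ∣ q := minpoly.isIntegrallyClosed_dvd hint hq0
      have h2 : minpoly ℤ α ∣ homog a s Q := minpoly.isIntegrallyClosed_dvd hint hα0
      have h3 : Associated (minpoly ℤ α) q :=
        (hqi.dvd_iff.mp h1).resolve_left (minpoly.not_isUnit ℤ α) |>.symm
      exact hpq.trans (h3.symm.dvd.trans h2)
    have hall : ∀ β ∈ (cx p).roots, K ≤ big (β ^ b) ^ n := by
      intro β hβ
      obtain ⟨hβ0, _, h3⟩ := hroot β hβ
      apply h3
      have h4 : aeval β (homog a s Q) = 0 := by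
        obtain ⟨r, hr⟩ := hdvd
        rw [hr, map_mul, (mem_roots_cx hp0).mp hβ, zero_mul]
      rw [aeval_homog a s Q β hβ0] at h4
      exact (mul_eq_zero.mp h4).resolve_left (pow_ne_zero _ hβ0)
    have h5 := prod_le_prod_of_le (cx p).roots (fun _ => K) (fun α => big (α ^ b) ^ n)
      (fun _ _ => hK0) hall
    rw [Multiset.map_const', Multiset.prod_replicate, hcard] at h5
    exact h5
  · push Not at hex
    have h1 := one_le_prod_eval p (homog a s Q) hp0 hlc hex
    have h2 : ((cx p).roots.map (fun α => ‖aeval α (homog a s Q)‖)).prod =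
        ((cx p).roots.map (fun α => ‖aeval (α ^ a + (s : ℂ) * (α ^ a)⁻¹) Q‖)).prod := by
      have h3 : (cx p).roots.map (fun α => ‖aeval α (homog a s Q)‖) =
          (cx p).roots.map (fun α => ‖α‖ ^ (a * Q.natDegree) *
            ‖aeval (α ^ a + (s : ℂ) * (α ^ a)⁻¹) Q‖) := by
        apply Multiset.map_congr rfl
        intro α hα
        rw [aeval_homog a s Q α (hroot α hα).1, norm_mul, norm_pow]
      rw [h3, Multiset.prod_map_mul, Multiset.prod_map_pow, prod_norm_roots p hlc h0, one_pow,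
        one_mul]
    rw [h2] at h1
    have h4 := prod_le_prod_of_le (cx p).roots
      (fun α => K * ‖aeval (α ^ a + (s : ℂ) * (α ^ a)⁻¹) Q‖) (fun α => big (α ^ b) ^ n)
      (fun α _ => by positivity) (fun α hα => (hroot α hα).2.1)
    rw [prod_const_mul, hcard] at h4
    calc K ^ p.natDegree = K ^ p.natDegree * 1 := by ring
      _ ≤ K ^ p.natDegree *
          ((cx p).roots.map (fun α => ‖aeval (α ^ a + (s : ℂ) * (α ^ a)⁻¹) Q‖)).prod :=
          mul_le_mul_of_nonneg_left h1 (by positivity)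
      _ ≤ _ := h4

lemma abs_mul_eq_one {x y : ℤ} (h : |x * y| = 1) : |x| = 1 ∧ |y| = 1 := by
  rw [abs_mul] at h
  have hx := abs_nonneg x
  have hy := abs_nonneg y
  constructor
  · exact Int.eq_one_of_mul_eq_one_right hx h
  · rw [mul_comm] at h
    exact Int.eq_one_of_mul_eq_one_right hy h

lemma good_bound (b a : ℕ) (s : ℤ) (Q : ℤ[X]) (K : ℝ) (n : ℕ) (hK : 1 ≤ K) (g : ℤ[X])
    (hg0 : g ≠ 0) : |g.leadingCoeff| = 1 → |g.coeff 0| = 1 →
    (∀ α : ℂ, aeval α g = 0 → Cond b a s Q K n α) →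
    K ^ g.natDegree ≤ MM g ^ (2 * b * n) := by
  induction g using WfDvdMonoid.induction_on_irreducible with
  | zero => exact absurd rfl hg0
  | unit u hu =>
    intro hlc _ _
    have h1 : u.natDegree = 0 := natDegree_eq_zero_of_isUnit hu
    rw [h1, pow_zero]
    apply one_le_pow₀
    rw [MM_eq u hlc]
    exact one_le_prod_max_one_norm_roots _
  | mul g i hg hi ih =>
    intro hlc hc0 hc
    rw [leadingCoeff_mul] at hlc
    rw [mul_coeff_zero] at hc0
    obtain ⟨h1, h2⟩ := abs_mul_eq_one hlc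
    obtain ⟨h3, h4⟩ := abs_mul_eq_one hc0
    have h5 := irred_bound b a s Q K n hK i hi h1 h3
      (fun α hα => hc α (by rw [map_mul, hα, zero_mul]))
    have h6 := ih hg h2 h4 (fun α hα => hc α (by rw [map_mul, hα, mul_zero]))
    rw [natDegree_mul hi.ne_zero hg, pow_add, MM_mul, mul_pow]
    apply mul_le_mul h5 h6 (by positivity)
    exact pow_nonneg (MM_nonneg _) _

/-- splitting off the zeros which are `12`-th roots of unity -/
lemma split12 (N : ℕ) : ∀ F : ℤ[X], F ≠ 0 → F.natDegree ≤ N → ∃ g h : ℤ[X], F = g * h ∧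
    (∀ α : ℂ, aeval α g = 0 → α ^ 12 ≠ 1) ∧ (∀ α : ℂ, aeval α h = 0 → α ^ 12 = 1) := by
  induction N with
  | zero =>
    intro F hF hN
    refine ⟨F, 1, by ring, ?_, by simp⟩
    intro α hα
    have h1 : F = C (F.coeff 0) := eq_C_of_natDegree_le_zero hN
    rw [h1, aeval_C] at hα
    exfalso
    apply hF
    rw [h1]
    have : (F.coeff 0) = 0 := by simpa using hα
    rw [this, C_0]
  | succ N ih =>
    intro F hF hN
    by_cases hno : ∀ α : ℂ, aeval α F = 0 → α ^ 12 ≠ 1
    · exact ⟨F, 1, by ring, hno, by simp⟩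
    · push Not at hno
      obtain ⟨α, hα, hα12⟩ := hno
      have hint : IsIntegral ℤ α := by
        refine ⟨X ^ 12 - 1, monic_X_pow_sub_C 1 (by norm_num), ?_⟩
        simp [hα12]
      have hd : minpoly ℤ α ∣ F := minpoly.isIntegrallyClosed_dvd hint hα
      have hd12 : minpoly ℤ α ∣ X ^ 12 - 1 :=
        minpoly.isIntegrallyClosed_dvd hint (by simp [hα12])
      obtain ⟨F1, hF1⟩ := hd
      have hF10 : F1 ≠ 0 := by
        rintro rfl; rw [mul_zero] at hF1; exact hF hF1
      have hm0 : minpoly ℤ α ≠ 0 := (minpoly.monic hint).ne_zero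
      have hdeg : F.natDegree = (minpoly ℤ α).natDegree + F1.natDegree := by
        rw [hF1, natDegree_mul hm0 hF10]
      have hmp : 0 < (minpoly ℤ α).natDegree := minpoly.natDegree_pos hint
      obtain ⟨g, h, hgh, h1, h2⟩ := ih F1 hF10 (by omega)
      refine ⟨g, minpoly ℤ α * h, by rw [hF1, hgh]; ring, h1, ?_⟩
      intro β hβ
      rw [map_mul] at hβ
      rcases mul_eq_zero.mp hβ with h | h
      · obtain ⟨r, hr⟩ := hd12
        have h3 : aeval β (X ^ 12 - 1 : ℤ[X]) = 0 := by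
          rw [hr, map_mul, h, zero_mul]
        simp only [map_sub, map_pow, aeval_X, map_one] at h3
        exact sub_eq_zero.mp h3
      · exact h2 β h

lemma natDegree_le_bad (F g h : ℤ[X]) (hF : F ≠ 0) (hgh : F = g * h)
    (h12 : ∀ α : ℂ, aeval α h = 0 → α ^ 12 = 1) : h.natDegree ≤ bad F := by
  classical
  have hh : h ≠ 0 := by rintro rfl; rw [mul_zero] at hgh; exact hF hgh
  have hcard : (cx h).roots.card = h.natDegree := by
    rw [← (cx_splits h).natDegree_eq_card_roots, cx_natDegree]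
  rw [← hcard, ← Multiset.toFinset_sum_count_eq]
  unfold bad
  have h1 : ∀ α ∈ (cx h).roots.toFinset, (cx h).roots.count α ≤
      (F.map (Int.castRingHom ℂ)).rootMultiplicity α := by
    intro α _
    rw [count_roots]
    have hcF : (F.map (Int.castRingHom ℂ)) ≠ 0 := cx_ne_zero hF
    have h2 : (F.map (Int.castRingHom ℂ)) = cx g * cx h := by
      rw [hgh, Polynomial.map_mul]
    rw [h2] at hcF ⊢
    rw [rootMultiplicity_mul hcF]
    omega
  refine (Finset.sum_le_sum h1).trans ?_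
  apply Finset.sum_le_sum_of_subset
  intro α hα
  rw [Multiset.mem_toFinset] at hα ⊢
  rw [mem_nthRoots (by norm_num)]
  exact h12 α ((mem_roots_cx hh).mp hα)

/-- the core inequality -/
theorem core (F : ℤ[X]) (hF : F ≠ 0) (hlc : |F.leadingCoeff| = 1) (h0 : |F.coeff 0| = 1)
    (b a : ℕ) (s : ℤ) (K : ℝ) (n : ℕ) (hK : 1 ≤ K) (Q : ℤ[X])
    (hQ : ∀ α : ℂ, α ≠ 0 → aeval α F = 0 → Pt b a s Q K n α) :
    K ^ F.natDegree ≤ K ^ bad F * MM F ^ (2 * b * n) := by
  obtain ⟨g, h, hgh, hg, hh⟩ := split12 F.natDegree F hF le_rfl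
  have hbad := natDegree_le_bad F g h hF hgh hh
  have hg0 : g ≠ 0 := by rintro rfl; rw [zero_mul] at hgh; exact hF hgh
  have hh0 : h ≠ 0 := by rintro rfl; rw [mul_zero] at hgh; exact hF hgh
  have hlc' := hlc
  have h0' := h0
  rw [hgh, leadingCoeff_mul] at hlc'
  rw [hgh, mul_coeff_zero] at h0'
  obtain ⟨h1, h2⟩ := abs_mul_eq_one hlc'
  obtain ⟨h3, h4⟩ := abs_mul_eq_one h0'
  have hroot0 : ∀ α : ℂ, aeval α F = 0 → α ≠ 0 := by
    rintro α hα rfl
    have h5 : (F.coeff 0 : ℂ) = 0 := by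
      rw [← hα, aeval_def, eval₂_at_zero]; simp
    have h6 : F.coeff 0 = 0 := by exact_mod_cast h5
    rw [h6] at h0
    norm_num at h0
  have hcond : ∀ α : ℂ, aeval α g = 0 → Cond b a s Q K n α := by
    intro α hα
    have hαF : aeval α F = 0 := by rw [hgh, map_mul, hα, zero_mul]
    have hα0 := hroot0 α hαF
    obtain ⟨h5, h6⟩ := hQ α hα0 hαF
    refine ⟨hα0, h5, ?_⟩
    intro h7
    exact (h6 h7).resolve_right (hg α hα)
  have h5 := good_bound b a s Q K n hK g hg0 h1 h3 hcond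
  have hM1 : 1 ≤ MM h := by
    rw [MM_eq h h2]
    exact one_le_prod_max_one_norm_roots _
  have h6 : MM g ≤ MM F := by
    rw [hgh, MM_mul]
    have := MM_nonneg g
    nlinarith
  have h7 : MM g ^ (2 * b * n) ≤ MM F ^ (2 * b * n) := pow_le_pow_left₀ (MM_nonneg _) h6 _
  have h8 : F.natDegree = h.natDegree + g.natDegree := by
    rw [hgh, natDegree_mul hg0 hh0]; ring
  rw [h8, pow_add]
  apply mul_le_mul _ (h5.trans h7) (by positivity) (by positivity)
  exact pow_le_pow_right₀ hK hbad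

/-- the numerical conclusion -/
lemma final (F : ℤ[X]) (b n N b0 : ℕ) (K r : ℝ) (hK : 1 ≤ K) (hb : 1 ≤ b) (hn : 1 ≤ n)
    (hdeg : F.natDegree = 2 * b)
    (hcore : K ^ F.natDegree ≤ K ^ bad F * MM F ^ (2 * b * n)) (hN : bad F ≤ N)
    (hr1 : 1 ≤ r) (hr : (36 / 25) ^ n * r ≤ K ^ 2) (hb0 : K ^ N ≤ r ^ b0) (hbb : b0 ≤ b) :
    6 / 5 ≤ MM F := by
  by_contra hcon
  push Not at hcon
  have hM0 := MM_nonneg F
  have h1 : MM F ^ (2 * b * n) < (6 / 5) ^ (2 * b * n) :=
    pow_lt_pow_left₀ hcon hM0 (by positivity)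
  have h2 : K ^ bad F ≤ K ^ N := pow_le_pow_right₀ hK hN
  have hK0 : 0 < K := by linarith
  rw [hdeg] at hcore
  have h3 : K ^ (2 * b) < K ^ N * (6 / 5) ^ (2 * b * n) := by
    calc K ^ (2 * b) ≤ K ^ bad F * MM F ^ (2 * b * n) := hcore
      _ ≤ K ^ N * MM F ^ (2 * b * n) := mul_le_mul_of_nonneg_right h2 (pow_nonneg hM0 _)
      _ < K ^ N * (6 / 5) ^ (2 * b * n) := mul_lt_mul_of_pos_left h1 (by positivity)
  have h4 : K ^ N ≤ r ^ b := hb0.trans (pow_le_pow_right₀ hr1 hbb)
  have h5 : ((6 / 5 : ℝ)) ^ (2 * b * n) = ((36 / 25) ^ n) ^ b := by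
    rw [← pow_mul, show 2 * b * n = 2 * (n * b) by ring, pow_mul]
    norm_num
  have h6 : K ^ (2 * b) = (K ^ 2) ^ b := by rw [pow_mul]
  have h7 : ((36 / 25 : ℝ) ^ n * r) ^ b ≤ (K ^ 2) ^ b := pow_le_pow_left₀ (by positivity) hr b
  rw [mul_pow] at h7
  rw [h5, h6] at h3
  have h8 : K ^ N * ((36 / 25 : ℝ) ^ n) ^ b ≤ r ^ b * ((36 / 25 : ℝ) ^ n) ^ b :=
    mul_le_mul_of_nonneg_right h4 (by positivity)
  linarith

end Pool.Agent.H589.Five
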