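import Pool.Agent.H589.Five.Spec

/-!
# The small cases of Lehmer's inequality for `quint`
-/

set_option autoImplicit false

open Polynomial Pool.Agent.H589.Pent

namespace Pool.Agent.H589.Five.fin_

lemma toP_append (l m : List ℤ) : toP (l ++ m) = toP l + X ^ l.length * toP m := by
  induction l with
  | nil => simp [toP]
  | cons a l ih =>
    simp only [List.cons_append, toP, ih, List.length_cons]
    ring

lemma toP_zeros (n : ℕ) : toP (List.replicate n 0) = 0 := by
  induction n with
  | zero => rfl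
  | succ n ih => simp [List.replicate_succ, toP, ih]

/-- the coefficients of `quint` -/
def quintL (b a : ℕ) (c e s : ℤ) : List ℤ :=
  (s :: List.replicate (b - a - 1) 0) ++ ((s * c) :: List.replicate (a - 1) 0) ++
  (e :: List.replicate (a - 1) 0) ++ (c :: List.replicate (b - a - 1) 0) ++ [1]

lemma toP_quintL (b a : ℕ) (ha : 1 ≤ a) (hab : a < b) (c e s : ℤ) :
    toP (quintL b a c e s) = quint b a c e s := by
  unfold quintL quint
  simp only [toP_append, toP, toP_zeros, List.length_append, List.length_cons,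
    List.length_replicate, mul_zero, add_zero]
  have e1 : b - a - 1 + 1 = b - a := by omega
  have e2 : a - 1 + 1 = a := by omega
  rw [e1, e2]
  have e3 : b - a + a = b := by omega
  have e4 : b - a + a + a = b + a := by omega
  have e5 : b - a + a + a + (b - a) = 2 * b := by omega
  rw [e5, e4, e3]
  simp only [map_one]
  ring

/-- one of the coefficients is large after `n` steps -/
def big (n : ℕ) (m : List ℤ) : Bool :=
  (List.range m.length).any fun k => decide (k < m.length ∧
    ((m.length - 1).choose k) * 6 ^ (2 ^ n) ≤ (m.getD k 0).natAbs * 5 ^ (2 ^ n))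

/-- the Graeffe iteration is constant up to sign -/
def fix (m : List ℤ) : Bool := decide (gr m = m) || decide (gr m = smulL (-1) m)

/-- the search for a certificate -/
def srch : ℕ → ℕ → List ℤ → Bool
  | 0, _, _ => false
  | f + 1, n, m => big n m || fix m || srch f (n + 1) (gr m)

lemma grN_succ' (n : ℕ) (l : List ℤ) : grN (n + 1) l = gr (grN n l) := by
  induction n generalizing l with
  | zero => rfl
  | succ n ih =>
    show grN (n + 1) (gr l) = gr (grN n (gr l))
    exact ih (gr l)

lemma big_sound (n : ℕ) (l : List ℤ) (h : big n (grN n l) = true) : 6 / 5 ≤ MM (toP l) := by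
  unfold big at h
  rw [List.any_eq_true] at h
  obtain ⟨k, -, hk⟩ := h
  exact cert_sound n k l hk

lemma one_le_MM (f : ℤ[X]) (hf : f ≠ 0) : 1 ≤ MM f := one_le_mahlerMeasure_of_ne_zero hf

lemma MM_neg (f : ℤ[X]) : MM (-f) = MM f := by
  unfold MM
  rw [Polynomial.map_neg]
  have : -(f.map (Int.castRingHom ℂ)) = C (-1) * f.map (Int.castRingHom ℂ) := by simp
  rw [this, mahlerMeasure_mul, mahlerMeasure_const]
  simp

lemma fix_sound (n : ℕ) (l : List ℤ) (hl : toP l ≠ 0) (h : fix (grN n l) = true) :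
    MM (toP l) = 1 := by
  have h1 : 1 ≤ MM (toP l) := one_le_MM _ hl
  have h2 := MM_grN n l
  have h3 : MM (toP (gr (grN n l))) = MM (toP (grN n l)) := by
    unfold fix at h
    rw [Bool.or_eq_true, decide_eq_true_eq, decide_eq_true_eq] at h
    rcases h with h | h
    · rw [h]
    · rw [h, toP_smul]
      have : (C (-1 : ℤ) : ℤ[X]) * toP (grN n l) = -toP (grN n l) := by simp
      rw [this, MM_neg]
  rw [MM_gr, h2] at h3
  have h4 : 1 ≤ MM (toP l) ^ (2 ^ n) := one_le_pow₀ h1
  have h5 : MM (toP l) ^ (2 ^ n) = 1 := by nlinarith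
  exact (pow_eq_one_iff_of_nonneg (by linarith) (by positivity)).1 h5

lemma srch_sound (f n : ℕ) (l : List ℤ) (hl : toP l ≠ 0) (h : srch f n (grN n l) = true) :
    MM (toP l) = 1 ∨ 6 / 5 ≤ MM (toP l) := by
  induction f generalizing n with
  | zero => simp [srch] at h
  | succ f ih =>
    simp only [srch, Bool.or_eq_true] at h
    rcases h with (h | h) | h
    · exact Or.inr (big_sound n l h)
    · exact Or.inl (fix_sound n l hl h)
    · apply ih (n + 1)
      rw [grN_succ']
      exact h

lemma quint_ne_zero (b a : ℕ) (hab : a < b) (c e s : ℤ) (hs : s = 1 ∨ s = -1) :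
    quint b a c e s ≠ 0 := by
  intro h
  have h1 := congrArg (fun f : ℤ[X] => f.eval 0) h
  unfold quint at h1
  have e1 : b ≠ 0 := by omega
  have e2 : b - a ≠ 0 := by omega
  have e3 : b + a ≠ 0 := by omega
  simp [e1, e2] at h1
  omega

/-- the range -/
def inR (b a : ℕ) (c e s : ℤ) : Bool :=
  decide (1 ≤ a) && decide (a < b) && decide (Nat.gcd a b = 1) && decide (c ≠ 0) &&
  decide (s = 1 ∨ (s = -1 ∧ e = 0)) && decide (e.natAbs ≤ 2 * c.natAbs + 2) &&
  decide ((s = 1 ∧ c.natAbs = 1 ∧ e.natAbs = 2 ∧ b ≤ 5) ∨ (s = 1 ∧ c.natAbs = 2 ∧ b ≤ 6) ∨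
    (s = 1 ∧ c.natAbs = 3 ∧ b ≤ 3) ∨ (s = 1 ∧ c.natAbs = 4 ∧ a = 1 ∧ (b = 2 ∨ b = 4)) ∨
    (s = -1 ∧ c.natAbs = 2 ∧ b ≤ 6) ∨ (s = -1 ∧ c.natAbs = 3 ∧ b = 3 ∧ a = 1) ∨
    (s = -1 ∧ c.natAbs = 4 ∧ b = 4 ∧ a = 1))

/-- all cases -/
def okAll : Bool :=
  (List.range 7).all fun b => (List.range 7).all fun a =>
    (List.range 9).all fun c => (List.range 21).all fun e => ([1, -1] : List ℤ).all fun s =>
      !(inR b a ((c : ℤ) - 4) ((e : ℤ) - 10) s) ||
        srch 5 0 (quintL b a ((c : ℤ) - 4) ((e : ℤ) - 10) s)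

theorem okAll_true : okAll = true := by decide +kernel

end Pool.Agent.H589.Five.fin_

namespace Pool.Agent.H589.Five

open fin_ in
theorem fin : S_Fin := by
  rintro b a c e s ⟨ha, hab, hco, hc, hs⟩ he hcase
  simp only [Int.abs_eq_natAbs] at he hcase
  norm_cast at he hcase
  have hb6 : b ≤ 6 ∧ c.natAbs ≤ 4 := by
    rcases hcase with h | h | h | h | h | h | h <;> omega
  have hs' : s = 1 ∨ s = -1 := by tauto
  have hR : inR b a c e s = true := by
    unfold inR
    simp only [Bool.and_eq_true, decide_eq_true_eq]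
    exact ⟨⟨⟨⟨⟨⟨ha, hab⟩, hco⟩, hc⟩, hs⟩, he⟩, hcase⟩
  obtain ⟨hb6, hc4⟩ := hb6
  clear hcase
  have h := okAll_true
  unfold okAll at h
  have h1 := (List.all_eq_true.mp h) b (List.mem_range.mpr (by omega))
  have h2 := (List.all_eq_true.mp h1) a (List.mem_range.mpr (by omega))
  have h3 := (List.all_eq_true.mp h2) (c + 4).toNat (List.mem_range.mpr (by omega))
  have h4 := (List.all_eq_true.mp h3) (e + 10).toNat (List.mem_range.mpr (by omega))
  have h5 := (List.all_eq_true.mp h4) s (by rcases hs' with rfl | rfl <;> simp)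
  have ec : (((c + 4).toNat : ℕ) : ℤ) - 4 = c := by omega
  have ee : (((e + 10).toNat : ℕ) : ℤ) - 10 = e := by omega
  rw [ec, ee, hR] at h5
  simp only [Bool.not_true, Bool.false_or] at h5
  have h6 := srch_sound 5 0 (quintL b a c e s) (by
    rw [toP_quintL b a ha hab]
    exact quint_ne_zero b a hab c e s hs') h5
  rwa [toP_quintL b a ha hab] at h6

end Pool.Agent.H589.Five

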