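import Pool.Agent.H589.Five.Assemble
import Pool.Agent.H589.Five.AuxA
import Pool.Agent.H589.Five.AuxB
import Pool.Agent.H589.Five.Cnt
import Pool.Agent.H589.Five.Fin
import Pool.Agent.H589.Five.Cls
import Pool.Agent.H589.Pent.Sharp

/-!
# Lehmer's inequality for the integer polynomials with at most five nonzero coefficients
-/

set_option autoImplicit false

open Polynomial Pool.Agent.H589.Pent

namespace Pool.Agent.H589.Five

theorem good_five_terms (f : ℤ[X]) (hf : f ≠ 0) (h : f.support.card ≤ 5) :
    MM f = 1 ∨ MM f = MM lehmer ∨ 6 / 5 ≤ MM f :=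
  cls (MM lehmer) (quint_good auxA auxB cnt fin) f hf h

theorem good_five_mul (f g : ℤ[X]) (hf : f ≠ 0) (hg : MM g = 1) (h : (f * g).support.card ≤ 5) :
    MM f = 1 ∨ MM f = MM lehmer ∨ 6 / 5 ≤ MM f := by
  have hg0 : g ≠ 0 := by
    rintro rfl
    unfold MM at hg
    simp at hg
  have h1 := good_five_terms (f * g) (mul_ne_zero hf hg0) h
  rw [MM_mul, hg, mul_one] at h1
  exact h1

lemma card_lehmer_mul : (lehmer * (X ^ 2 - X + 1)).support.card = 5 := by
  have h : (lehmer * (X ^ 2 - X + 1)).support = {0, 5, 6, 7, 12} := by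
    ext i
    rw [mem_support_iff, lehmer_mul]
    simp only [coeff_add, coeff_sub, coeff_X_pow, coeff_one, Finset.mem_insert,
      Finset.mem_singleton]
    constructor
    · intro h
      by_contra hcon
      push Not at hcon
      obtain ⟨h0, h5, h6, h7, h12⟩ := hcon
      apply h
      rw [if_neg h12, if_neg h7, if_neg h6, if_neg h5, if_neg h0]
      ring
    · rintro (rfl | rfl | rfl | rfl | rfl) <;> norm_num
  rw [h]
  decide

end Pool.Agent.H589.Five
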