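import Pool.Agent.H589.Pent.Sharp

/-!
# The Mahler measure of Lehmer's polynomial is its real root above one
-/

set_option autoImplicit false

open Polynomial Pool.Agent.H589.Pent

namespace Pool.Agent.H589.Five

/-- the trace polynomial of Lehmer's polynomial -/
noncomputable def tp : ℝ[X] := X ^ 5 + X ^ 4 - 5 * X ^ 3 - 5 * X ^ 2 + 4 * X + 3

lemma eval_tp (y : ℝ) : tp.eval y = y ^ 5 + y ^ 4 - 5 * y ^ 3 - 5 * y ^ 2 + 4 * y + 3 := by
  unfold tp
  simp

lemma tp_root {a b : ℝ} (hab : a ≤ b) (h : tp.eval a * tp.eval b < 0) :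
    ∃ y, a < y ∧ y < b ∧ tp.eval y = 0 := by
  have hc : ContinuousOn (fun y => tp.eval y) (Set.Icc a b) := tp.continuous.continuousOn
  rcases mul_neg_iff.mp h with ⟨h1, h2⟩ | ⟨h1, h2⟩
  · obtain ⟨y, hy, hy0⟩ := intermediate_value_Ioo' hab hc ⟨h2, h1⟩
    exact ⟨y, hy.1, hy.2, hy0⟩
  · obtain ⟨y, hy, hy0⟩ := intermediate_value_Ioo hab hc ⟨h1, h2⟩
    exact ⟨y, hy.1, hy.2, hy0⟩

lemma tp_natDegree : tp.natDegree = 5 := by
  unfold tp
  compute_degree!

lemma tp_monic : tp.Monic := by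
  rw [Monic, leadingCoeff, tp_natDegree]
  unfold tp
  have h1 : (5 : ℝ[X]) = C 5 := rfl
  have h3 : (4 : ℝ[X]) = C 4 := rfl
  have h4 : (3 : ℝ[X]) = C 3 := rfl
  rw [h1, h3, h4]
  simp only [coeff_add, coeff_sub, coeff_C_mul, coeff_X_pow, coeff_C, coeff_X]
  norm_num

lemma tp_factor : ∃ y : Fin 5 → ℝ, (∀ i, i ≠ 4 → |y i| ≤ 2) ∧ 2 < y 4 ∧
    tp = ∏ i, (X - C (y i)) := by
  obtain ⟨y0, a0, b0, h0⟩ := tp_root (a := -2) (b := -9/5) (by norm_num)
    (by rw [eval_tp, eval_tp]; norm_num)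
  obtain ⟨y1, a1, b1, h1⟩ := tp_root (a := -3/2) (b := -1) (by norm_num)
    (by rw [eval_tp, eval_tp]; norm_num)
  obtain ⟨y2, a2, b2, h2⟩ := tp_root (a := -1) (b := 0) (by norm_num)
    (by rw [eval_tp, eval_tp]; norm_num)
  obtain ⟨y3, a3, b3, h3⟩ := tp_root (a := 0) (b := 1) (by norm_num)
    (by rw [eval_tp, eval_tp]; norm_num)
  obtain ⟨y4, a4, b4, h4⟩ := tp_root (a := 2) (b := 3) (by norm_num)
    (by rw [eval_tp, eval_tp]; norm_num)
  refine ⟨![y0, y1, y2, y3, y4], ?_, ?_, ?_⟩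
  · intro i hi
    fin_cases i
    · show |y0| ≤ 2; rw [abs_le]; constructor <;> linarith
    · show |y1| ≤ 2; rw [abs_le]; constructor <;> linarith
    · show |y2| ≤ 2; rw [abs_le]; constructor <;> linarith
    · show |y3| ≤ 2; rw [abs_le]; constructor <;> linarith
    · exact absurd rfl hi
  · simpa using a4
  · have hdvd : ∏ i, (X - C (![y0, y1, y2, y3, y4] i)) ∣ tp := by
      apply Finset.prod_dvd_of_coprime
      · intro i _ j _ hij
        apply pairwise_coprime_X_sub_C ?_ hij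
        intro i j hij
        fin_cases i <;> fin_cases j <;> simp at hij ⊢ <;> linarith
      · intro i _
        rw [dvd_iff_isRoot, IsRoot.def]
        fin_cases i <;> simp <;> assumption
    apply eq_of_monic_of_dvd_of_natDegree_le _ tp_monic hdvd
    · rw [tp_natDegree, natDegree_prod_of_monic _ _ (fun i _ => monic_X_sub_C _)]
      simp
    · exact monic_prod_of_monic _ _ (fun i _ => monic_X_sub_C _)

/-- the quadratic factors -/
noncomputable def qd (y : ℝ) : ℂ[X] := X ^ 2 - C (y : ℂ) * X + 1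

lemma qd_small {y : ℝ} (hy : |y| ≤ 2) : (qd y).mahlerMeasure = 1 := by
  have h1 : 0 ≤ 4 - y ^ 2 := by
    have := abs_le.mp hy
    nlinarith
  set s : ℝ := Real.sqrt (4 - y ^ 2) with hs
  have hs2 : s ^ 2 = 4 - y ^ 2 := Real.sq_sqrt h1
  have hfac : qd y = (X - C (⟨y / 2, s / 2⟩ : ℂ)) * (X - C (⟨y / 2, -(s / 2)⟩ : ℂ)) := by
    unfold qd
    have e1 : (y : ℂ) = (⟨y / 2, s / 2⟩ : ℂ) + ⟨y / 2, -(s / 2)⟩ := by
      apply Complex.ext <;> simp
    have e2 : (1 : ℂ) = (⟨y / 2, s / 2⟩ : ℂ) * ⟨y / 2, -(s / 2)⟩ := by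
      apply Complex.ext
      · simp; nlinarith
      · simp; ring
    have e3 : (1 : ℂ[X]) = C (⟨y / 2, s / 2⟩ : ℂ) * C (⟨y / 2, -(s / 2)⟩ : ℂ) := by
      rw [← C_mul, ← e2, C_1]
    rw [e1, e3, C_add]
    ring
  have hn : ∀ t : ℝ, t ^ 2 = (s / 2) ^ 2 → ‖(⟨y / 2, t⟩ : ℂ)‖ = 1 := by
    intro t ht
    have : ‖(⟨y / 2, t⟩ : ℂ)‖ ^ 2 = 1 := by
      rw [Complex.sq_norm, Complex.normSq_mk]
      nlinarith
    have h0 := norm_nonneg (⟨y / 2, t⟩ : ℂ)
    nlinarith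
  rw [hfac, mahlerMeasure_mul, mahlerMeasure_X_sub_C, mahlerMeasure_X_sub_C,
    hn _ rfl, hn _ (by ring)]
  norm_num

lemma qd_big {y t : ℝ} (ht : 1 < t) (hy : y = t + t⁻¹) : (qd y).mahlerMeasure = t := by
  have ht0 : (t : ℂ) ≠ 0 := by
    have : t ≠ 0 := by linarith
    exact_mod_cast this
  have hfac : qd y = (X - C (t : ℂ)) * (X - C ((t : ℂ)⁻¹)) := by
    unfold qd
    have e1 : (y : ℂ) = (t : ℂ) + (t : ℂ)⁻¹ := by rw [hy]; push_cast; rfl
    have e3 : (1 : ℂ[X]) = C (t : ℂ) * C ((t : ℂ)⁻¹) := by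
      rw [← C_mul, mul_inv_cancel₀ ht0, C_1]
    rw [e1, e3, C_add]
    ring
  have h1 : ‖(t : ℂ)‖ = t := by
    rw [Complex.norm_real, Real.norm_eq_abs, abs_of_pos (by linarith)]
  rw [hfac, mahlerMeasure_mul, mahlerMeasure_X_sub_C, mahlerMeasure_X_sub_C, norm_inv, h1,
    max_eq_right ht.le, max_eq_left (inv_le_one_of_one_le₀ ht.le), mul_one]

lemma lehmer_eval (z : ℂ) (hz : z ≠ 0) : (lehmer.map (Int.castRingHom ℂ)).eval z =
    z ^ 5 * (tp.map (algebraMap ℝ ℂ)).eval (z + z⁻¹) := by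
  unfold lehmer tp
  simp
  field_simp
  ring

theorem MM_lehmer_eq {τ : ℝ} (h1 : 1 < τ)
    (h : τ ^ 10 + τ ^ 9 - τ ^ 7 - τ ^ 6 - τ ^ 5 - τ ^ 4 - τ ^ 3 + τ + 1 = 0) :
    MM lehmer = τ := by
  obtain ⟨y, hy, hy4, hfac⟩ := tp_factor
  have hmap : tp.map (algebraMap ℝ ℂ) = ∏ i, (X - C ((y i : ℝ) : ℂ)) := by
    rw [hfac, Polynomial.map_prod]
    simp
  have hpoly : lehmer.map (Int.castRingHom ℂ) = ∏ i, qd (y i) := by
    apply Polynomial.funext
    intro z
    by_cases hz : z = 0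
    · subst hz
      rw [eval_prod]
      have : ∀ i, (qd (y i)).eval 0 = 1 := by
        intro i; unfold qd; simp
      simp only [this, Finset.prod_const_one]
      unfold lehmer
      simp
    · rw [lehmer_eval z hz, hmap, eval_prod, eval_prod]
      have : ∀ i, (qd (y i)).eval z = z * (z + z⁻¹ - (y i : ℂ)) := by
        intro i; unfold qd; simp; field_simp; ring
      simp only [this, Finset.prod_mul_distrib, Finset.prod_const, Finset.card_univ,
        Fintype.card_fin, eval_sub, eval_X, eval_C]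
  have hMM : MM lehmer = ∏ i, (qd (y i)).mahlerMeasure := by
    unfold MM
    rw [hpoly]
    rw [Fin.prod_univ_five, Fin.prod_univ_five, mahlerMeasure_mul, mahlerMeasure_mul,
      mahlerMeasure_mul, mahlerMeasure_mul]
  have hτ : tp.eval (τ + τ⁻¹) = 0 := by
    have hτ0 : τ ≠ 0 := by linarith
    rw [eval_tp]
    field_simp
    linear_combination h
  have hτ2 : 2 < τ + τ⁻¹ := by
    have h0 : 0 < τ := by linarith
    have h2 : τ + τ⁻¹ - 2 = (τ - 1) ^ 2 * τ⁻¹ := by field_simp; ring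
    have h3 : 0 < (τ - 1) ^ 2 * τ⁻¹ := by
      have : 0 < τ - 1 := by linarith
      positivity
    linarith
  have hy5 : y 4 = τ + τ⁻¹ := by
    rw [hfac, eval_prod, Finset.prod_eq_zero_iff] at hτ
    obtain ⟨i, _, hi⟩ := hτ
    have hi' : τ + τ⁻¹ = y i := by
      have : τ + τ⁻¹ - y i = 0 := by simpa using hi
      linarith
    by_cases h4 : i = 4
    · rw [hi', h4]
    · have := abs_le.mp (hy i h4)
      linarith
  rw [hMM, Fin.prod_univ_five, qd_small (hy 0 (by decide)), qd_small (hy 1 (by decide)),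
    qd_small (hy 2 (by decide)), qd_small (hy 3 (by decide)), qd_big h1 hy5]
  ring

end Pool.Agent.H589.Five
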